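import Pool.Agent.Lib.MP_a2c890_nt.R.Defs

set_option autoImplicit false
set_option linter.unusedSectionVars false

namespace Pool.Agent.Lib.MP_a2c890_nt.R

open Finset T

variable {p : ℕ} [Fact p.Prime]

theorem dl_comm (v w : Vc p) : dl v w = dl w v := by
  rw [dl, dl, dt_swap v w, norm_neg, mul_comm]

theorem dl_nonneg (v w : Vc p) : 0 ≤ dl v w := by unfold dl; positivity

theorem dl_self (v : Vc p) : dl v v = 0 := by rw [dl, dt_self, norm_zero, zero_div]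

theorem dl_smul {c : PadicAlgCl p} (hc : c ≠ 0) (v w : Vc p) : dl (c • v) w = dl v w := by
  have := dt_smul c 1 v w
  rw [one_smul, mul_one] at this
  rw [dl, dl, this, norm_mul, norm_smul, mul_assoc, mul_div_mul_left _ _ (norm_ne_zero_iff.mpr hc)]

theorem dl_smul' {c : PadicAlgCl p} (hc : c ≠ 0) (v w : Vc p) : dl v (c • w) = dl v w := by
  rw [dl_comm, dl_smul hc, dl_comm]

theorem dl_unit {v w : Vc p} (hv : ‖v‖ = 1) (hw : ‖w‖ = 1) : dl v w = ‖dt v w‖ := by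
  rw [dl, hv, hw, mul_one, div_one]

theorem norm_dt {v w : Vc p} (hv : v ≠ 0) (hw : w ≠ 0) : ‖dt v w‖ = dl v w * (‖v‖ * ‖w‖) := by
  rw [dl, div_mul_cancel₀ _ (mul_pos (norm_pos_iff.mpr hv) (norm_pos_iff.mpr hw)).ne']

theorem ex_unit {v : Vc p} (hv : v ≠ 0) : ∃ c : PadicAlgCl p, c ≠ 0 ∧ ‖c • v‖ = 1 := by
  obtain ⟨i, hi⟩ : ∃ i, ‖v‖ = ‖v i‖ := by
    rcases le_total ‖v 0‖ ‖v 1‖ with h | h
    · exact ⟨1, le_antisymm (nv_le h le_rfl) (norm_le_pi_norm v 1)⟩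
    · exact ⟨0, le_antisymm (nv_le le_rfl h) (norm_le_pi_norm v 0)⟩
  have h4 : v i ≠ 0 := norm_ne_zero_iff.mp (hi ▸ norm_ne_zero_iff.mpr hv)
  exact ⟨(v i)⁻¹, inv_ne_zero h4, by
    rw [norm_smul, norm_inv, hi, inv_mul_cancel₀ (norm_ne_zero_iff.mpr h4)]⟩

theorem ne_of_unit {v : Vc p} (h : ‖v‖ = 1) : v ≠ 0 :=
  norm_ne_zero_iff.mp (by rw [h]; exact one_ne_zero)

theorem dl_zero (w : Vc p) : dl 0 w = 0 := by simp [dl]

theorem dl_le_one (v w : Vc p) : dl v w ≤ 1 := by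
  rcases eq_or_ne v 0 with rfl | hv
  · rw [dl_zero]; exact zero_le_one
  rcases eq_or_ne w 0 with rfl | hw
  · rw [dl_comm, dl_zero]; exact zero_le_one
  obtain ⟨a, a0, a1⟩ := ex_unit hv
  obtain ⟨b, b0, b1⟩ := ex_unit hw
  rw [← dl_smul a0, ← dl_smul' b0, dl_unit a1 b1]
  exact dt_le a1.le b1.le

theorem dl_tri (a : Vc p) {b : Vc p} (hb : b ≠ 0) (c : Vc p) :
    dl a c ≤ max (dl a b) (dl b c) := by
  rcases eq_or_ne a 0 with rfl | ha
  · rw [dl_zero]; exact le_max_of_le_right (dl_nonneg _ _)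
  rcases eq_or_ne c 0 with rfl | hc
  · rw [dl_comm, dl_zero]; exact le_max_of_le_left (dl_nonneg _ _)
  obtain ⟨s, s0, s1⟩ := ex_unit ha
  obtain ⟨t, t0, t1⟩ := ex_unit hb
  obtain ⟨u, u0, u1⟩ := ex_unit hc
  rw [← dl_smul s0 a c, ← dl_smul' u0, ← dl_smul s0 a b, ← dl_smul' t0 _ b, ← dl_smul t0 b c,
    ← dl_smul' u0 _ c, dl_unit s1 u1, dl_unit s1 t1, dl_unit t1 u1]
  exact dt_tri s1.le t1 u1.le

theorem dl_lt {a b c : Vc p} {r : ℝ} (hb : b ≠ 0) (h1 : dl a b < r) (h2 : dl b c < r) :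
    dl a c < r := (dl_tri a hb c).trans_lt (max_lt h1 h2)

theorem dl_le {a b c : Vc p} {r : ℝ} (hb : b ≠ 0) (h1 : dl a b ≤ r) (h2 : dl b c ≤ r) :
    dl a c ≤ r := (dl_tri a hb c).trans (max_le h1 h2)

theorem dl_eq_of_lt {a b c : Vc p} (ha : a ≠ 0) (hb : b ≠ 0) (h : dl a b < dl b c) :
    dl a c = dl b c := by
  refine le_antisymm (dl_le hb h.le le_rfl) (not_lt.mp fun h' => ?_)
  exact lt_irrefl _ (dl_lt ha (dl_comm a b ▸ h) h')

theorem dl_eq_zero {v w : Vc p} (hv : v ≠ 0) (hw : w ≠ 0) : dl v w = 0 ↔ dt v w = 0 := by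
  rw [dl, div_eq_zero_iff, or_iff_left
    (mul_pos (norm_pos_iff.mpr hv) (norm_pos_iff.mpr hw)).ne', norm_eq_zero]

theorem dl_par {a a' : Vc p} (ha : a ≠ 0) (ha' : a' ≠ 0) (h : dt a a' = 0) (b : Vc p) :
    dl a b = dl a' b := by
  obtain ⟨c, rfl⟩ := exists_smul ha' h
  exact dl_smul (left_ne_zero_of_smul ha) _ _

theorem norm_gal (σ : Gl p) (x : PadicAlgCl p) : ‖σ x‖ = ‖x‖ := by
  rw [← PadicAlgCl.spectralNorm_eq, ← PadicAlgCl.spectralNorm_eq, ← spectralNorm_eq_of_equiv]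

theorem nv_eq_max (v : Vc p) : ‖v‖ = max ‖v 0‖ ‖v 1‖ :=
  le_antisymm (nv_le (le_max_left _ _) (le_max_right _ _))
    (max_le (norm_le_pi_norm v 0) (norm_le_pi_norm v 1))

theorem nv_gal (σ : Gl p) (v : Vc p) : ‖(σ ∘ v : Vc p)‖ = ‖v‖ := by
  rw [nv_eq_max, nv_eq_max v, Function.comp_apply, Function.comp_apply, norm_gal, norm_gal]

theorem dl_gal (σ : Gl p) (v w : Vc p) : dl (σ ∘ v) (σ ∘ w) = dl v w := by
  rw [dl, dl, dt_map, norm_gal, nv_gal, nv_gal]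

theorem gal_ne (σ : Gl p) {v : Vc p} (hv : v ≠ 0) : (σ ∘ v : Vc p) ≠ 0 :=
  norm_ne_zero_iff.mp (by rw [nv_gal]; exact norm_ne_zero_iff.mpr hv)

theorem nv_aff {u : PadicAlgCl p} (hu : ‖u‖ ≤ 1) : ‖(![u, 1] : Vc p)‖ = 1 :=
  nv_eq (nv_le hu (by simp)) 1 (by simp)

theorem dl_aff {u u' : PadicAlgCl p} (hu : ‖u‖ ≤ 1) (hu' : ‖u'‖ ≤ 1) :
    dl ![u, 1] ![u', 1] = ‖u - u'‖ := by
  rw [dl_unit (nv_aff hu) (nv_aff hu')]; simp [dt]

theorem chord_sub_lt {x y : Vc p} (h : ‖x - y‖ < ‖y‖) : ‖x‖ = ‖y‖ := by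
  have e : x = (x - y) + y := by ring
  rw [e, IsUltrametricDist.norm_add_eq_max_of_norm_ne_norm h.ne, max_eq_right h.le]

theorem chord_dt_le (v w : Vc p) : ‖dt v w‖ ≤ ‖v‖ * ‖w‖ :=
  sub_le (by rw [norm_mul]; gcongr <;> exact norm_le_pi_norm _ _)
    (by rw [norm_mul]; gcongr <;> exact norm_le_pi_norm _ _)

/-- a residue class that avoids finitely many classes -/
theorem chord_res {ι : Type} (I : Finset ι) (u : ι → PadicAlgCl p) (hu : ∀ i ∈ I, ‖u i‖ ≤ 1) :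
    ∃ t : PadicAlgCl p, ‖t‖ ≤ 1 ∧ ∀ i ∈ I, ‖t - u i‖ = 1 := by
  obtain ⟨t, ht⟩ := IsAlgClosed.eval_surjective
    (p := Polynomial.X * ∏ i ∈ I, (Polynomial.X - Polynomial.C (u i)))
    (by rw [Polynomial.natDegree_X_mul (Polynomial.monic_prod_of_monic _ _ fun i _ =>
      Polynomial.monic_X_sub_C (u i)).ne_zero]; omega) 1
  have e : ‖t‖ * ∏ i ∈ I, ‖t - u i‖ = 1 := by
    simpa [Polynomial.eval_prod] using congrArg norm ht
  have t1 : ‖t‖ ≤ 1 := not_lt.mp fun h => by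
    have : 1 ≤ ∏ i ∈ I, ‖t - u i‖ := prod_induction _ (1 ≤ ·)
      (fun _ _ => one_le_mul_of_one_le_of_one_le) le_rfl fun i hi => h.le.trans_eq (norm_eq_of_sub_lt (x := t - u i) (y := t) (by
        rw [sub_sub_cancel_left, norm_neg]; exact (hu i hi).trans_lt h)).symm
    nlinarith
  refine ⟨t, t1, fun i hi => (sub_le t1 (hu i hi)).antisymm ?_⟩
  classical
  rw [← mul_prod_erase I _ hi, mul_left_comm] at e
  exact e.ge.trans (mul_le_of_le_one_right (norm_nonneg _) (mul_le_one₀ t1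
    (prod_nonneg fun _ _ => norm_nonneg _) (prod_le_one (fun _ _ => norm_nonneg _)
      fun j hj => sub_le t1 (hu j (mem_of_mem_erase hj)))))

/-- a close lift -/
theorem ex_close {v w : Vc p} (hv : ‖v‖ = 1) (hw : w ≠ 0) :
    ∃ c : PadicAlgCl p, c ≠ 0 ∧ ‖c • w‖ = 1 ∧ ‖v - c • w‖ ≤ dl v w := by
  obtain ⟨s, s0, hx⟩ := ex_unit hw
  rw [← dl_smul' s0]
  rcases (dl_le_one v (s • w)).eq_or_lt with e | e
  · exact ⟨s, s0, hx, e ▸ nv_le (sub_le (co_le hv.le 0) (co_le hx.le 0))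
      (sub_le (co_le hv.le 1) (co_le hx.le 1))⟩
  rw [dl_unit hv hx] at e ⊢
  obtain ⟨c, hc⟩ : ∃ c : PadicAlgCl p, ‖v - c • s • w‖ ≤ ‖dt v (s • w)‖ := by
    generalize s • w = x at hx
    rcases nv_one hx with h1 | h1
    · have h2 : x 0 ≠ 0 := norm_ne_zero_iff.mp (by rw [h1]; exact one_ne_zero)
      refine ⟨v 0 / x 0, nv_le (by simp [h2]) ?_⟩
      have : (v - (v 0 / x 0) • x) 1 = -dt v x / x 0 := by
        simp only [Pi.sub_apply, Pi.smul_apply, smul_eq_mul, dt]; field_simp; ring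
      rw [this, norm_div, norm_neg, h1, div_one]
    · have h2 : x 1 ≠ 0 := norm_ne_zero_iff.mp (by rw [h1]; exact one_ne_zero)
      refine ⟨v 1 / x 1, nv_le ?_ (by simp [h2])⟩
      have : (v - (v 1 / x 1) • x) 0 = dt v x / x 1 := by
        simp only [Pi.sub_apply, Pi.smul_apply, smul_eq_mul, dt]; field_simp
      rw [this, norm_div, h1, div_one]
  have n1 : ‖c • s • w‖ = 1 :=
    (chord_sub_lt (by rw [norm_sub_rev, hv]; exact hc.trans_lt e)).trans hv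
  rw [smul_smul] at hc n1
  exact ⟨c * s, left_ne_zero_of_smul (ne_of_unit n1), n1, by rwa [← smul_smul] at hc ⊢⟩

/-- a point far from finitely many points -/
theorem ex_far {ι : Type} (I : Finset ι) (z : ι → Vc p) (hz : ∀ i ∈ I, z i ≠ 0) :
    ∃ v : Vc p, ‖v‖ = 1 ∧ ∀ i ∈ I, dl v (z i) = 1 := by
  obtain ⟨t, t1, ht⟩ := chord_res I (fun i => if ‖z i 0‖ ≤ ‖z i 1‖ then z i 0 / z i 1 else 0)
    fun i _ => by
      split_ifs with h
      · rw [norm_div]; exact div_le_one_of_le₀ h (norm_nonneg _)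
      · simp
  refine ⟨![t, 1], nv_aff t1, fun i hi => ?_⟩
  have z0 := norm_pos_iff.mpr (hz i hi)
  have := ht i hi
  rw [dl, nv_aff t1, one_mul, div_eq_one_iff_eq z0.ne', nv_eq_max]
  rw [nv_eq_max] at z0
  simp only [dt, Matrix.cons_val_zero, Matrix.cons_val_one, one_mul]
  split_ifs at this with h
  · rw [max_eq_right h] at z0 ⊢
    rw [show t * z i 1 - z i 0 = (t - z i 0 / z i 1) * z i 1 by
      rw [sub_mul, div_mul_cancel₀ _ (norm_pos_iff.mp z0)], norm_mul, this, one_mul]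
  · rw [max_eq_left (not_le.mp h).le, norm_sub_rev]
    exact norm_eq_of_sub_lt (by
      rw [sub_sub_cancel_left, norm_neg, mul_comm]; exact (mul_le1 le_rfl t1).trans_lt (not_le.mp h))

/-- a generic point at a given distance -/
theorem ex_gen {a : Vc p} (ha : a ≠ 0) {π : PadicAlgCl p} (h0 : π ≠ 0) (h1 : ‖π‖ < 1)
    {ι : Type} (I : Finset ι) (z : ι → Vc p) (hz : ∀ i ∈ I, z i ≠ 0) :
    ∃ a' : Vc p, ‖a'‖ = ‖a‖ ∧ dl a' a ≤ ‖π‖ ∧ ∀ i ∈ I, dl a' (z i) = max (dl a (z i)) ‖π‖ := by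
  have p0 := norm_pos_iff.mpr h0
  have a0 := norm_pos_iff.mpr ha
  obtain ⟨b, b1, b2⟩ : ∃ b : Vc p, ‖b‖ = ‖a‖ ∧ dl b a = 1 := by
    obtain ⟨s, s0, s1⟩ := ex_unit ha
    obtain ⟨v, v1, hv⟩ := ex_far univ (fun _ : Unit => a) fun _ _ => ha
    refine ⟨s⁻¹ • v, ?_, by rw [dl_smul (inv_ne_zero s0)]; exact hv () (mem_univ _)⟩
    rw [norm_smul] at s1
    rw [norm_smul, v1, mul_one, norm_inv]
    exact inv_eq_of_mul_eq_one_right s1
  have b0 : b ≠ 0 := norm_pos_iff.mp (b1 ▸ a0)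
  have key : ∀ i ∈ I, dl a (z i) ≤ ‖π‖ → ‖dt b (z i)‖ = ‖a‖ * ‖z i‖ := fun i hi h => by
    have := dl_eq_of_lt (a := z i) (b := a) (c := b) (hz i hi) ha (by
      rw [dl_comm, dl_comm a b, b2]; exact h.trans_lt h1)
    rw [norm_dt b0 (hz i hi), dl_comm, this, dl_comm, b2, one_mul, b1]
  obtain ⟨t, t1, ht⟩ := chord_res I (fun i => if dl a (z i) ≤ ‖π‖ then
      -dt a (z i) / (π * dt b (z i)) else 0) fun i hi => by
    split_ifs with h
    · rw [norm_div, norm_neg, norm_mul, key i hi h, norm_dt ha (hz i hi)]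
      exact div_le_one_of_le₀ (by gcongr) (by positivity)
    · simp
  have e : ∀ w, dt (a + (π * t) • b) w = dt a w + π * t * dt b w := fun w => by
    simp only [dt, Pi.add_apply, Pi.smul_apply, smul_eq_mul]; ring
  have pt : ‖π * t‖ ≤ ‖π‖ := mul_le1 le_rfl t1
  have n1 : ‖a + (π * t) • b‖ = ‖a‖ := chord_sub_lt (by
    rw [add_sub_cancel_left, norm_smul, b1]
    exact mul_lt_of_lt_one_left a0 (pt.trans_lt h1))
  have d1 : dl (a + (π * t) • b) a ≤ ‖π‖ := by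
    rw [dl, e, dt_self, zero_add, n1, norm_mul, norm_dt b0 ha, b2, one_mul, b1,
      mul_div_cancel_right₀ _ (mul_pos a0 a0).ne']
    exact pt
  refine ⟨_, n1, d1, fun i hi => ?_⟩
  have := ht i hi
  split_ifs at this with h
  · have z0 := mul_pos a0 (norm_pos_iff.mpr (hz i hi))
    have k0 : π * dt b (z i) ≠ 0 :=
      mul_ne_zero h0 (norm_pos_iff.mp (by rw [key i hi h]; exact z0))
    rw [max_eq_right h, dl, e, n1, show dt a (z i) + π * t * dt b (z i) =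
      (t - -dt a (z i) / (π * dt b (z i))) * (π * dt b (z i)) by
        rw [sub_mul, div_mul_cancel₀ _ k0]; ring, norm_mul, this, one_mul, norm_mul, key i hi h,
      mul_div_cancel_right₀ _ z0.ne']
  · rw [max_eq_left (not_le.mp h).le]
    exact dl_eq_of_lt (norm_pos_iff.mp (n1 ▸ a0)) ha (d1.trans_lt (not_le.mp h))

theorem frm_of {d : ℕ} (d2 : 2 ≤ d) {P Q : MvPolynomial (Fin 2) (PadicAlgCl p)}
    (hP : P.IsHomogeneous d) (hQ : Q.IsHomogeneous d)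
    (int : ∀ m, ‖P.coeff m‖ ≤ 1 ∧ ‖Q.coeff m‖ ≤ 1) {ρ0 : ℝ} (h0 : 0 < ρ0)
    (low : ∀ v : Vc p, ρ0 * ‖v‖ ^ d ≤ ‖(![MvPolynomial.eval v P, MvPolynomial.eval v Q] : Vc p)‖) :
    Frm d (fun v : Vc p => ![MvPolynomial.eval v P, MvPolynomial.eval v Q]) ρ0 :=   ⟨d2, fun c v => ev_smul hP hQ c v, fun v w hv hw =>
    have a := Lip.eval zero_le_one P (fun m => (int m).1) v w hv hw
    have b := Lip.eval zero_le_one Q (fun m => (int m).2) v w hv hw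
    ⟨nv_le a.1 b.1, nv_le (a.2.trans_eq (one_mul _)) (b.2.trans_eq (one_mul _))⟩, h0, low⟩

namespace Frm

variable {d : ℕ} {Ψ : Vc p → Vc p} {ρ0 : ℝ} (Fm : Frm d Ψ ρ0)
include Fm

theorem zero : Ψ 0 = 0 := by
  have := Fm.hom 0 0
  rwa [zero_smul, zero_pow (by have := Fm.d2; omega), zero_smul] at this

theorem ne {v : Vc p} (hv : v ≠ 0) : Ψ v ≠ 0 :=   norm_pos_iff.mp ((mul_pos Fm.pos (pow_pos (norm_pos_iff.mpr hv) d)).trans_le (Fm.low v))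

theorem iter_zero (n : ℕ) : Ψ^[n] 0 = 0 := Function.iterate_fixed Fm.zero n

theorem iter_ne (n : ℕ) {v : Vc p} (hv : v ≠ 0) : Ψ^[n] v ≠ 0 := by
  induction n with
  | zero => exact hv
  | succ n ih => rw [Function.iterate_succ_apply']; exact Fm.ne ih

theorem up (v : Vc p) : ‖Ψ v‖ ≤ ‖v‖ ^ d := by
  rcases eq_or_ne v 0 with rfl | hv
  · rw [Fm.zero, norm_zero]; positivity
  obtain ⟨c, c0, c1⟩ := ex_unit hv
  have := (Fm.lip _ _ c1.le c1.le).1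
  rw [Fm.hom, norm_smul, norm_pow] at this
  rw [norm_smul] at c1
  refine le_of_mul_le_mul_left (this.trans_eq ?_) (pow_pos (norm_pos_iff.mpr c0) d)
  rw [← mul_pow, c1, one_pow]

theorem le_one : ρ0 ≤ 1 := by
  have a := (Fm.low ![0, 1]).trans (Fm.up _)
  rwa [nv_aff (by simp), one_pow, mul_one] at a

theorem rho_smul {c : PadicAlgCl p} (hc : c ≠ 0) (v : Vc p) : rho d Ψ (c • v) = rho d Ψ v := by
  rw [rho, rho, Fm.hom, norm_smul, norm_smul, norm_pow, mul_pow,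
    mul_div_mul_left _ _ (pow_ne_zero d (norm_ne_zero_iff.mpr hc))]

theorem rho_bd {v : Vc p} (hv : v ≠ 0) : ρ0 ≤ rho d Ψ v ∧ rho d Ψ v ≤ 1 :=   have a := pow_pos (norm_pos_iff.mpr hv) d
  ⟨(le_div_iff₀ a).mpr (Fm.low v), (div_le_one a).mpr (Fm.up v)⟩

theorem par {v w : Vc p} (h : dt v w = 0) : dt (Ψ v) (Ψ w) = 0 := by
  rcases eq_or_ne w 0 with rfl | hw
  · rw [Fm.zero]; simp [dt]
  obtain ⟨c, rfl⟩ := exists_smul hw h
  have := dt_smul (c ^ d) 1 (Ψ w) (Ψ w)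
  rwa [one_smul, dt_self, mul_zero, ← Fm.hom] at this

theorem iter_par (n : ℕ) {v w : Vc p} (h : dt v w = 0) : dt (Ψ^[n] v) (Ψ^[n] w) = 0 := by
  induction n with
  | zero => exact h
  | succ n ih => rw [Function.iterate_succ_apply', Function.iterate_succ_apply']; exact Fm.par ih

theorem near {v w : Vc p} (hv : v ≠ 0) (hw : w ≠ 0) (h : dl w v < rho d Ψ v) :
    rho d Ψ w = rho d Ψ v := by
  obtain ⟨s, s0, s1⟩ := ex_unit hv
  obtain ⟨c, c0, c1, hc⟩ := ex_close s1 hw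
  rw [← Fm.rho_smul s0 v, rho.eq_1 d Ψ (s • v), s1, one_pow, div_one] at h ⊢
  rw [dl_smul s0, dl_comm, norm_sub_rev] at hc
  rw [← Fm.rho_smul c0, rho, c1, one_pow, div_one]
  exact chord_sub_lt (((Fm.lip _ _ c1.le s1.le).2.trans hc).trans_lt h)

theorem lipz (v w : Vc p) : ρ0 * dl (Ψ v) (Ψ w) ≤ dl v w := by
  rcases eq_or_ne v 0 with rfl | hv
  · rw [Fm.zero, dl_zero, dl_zero, mul_zero]
  rcases eq_or_ne w 0 with rfl | hw
  · rw [Fm.zero, dl_comm, dl_zero, dl_comm, dl_zero, mul_zero]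
  obtain ⟨s, s0, s1⟩ := ex_unit hv
  obtain ⟨c, c0, c1, hc⟩ := ex_close s1 hw
  rw [dl_smul s0] at hc
  rw [← dl_smul (pow_ne_zero d s0), ← dl_smul' (pow_ne_zero d c0), ← Fm.hom, ← Fm.hom, dl,
    ← mul_div_assoc, div_le_iff₀ (mul_pos (norm_pos_iff.mpr (Fm.ne (ne_of_unit s1)))
      (norm_pos_iff.mpr (Fm.ne (ne_of_unit c1))))]
  have a := Fm.low (s • v)
  rw [s1, one_pow, mul_one] at a
  have b : ‖dt (Ψ (s • v)) (Ψ (c • w))‖ ≤ dl v w * ‖Ψ (c • w)‖ := by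
    rw [show dt (Ψ (s • v)) (Ψ (c • w)) = dt (Ψ (s • v) - Ψ (c • w)) (Ψ (c • w)) by
      simp only [dt, Pi.sub_apply]; ring]
    exact (chord_dt_le _ _).trans (mul_le_mul_of_nonneg_right
      ((Fm.lip _ _ s1.le c1.le).2.trans hc) (norm_nonneg _))
  exact (mul_le_mul a b (norm_nonneg _) (norm_nonneg _)).trans_eq (mul_left_comm _ _ _)

theorem iter_lipz (n : ℕ) (v w : Vc p) : ρ0 ^ n * dl (Ψ^[n] v) (Ψ^[n] w) ≤ dl v w := by
  induction n with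
  | zero => exact (by rw [pow_zero, one_mul]; rfl : _ = dl v w).le
  | succ n ih =>
    rw [Function.iterate_succ_apply', Function.iterate_succ_apply', pow_succ, mul_assoc]
    exact (mul_le_mul_of_nonneg_left (Fm.lipz _ _) (pow_pos Fm.pos n).le).trans ih

theorem iter_near (n : ℕ) {v w : Vc p} (hv : v ≠ 0) (hn : ‖w‖ = ‖v‖) (h : dl w v < ρ0 ^ n) :
    ‖Ψ^[n] w‖ = ‖Ψ^[n] v‖ := by
  induction n generalizing v w with
  | zero => exact hn
  | succ n ih =>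
    have v0 := norm_pos_iff.mpr hv
    have := Fm.near hv (norm_pos_iff.mp (hn ▸ v0)) (h.trans_le
      ((pow_le_of_le_one Fm.pos.le Fm.le_one n.succ_ne_zero).trans (Fm.rho_bd hv).1))
    rw [rho, rho, hn, div_left_inj' (pow_pos v0 d).ne'] at this
    exact ih (Fm.ne hv) this (lt_of_mul_lt_mul_left
      (((Fm.lipz w v).trans_lt h).trans_eq (pow_succ' _ _)) Fm.pos.le)

/-- exact lifts are bounded above and below -/
theorem bdd {b : Vc p} (hb : b ≠ 0) : ∃ B : ℝ, 1 ≤ B ∧ ∀ (m : ℕ) (v : Vc p), Ψ^[m] v = b →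
    ∀ j, j ≤ m → B⁻¹ ≤ ‖Ψ^[j] v‖ ∧ ‖Ψ^[j] v‖ ≤ B := by
  obtain ⟨B, h1, h2, h3⟩ : ∃ B : ℝ, ‖b‖ ≤ B ∧ ‖b‖⁻¹ ≤ B ∧ ρ0⁻¹ ≤ B :=
    ⟨max (max ‖b‖ ‖b‖⁻¹) ρ0⁻¹, le_max_of_le_left (le_max_left _ _),
      le_max_of_le_left (le_max_right _ _), le_max_right _ _⟩
  have B1 : 1 ≤ B := ((one_le_inv₀ Fm.pos).mpr Fm.le_one).trans h3
  have B0 : 0 < B := one_pos.trans_le B1
  have d2 := Fm.d2
  have key : ∀ (m : ℕ) (v : Vc p), Ψ^[m] v = b → B⁻¹ ≤ ‖v‖ ∧ ‖v‖ ≤ B := fun m => by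
    induction m with
    | zero => exact fun v (e : v = b) => e ▸ ⟨inv_le_of_inv_le₀ (norm_pos_iff.mpr hb) h2, h1⟩
    | succ m ih =>
      intro v e
      obtain ⟨a1, a2⟩ := ih _ e
      refine ⟨not_lt.mp fun h => ?_, not_lt.mp fun h => ?_⟩
      · exact h.not_ge ((a1.trans (Fm.up v)).trans (pow_le_of_le_one (norm_nonneg _)
          (h.le.trans (inv_le_one_of_one_le₀ B1)) (by omega)))
      · have a3 : ‖v‖ ^ 2 ≤ ‖v‖ ^ d := pow_le_pow_right₀ (B1.trans h.le) d2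
        have a4 : 1 ≤ ρ0 * ‖v‖ := (inv_le_iff_one_le_mul₀' Fm.pos).mp (h3.trans h.le)
        have a5 := (mul_le_mul_of_nonneg_left a3 Fm.pos.le).trans ((Fm.low v).trans a2)
        nlinarith
  refine ⟨B, B1, fun m v e j hj => key (m - j) _ ?_⟩
  rw [← Function.iterate_add_apply, Nat.sub_add_cancel hj, e]

/-- the product formula in terms of distances -/
theorem prod_dl {y : Vc p} (hy : y ≠ 0) {x : Fin d → Vc p} (hx : ∀ i, x i ≠ 0)
    (h : ∀ v, ‖dt (Ψ v) y‖ * ∏ i, ‖x i‖ = ‖y‖ * ∏ i, ‖dt v (x i)‖) {v : Vc p} (hv : v ≠ 0) :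
    dl (Ψ v) y * rho d Ψ v = ∏ i, dl v (x i) := by
  have a := norm_ne_zero_iff.mpr (Fm.ne hv)
  have b := norm_ne_zero_iff.mpr hy
  have c := norm_ne_zero_iff.mpr hv
  have e : ∏ i, ‖x i‖ ≠ 0 := prod_ne_zero_iff.mpr fun i _ => norm_ne_zero_iff.mpr (hx i)
  simp only [dl, rho, prod_div_distrib, prod_mul_distrib, prod_const, card_univ, Fintype.card_fin]
  field_simp
  exact h v

end Frm

end Pool.Agent.Lib.MP_a2c890_nt.R
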