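import Pool.Agent.Lib.MP_a2c890_nt.R.Lift

set_option autoImplicit false
set_option linter.unusedSectionVars false

namespace Pool.Agent.Lib.MP_a2c890_nt.R

open Finset T MvPolynomial

open Classical in
theorem prod_off {α A : Type} [CommRing A] (X : Finset α) (v : α → Fin 2 → A) {n : ℕ}
    (hX : X.card = n) : ∃ (u : Fin n → α) (s : A), (∀ i, u i ∈ X) ∧ (s = 1 ∨ s = -1) ∧
      ∏ a ∈ X, ∏ b ∈ X.erase a, dt (v a) (v b) =
        s * (∏ i, ∏ j ∈ Ioi i, dt (v (u i)) (v (u j))) ^ 2 := by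
  subst hX
  let u : Fin X.card → α := fun i => X.equivFin.symm i
  have vi : Function.Injective u := Subtype.val_injective.comp X.equivFin.symm.injective
  have vm : ∀ i, u i ∈ X := fun i => (X.equivFin.symm i).2
  have vs : ∀ x ∈ X, ∃ i, u i = x := fun x hx => ⟨X.equivFin ⟨x, hx⟩, by simp [u]⟩
  have e2 : ∏ a ∈ X, ∏ b ∈ X.erase a, dt (v a) (v b) =
      ∏ i, ∏ j ∈ {i}ᶜ, dt (v (u i)) (v (u j)) := by
    symm
    refine prod_bij (fun i _ => u i) (fun i _ => vm i) (fun i _ j _ h => vi h)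
      (fun x hx => (vs x hx).imp fun i hi => ⟨mem_univ _, hi⟩) fun i _ => ?_
    refine prod_bij (fun j _ => u j) (fun j hj => mem_erase.mpr ⟨fun h => ?_, vm j⟩)
      (fun i _ j _ h => vi h) (fun x hx => ?_) fun j _ => rfl
    · exact mem_compl.mp hj (mem_singleton.mpr (vi h))
    · obtain ⟨a1, a2⟩ := mem_erase.mp hx
      obtain ⟨j, rfl⟩ := vs x a2
      exact ⟨j, mem_compl.mpr fun h => a1 (by rw [mem_singleton.mp h]), rfl⟩
  refine ⟨u, ∏ i : Fin X.card, ∏ _j ∈ Ioi i, (-1 : A), vm, ?_, ?_⟩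
  · simp only [prod_const]
    rw [prod_pow_eq_pow_sum]
    exact neg_one_pow_eq_or A _
  · rw [e2, ← prod_prod_Ioi_mul_eq_prod_prod_off_diag fun j i => dt (v (u i)) (v (u j)), sq,
      ← prod_mul_distrib, ← prod_mul_distrib]
    refine prod_congr rfl fun i _ => ?_
    rw [← prod_mul_distrib, ← prod_mul_distrib]
    exact prod_congr rfl fun j _ => by rw [dt_swap (v (u j))]; ring

open Classical in
theorem en_log {p : ℕ} [Fact p.Prime] {α : Type} (X : Finset α) (v : α → Vc p)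
    (h : ∀ a ∈ X, ∀ b ∈ X, a ≠ b → dt (v a) (v b) ≠ 0) :
    ∏ a ∈ X, ∏ b ∈ X.erase a, dt (v a) (v b) ≠ 0 ∧
      en X v = Real.log ‖∏ a ∈ X, ∏ b ∈ X.erase a, dt (v a) (v b)‖ := by
  have h1 : ∀ a ∈ X, ∀ b ∈ X.erase a, dt (v a) (v b) ≠ 0 := fun a ha b hb =>
    h a ha b (mem_erase.mp hb).2 (mem_erase.mp hb).1.symm
  refine ⟨prod_ne_zero_iff.mpr fun a ha => prod_ne_zero_iff.mpr (h1 a ha), ?_⟩
  rw [norm_prod, Real.log_prod fun a ha => norm_ne_zero_iff.mpr (prod_ne_zero_iff.mpr (h1 a ha))]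
  refine sum_congr rfl fun a ha => ?_
  rw [norm_prod, Real.log_prod fun b hb => norm_ne_zero_iff.mpr (h1 a ha b hb)]

theorem sz_list {Ω β : Type} [Field Ω] {c : ℕ} {B : ℝ} (f : β → Ω) :
    ∀ l : List β, (∀ a ∈ l, Sz c B 1 (f a)) → Sz c B l.length (l.map f).prod
  | [], _ => by simpa using Sz.one
  | a :: l, h => by
    rw [List.map_cons, List.prod_cons, List.length_cons, add_comm]
    exact (h a List.mem_cons_self).mul (sz_list f l fun b hb => h b (List.mem_cons_of_mem _ hb))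

theorem nm_list {Ω β : Type} [NormedField Ω] {B : ℝ} (hB : 0 ≤ B) (f : β → Ω) :
    ∀ l : List β, (∀ a ∈ l, ‖f a‖ ≤ B) → ‖(l.map f).prod‖ ≤ B ^ l.length
  | [], _ => by simp
  | a :: l, h => by
    rw [List.map_cons, List.prod_cons, List.length_cons, norm_mul, pow_succ']
    exact mul_le_mul (h a List.mem_cons_self)
      (nm_list hB f l fun b hb => h b (List.mem_cons_of_mem _ hb)) (norm_nonneg _) hB

theorem det_le {p : ℕ} [Fact p.Prime] {n : ℕ} (A : Matrix (Fin n) (Fin n) (PadicAlgCl p)) {B : ℝ}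
    (hB : 0 ≤ B) (h : ∀ i j, ‖A i j‖ ≤ B) : ‖A.det‖ ≤ B ^ n := by
  rw [Matrix.det_apply']
  refine IsUltrametricDist.norm_sum_le_of_forall_le_of_nonneg (by positivity) fun σ _ => ?_
  rw [norm_mul, norm_prod]
  refine (mul_le_of_le_one_left (prod_nonneg fun _ _ => norm_nonneg _)
    (IsUltrametricDist.norm_intCast_le_one _ _)).trans ?_
  exact (prod_le_prod (fun _ _ => norm_nonneg _) fun i _ => h _ _).trans_eq (by simp)

variable {K : Type} [Field K] [NumberField K] {d : ℕ} {F G : MvPolynomial (Fin 2) K}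
  {β : Fin 2 → K}

theorem Glb.gloc (D : Glb K d F G β) {p : ℕ} [Fact p.Prime] [Algebra K (PadicAlgCl p)]
    (τ : AlgebraicClosure K →ₐ[K] PadicAlgCl p) :
    GLoc D.sys (ev F G : Vc p → Vc p) fun x => τ ∘ lf x := by
  classical
  let _ : DecidableEq (Option (AlgebraicClosure K)) := fun a b => Classical.propDecidable (a = b)
  obtain ⟨e1, hs⟩ := D.span
  obtain ⟨c, B0, c0, hB0, sz⟩ := D.lift_sz
  have d2 := D.d2
  have B1 : 1 ≤ B0 := le_trans (by exact_mod_cast (by omega : 1 ≤ d)) hB0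
  have cB : 0 ≤ Real.log (c * B0) :=
    Real.log_nonneg (one_le_mul_of_one_le_of_one_le (by exact_mod_cast c0) B1)
  refine ⟨τ ∘ algebraMap K (AlgebraicClosure K) ∘ β,
    fun h => D.β1 (funext fun i => (map_eq_zero τ).mp (congrFun h i)), fun B => ?_⟩
  have B2 : 0 ≤ Real.log (max B 1) := Real.log_nonneg (le_max_right _ _)
  refine ⟨Module.finrank ℚ K * (2 * (e1 + 1) * Real.log (c * B0)) + 2 * e1 * Real.log (max B 1),
    by positivity, fun ν M M0 hM => ?_⟩
  obtain ⟨n, rfl⟩ : ∃ n, M = n + 1 := ⟨M - 1, by omega⟩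
  obtain ⟨s, δ, δ0, s1, s2⟩ := hs ν n hM
  have δ1 : ‖algebraMap K (PadicAlgCl p) δ‖ ≠ 0 :=
    norm_ne_zero_iff.mpr ((_root_.map_ne_zero _).mpr δ0)
  have ν0 : (0 : ℝ) ≤ ν := Nat.cast_nonneg ν
  have n0 : (0 : ℝ) ≤ ((n + 1 : ℕ) : ℝ) := Nat.cast_nonneg _
  refine ⟨-(2 * Real.log ‖algebraMap K (PadicAlgCl p) δ‖), fun m l x hx hm hl => ?_,
    fun α X v hX hv hne => ?_⟩
  · choose! cf cf0 cf1 using fun (z : D.sys.Ω) (h : D.sys.lev m z) => D.ex_lift h
    let lt : D.sys.Ω → Fin 2 → AlgebraicClosure K := fun z => cf z • lf z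
    have lv : ∀ {y z}, z ∈ D.sys.fib x l y → D.sys.lev m z := fun h =>
      Sys.lev_orb hx (Sys.mem_fib.mp h).1
    have dn : ∀ {z z'}, D.sys.lev m z → D.sys.lev m z' → z ≠ z' → dt (lt z) (lt z') ≠ 0 :=
      fun h h' hne => by
        rw [dt_smul]
        exact mul_ne_zero (mul_ne_zero (cf0 _ h) (cf0 _ h')) fun e => hne (dt_lf.mp e)
    refine ⟨fun z => τ ∘ lt z, fun z hz => ⟨?_, ?_⟩, ?_⟩
    · have := dt_smul (cf z) 1 (lf z) (lf z)
      rw [one_smul, dt_self, mul_zero] at this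
      rw [dt_map, this, map_zero]
    · rw [← ev_iter_map, cf1 z (Sys.lev_orb hx hz)]
    let W : Finset D.sys.Ω → AlgebraicClosure K := fun Y =>
      ∏ a ∈ Y, ∏ b ∈ Y.erase a, dt (lt a) (lt b)
    have gl : ∀ (σ : Gal(AlgebraicClosure K/K)) z, D.sys.lev m z →
        ∃ ζ : AlgebraicClosure K, ζ ^ d ^ m = 1 ∧ lt (σ • z) = ζ • (σ ∘ lt z) := fun σ z hz => by
      have hz' : D.sys.lev m (σ • z) :=
        Sys.lev_orb hz (Sys.gal_orb (S := D.sys) σ (Sys.self_orb z))
      have a0 : σ (cf z) ≠ 0 := (_root_.map_ne_zero σ).mpr (cf0 z hz)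
      have a1 : lt (σ • z) = (cf (σ • z) / σ (cf z)) • (σ ∘ lt z) := by
        ext i
        simp only [lt, lf_smul, Pi.smul_apply, smul_eq_mul, Function.comp_apply, map_mul]
        field_simp
      refine ⟨_, ?_, a1⟩
      have a2 := cf1 _ hz'
      have a3 := ev_iter_map (F := F) (G := G)
        (σ : AlgebraicClosure K →ₐ[K] AlgebraicClosure K) m (lt z)
      rw [show (ev F G)^[m] (lt z) = _ from cf1 z hz] at a3
      have a4 : (ev F G)^[m] (σ ∘ lt z) = algebraMap K (AlgebraicClosure K) ∘ β :=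
        a3.symm.trans (funext fun i => σ.commutes (β i))
      rw [show cf (σ • z) • lf (σ • z) = _ from a1, ev_iter_smul D.hF D.hG, a4] at a2
      exact smul_left_injective _ D.β1 (a2.trans (one_smul _ _).symm)
    have Wg : ∀ (σ : Gal(AlgebraicClosure K/K)) y, σ (W (D.sys.fib x l y) ^ d ^ m) =
        W (D.sys.fib x l (σ • y)) ^ d ^ m := fun σ y => by
      rw [← Sys.image_fib (S := D.sys) σ]
      simp only [W, map_pow, map_prod, ← prod_pow]
      rw [prod_image fun _ _ _ _ h => MulAction.injective σ h]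
      refine prod_congr rfl fun z hz => ?_
      rw [← image_erase (MulAction.injective σ), prod_image fun _ _ _ _ h => MulAction.injective σ h]
      refine prod_congr rfl fun z' hz' => ?_
      obtain ⟨ζ, a1, a2⟩ := gl σ z (lv hz)
      obtain ⟨ζ', b1, b2⟩ := gl σ z' (lv (mem_of_mem_erase hz'))
      rw [a2, b2, dt_smul ζ ζ', mul_pow, mul_pow, a1, b1, one_mul, one_mul, dt_map]
    set Δ := ∏ y ∈ D.sys.orb (D.sys.f^[l] x),
      (algebraMap K (AlgebraicClosure K) δ ^ 2 * W (D.sys.fib x l y)) ^ d ^ m with hΔ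
    have z1 : Sz c B0 ((e1 * ν + ν) * (n + 1) * 2 * d ^ m * (D.sys.orb (D.sys.f^[l] x)).card) Δ :=
      Sz.prod _ _ fun y hy => Sz.pow (by
        obtain ⟨u, ε, a1, a2, a3⟩ := prod_off (D.sys.fib x l y) lt ((Sys.card_fib hy).trans hl)
        have a4 := (Sz.det (c := c) B1 (ν := ν) (M := n + 1) (E := e1 * ν)
          ((show ((n + 1 : ℕ) : ℝ) ≤ (d : ℝ) ^ ν by exact_mod_cast hM).trans
            (pow_le_pow_left₀ (Nat.cast_nonneg _) hB0 ν))
          (Matrix.of fun i j => ((s j).map fun a => (ev F G)^[a.1] (lt (u i)) a.2).prod)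
          fun i j => (sz_list _ (s j) fun a ha => sz (m - a.1) _ (by
            rw [← Function.iterate_add_apply, Nat.sub_add_cancel (((s1 j).2 a ha).le.trans hm)]
            exact cf1 _ (lv (a1 i))) a.2).mono B1 (s1 j).1).pow 2
        rw [s2 _ fun i => lt (u i)] at a4
        have a5 : Sz c B0 0 ε := by
          rcases a2 with rfl | rfl
          exacts [Sz.one, Sz.neg_one]
        have a6 := a5.mul a4
        rw [zero_add] at a6
        refine (congrArg (Sz c B0 _) ?_).mp a6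
        simp only [W]
        rw [a3]
        ring) _
    obtain ⟨δ', hδ⟩ : Δ ∈ Set.range (algebraMap K (AlgebraicClosure K)) := by
      rw [InfiniteGalois.mem_range_algebraMap_iff_fixed]
      intro σ
      rw [hΔ, map_prod]
      conv_rhs => rw [← Sys.image_orb (S := D.sys) σ,
        prod_image fun _ _ _ _ h => MulAction.injective σ h]
      refine prod_congr rfl fun y _ => ?_
      rw [mul_pow, mul_pow, map_mul, Wg, map_pow, map_pow, AlgEquiv.commutes]
    have el := fun y => en_log (D.sys.fib x l y) (fun z => τ ∘ lt z) fun a ha b hb hab => by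
      rw [dt_map]; exact (_root_.map_ne_zero τ).mpr (dn (lv ha) (lv hb) hab)
    have eW : ∀ y, τ (W (D.sys.fib x l y)) ≠ 0 ∧
        en (D.sys.fib x l y) (fun z => τ ∘ lt z) = Real.log ‖τ (W (D.sys.fib x l y))‖ := fun y => by
      simp only [W, map_prod, ← dt_map]
      exact el y
    have eΔ : τ Δ = ∏ y ∈ D.sys.orb (D.sys.f^[l] x),
        (algebraMap K (PadicAlgCl p) δ ^ 2 * τ (W (D.sys.fib x l y))) ^ d ^ m := by
      simp only [hΔ, map_prod (g := τ), map_pow, map_mul, AlgHom.commutes]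
    have nz : ∀ y, ‖(algebraMap K (PadicAlgCl p) δ ^ 2 * τ (W (D.sys.fib x l y))) ^ d ^ m‖ ≠ 0 :=
      fun y => norm_ne_zero_iff.mpr (pow_ne_zero _ (mul_ne_zero
        (pow_ne_zero _ (norm_ne_zero_iff.mp δ1)) (eW y).1))
    have e2 : algebraMap K (PadicAlgCl p) δ' = τ Δ := by rw [← hδ, AlgHom.commutes]
    have := liou (algebraMap K (PadicAlgCl p)) c0 (one_pos.trans_le B1) (δ := δ') (by
      rintro rfl
      rw [map_zero, eΔ] at e2
      exact prod_ne_zero_iff.mpr (fun y _ => norm_ne_zero_iff.mp (nz y)) e2.symm) (hδ.symm ▸ z1)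
    rw [e2, eΔ, norm_prod, Real.log_prod fun y _ => nz y, sum_congr rfl (g := fun y =>
      (d : ℝ) ^ m * (2 * Real.log ‖algebraMap K (PadicAlgCl p) δ‖ +
        en (D.sys.fib x l y) fun z => τ ∘ lt z)) fun y _ => by
        rw [norm_pow, Real.log_pow, norm_mul, norm_pow, Real.log_mul (pow_ne_zero _ δ1)
          (norm_ne_zero_iff.mpr (eW y).1), Real.log_pow, (eW y).2]
        push_cast; rfl, ← mul_sum, sum_add_distrib, sum_const, nsmul_eq_mul] at this
    have dp : (0 : ℝ) < (d : ℝ) ^ m := by positivity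
    refine le_of_mul_le_mul_left ?_ dp
    have O0 : (0 : ℝ) ≤ (D.sys.orb (D.sys.f^[l] x)).card := Nat.cast_nonneg _
    push_cast at this n0 ⊢
    generalize ((D.sys.orb (D.sys.f^[l] x)).card : ℝ) = O at *
    have t1 : 0 ≤ (d : ℝ) ^ m * O * (n + 1) * (Module.finrank ℚ K *
      (2 * (e1 + 1) * Real.log (c * B0)) + 2 * e1 * Real.log (max B 1) * (ν + 1)) := by positivity
    nlinarith
  · obtain ⟨u, ε, a1, a2, a3⟩ := prod_off X v hX
    obtain ⟨b1, b2⟩ := en_log X v hne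
    have a4 := det_le (Matrix.of fun i j => ((s j).map fun a => (ev F G)^[a.1] (v (u i)) a.2).prod)
      (B := max B 1 ^ (e1 * ν)) (by positivity) fun i j =>
        (nm_list (B := max B 1) (by positivity) _ (s j) fun a ha => (norm_le_pi_norm _ _).trans
          ((hv _ (a1 i) _ ((s1 j).2 a ha)).trans (le_max_left _ _))).trans
          (pow_le_pow_right₀ (le_max_right _ _) (s1 j).1)
    rw [s2 _ fun i => v (u i), norm_mul] at a4
    rw [a3] at b1 b2
    have b3 : ‖∏ i, ∏ j ∈ Ioi i, dt (v (u i)) (v (u j))‖ ≠ 0 :=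
      norm_ne_zero_iff.mpr fun h => b1 (by rw [h]; simp)
    have b4 : ‖ε‖ = 1 := by rcases a2 with rfl | rfl <;> simp
    have a5 := Real.log_le_log (by positivity) a4
    rw [Real.log_mul δ1 b3, Real.log_pow, Real.log_pow] at a5
    rw [b2, norm_mul, b4, one_mul, norm_pow, Real.log_pow]
    push_cast at a5 n0 ⊢
    have t1 : 0 ≤ (n + 1 : ℝ) * (Module.finrank ℚ K * (2 * (e1 + 1) * Real.log (c * B0)) * (ν + 1) +
      2 * e1 * Real.log (max B 1)) := by positivity
    nlinarith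

end Pool.Agent.Lib.MP_a2c890_nt.R
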