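import Pool.Agent.Lib.MP_a2c890_nt.R.Pts

set_option autoImplicit false
set_option linter.unusedSectionVars false

namespace Pool.Agent.Lib.MP_a2c890_nt.R

open Finset T MvPolynomial

variable {K : Type} [Field K] [NumberField K] {d : ℕ} {F G : MvPolynomial (Fin 2) K}
  {β : Fin 2 → K}

theorem ev_base {L A : Type} [Field L] [Algebra K L] [CommRing A] [Algebra K A] [Algebra L A]
    [IsScalarTower K L A] (v : Fin 2 → A) :
    ev (map (algebraMap K L) F) (map (algebraMap K L) G) v = ev F G v := by
  simp only [ev, aeval_map_algebraMap]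

/-- no deep preimage is rational over a given finite extension -/
theorem Glb.north_ext (D : Glb K d F G β) (hw : ∀ P, 0 < P → dt ((ev F G)^[P] β) β ≠ 0)
    (L : IntermediateField K (AlgebraicClosure K)) [FiniteDimensional K L] :
    ∃ m0, ∀ m, m0 ≤ m → ∀ x, D.sys.lev m x → ∃ i, lf x i ∉ L := by
  have : NumberField L := NumberField.of_module_finite K L
  have e1 : ∀ {A : Type} [CommRing A] [Algebra K A] [Algebra L A] [IsScalarTower K L A],
      (ev (map (algebraMap K L) F) (map (algebraMap K L) G) : (Fin 2 → A) → Fin 2 → A) =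
        ev F G := funext ev_base
  let τ : AlgebraicClosure L →ₐ[K] AlgebraicClosure K :=
    (IsAlgClosed.lift : AlgebraicClosure L →ₐ[L] AlgebraicClosure K).restrictScalars K
  obtain ⟨N1, h⟩ := Pool.Agent.Lib.MP_a2c890_nt.north (K := L) D.d2 (D.hF.map (algebraMap K L))
    (D.hG.map (algebraMap K L)) (fun v a1 a2 => by
      by_contra hv
      refine ev_ne D.nz τ 1 hv ?_
      rw [aeval_map_algebraMap] at a1 a2
      ext i; fin_cases i
      · exact a1
      · exact a2) (b := algebraMap K L ∘ β)
    (fun a => D.β0 (funext fun i => (map_eq_zero _).mp (congrFun a i))) fun P hP a => by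
      have := ev_iter_map (F := F) (G := G) (Algebra.ofId K L) P β
      rw [show ⇑(Algebra.ofId K L) = algebraMap K L from rfl] at this
      rw [e1, ← this, dt_map, map_eq_zero] at a
      exact hw P hP a
  refine ⟨N1, fun m hm x hx => ?_⟩
  by_contra hc
  push Not at hc
  let w : Fin 2 → L := fun i => ⟨lf x i, hc i⟩
  have e2 : L.val ∘ w = lf x := rfl
  refine h m hm w (fun a => lf_ne x (by rw [← e2, a]; ext i; simp)) ?_
  have := D.lev_iff.mp hx
  rw [← e2, ← ev_iter_map, show algebraMap K (AlgebraicClosure K) ∘ β =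
    L.val ∘ (algebraMap K L ∘ β) from rfl, dt_map, map_eq_zero] at this
  rwa [e1]

/-- degrees of preimages of a non periodic point tend to infinity -/
theorem Glb.deg_large (D : Glb K d F G β) (hw : ∀ P, 0 < P → dt ((ev F G)^[P] β) β ≠ 0) (n : ℕ) :
    ∃ m0, ∀ m, m0 ≤ m → ∀ x, D.sys.lev m x → n < (D.sys.orb x).card := by
  classical
  induction n with
  | zero => exact ⟨0, fun m _ x _ => Sys.orb_pos x⟩
  | succ n ih =>
    obtain ⟨m0, h0⟩ := ih
    have fd : ∀ y : D.sys.Ω, FiniteDimensional K
        (IntermediateField.adjoin K ({lf y 0, lf y 1} : Set (AlgebraicClosure K))) := fun y =>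
      IntermediateField.finiteDimensional_adjoin fun x _ => Algebra.IsIntegral.isIntegral x
    choose N hN using fun y : D.sys.Ω => D.north_ext hw
      (IntermediateField.adjoin K ({lf y 0, lf y 1} : Set (AlgebraicClosure K)))
    refine ⟨max m0 ((Sys.pre_fin m0 D.sys.b).toFinset.sup N), fun m hm x hx => ?_⟩
    have a1 : m0 ≤ m := le_of_max_le_left hm
    have a2 := Sys.lev_iter hx (Nat.sub_le m m0)
    rw [Nat.sub_sub_self a1] at a2
    have a3 := h0 m0 le_rfl _ a2
    obtain ⟨i, hi⟩ := hN (D.sys.f^[m - m0] x) m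
      ((le_sup (f := N) ((Sys.pre_fin m0 D.sys.b).mem_toFinset.mpr a2)).trans
        (le_of_max_le_right hm)) x hx
    rw [← InfiniteGalois.fixedField_fixingSubgroup (IntermediateField.adjoin K _),
      IntermediateField.mem_fixedField_iff] at hi
    push Not at hi
    obtain ⟨σ, b1, b2⟩ := hi
    rw [IntermediateField.mem_fixingSubgroup_iff] at b1
    have b3 : σ • D.sys.f^[m - m0] x = D.sys.f^[m - m0] x := dt_lf.mp (by
      rw [lf_smul, show σ ∘ lf (D.sys.f^[m - m0] x) = lf (D.sys.f^[m - m0] x) from funext fun j =>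
        b1 _ (IntermediateField.subset_adjoin _ _ (by fin_cases j <;> simp)), dt_self])
    have b4 : 1 < D.sys.rel x (m - m0) := one_lt_card.mpr ⟨σ • x,
      Sys.mem_fib.mpr ⟨Sys.gal_orb (S := D.sys) σ (Sys.self_orb x),
        (Sys.gal_f (S := D.sys) σ _ x).trans b3⟩, x, Sys.mem_fib.mpr ⟨Sys.self_orb x, rfl⟩,
      fun e => b2 (by
        have := congrFun (lf_smul σ x) i
        rw [e] at this
        exact this.symm)⟩
    rw [Sys.card_orb x (m - m0)]
    nlinarith

end Pool.Agent.Lib.MP_a2c890_nt.R
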