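import Pool.Agent.Lib.MP_a2c890_nt.R.Orb

set_option autoImplicit false
set_option linter.unusedSectionVars false
set_option linter.dupNamespace false

namespace Pool.Agent.Lib.MP_a2c890_nt.R

open Finset T

/-! Probabilistic interface -/

/-- relative upper bound for the frequency of an event -/
def Sys.Up {d : ℕ} (S : Sys d) (C lam : ℝ) (u0 : ℕ) (E : S.Ω → Prop) (μ : ℝ) : Prop :=
  ∀ (m l : ℕ) (x : S.Ω) (w : S.Ω → ℝ), S.lev m x → l ≤ m → u0 ≤ S.lr x l →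
    (∀ y, 0 ≤ w y ∧ w y ≤ 1) → S.av x (fun z => ind (E z) * w (S.f^[l] z)) ≤
      μ * S.av (S.f^[l] x) w + C * lam ^ S.lr x l * √(S.av (S.f^[l] x) w)

/-- relative lower bound for the frequency of an event -/
def Sys.Lo {d : ℕ} (S : Sys d) (C lam : ℝ) (u0 : ℕ) (E : S.Ω → Prop) (μ : ℝ) : Prop :=
  ∀ (m l : ℕ) (x : S.Ω) (w : S.Ω → ℝ), S.lev m x → l ≤ m → u0 ≤ S.lr x l →
    (∀ y, 0 ≤ w y ∧ w y ≤ 1) →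
      μ * S.av (S.f^[l] x) w - C * lam ^ S.lr x l * √(S.av (S.f^[l] x) w) ≤
        S.av x (fun z => ind (E z) * w (S.f^[l] z))

/-- the data attached to one local Galois element -/
structure Win {d : ℕ} (S : Sys d) (c : ℕ) (C lam υ : ℝ) (n0 k : ℕ) (a b : ℝ)
    (A Bad Fx : S.Ω → Prop) : Prop where
  k1 : 1 ≤ k
  alo : (1 / 2 : ℝ) ^ k ≤ a
  ab : a ≤ b
  B1 : S.Up C lam 0 Bad b
  B2 : S.Up C lam (c * k) Bad (2 * a)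
  A1 : S.Lo C lam (c * k) A (υ * a)
  AB : ∀ j, 0 < j → S.Up C lam (c * (j + k)) (fun z => A z ∧ Bad (S.f^[j] z)) (2 * a ^ 2)
  sub : ∀ z, A z → Bad z
  F0 : ∀ z, S.lev n0 z → Fx z
  F1 : ∀ z, Fx (S.f z) → S.rel z 1 = 1 → Fx z
  F2 : ∀ z, Fx (S.f z) → ¬ Bad z → Fx z
  F3 : ∀ z, Fx z → ¬ A z
  F4 : ∀ z, Fx z → Fx (S.f z)

/-- for every large `U` there is a local Galois element in the window -/
def HasWin {d : ℕ} (S : Sys d) (c : ℕ) (C lam υ : ℝ) (n0 : ℕ) : Prop :=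
  ∀ η : ℝ, 0 < η → ∃ U0 : ℕ, ∀ U : ℕ, U0 ≤ U → ∃ (k : ℕ) (a b : ℝ) (A Bad Fx : S.Ω → Prop),
    Win S c C lam υ n0 k a b A Bad Fx ∧ b ^ 2 * U ≤ η ∧ b * k ≤ η ∧ (k : ℝ) ≤ η * U

open Classical in
/-- number of growth levels in an interval -/
noncomputable def Sys.gr {d : ℕ} (S : Sys d) (x : S.Ω) (l l' : ℕ) : ℕ :=
  ((Ico l l').filter fun i => S.rel (S.f^[i] x) 1 ≠ 1).card

/-- frequency of an event at a lower level -/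
noncomputable def Sys.ph {d : ℕ} (S : Sys d) (Fx : S.Ω → Prop) (x : S.Ω) (l : ℕ) : ℝ :=
  S.av (S.f^[l] x) fun z => ind (Fx z)

/-! The tree of cells -/

/-- cells, the root (hole) cell and the backward steps -/
structure Sym (d : ℕ) where
  V : Type
  root : V
  kid : V → Fin d → V
  par : V → V
  dep : V → ℕ
  Sp : V → Prop
  rk : V → ℕ
  Q : ℕ
  hd : d = 2 ∨ d = 3
  inj : ∀ w, Function.Injective (kid w)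
  dep0 : dep root = 0
  kidp : ∀ w i, kid w i ≠ root → par (kid w i) = w ∧ dep (kid w i) = dep w + 1
  ex : ∀ v, v ≠ root → ∃ i, kid (par v) i = v
  nsp : ∀ w, ¬ Sp w → ∃ i, kid w i = root
  sp : ∀ w, Sp w → d = 2 ∧ ∀ i, kid w i ≠ root ∧ ¬ Sp (kid w i)
  sp0 : ¬ Sp root
  rkQ : ∀ w, rk w ≤ Q
  rklt : d = 2 → ∀ w i, ¬ Sp w → kid w i ≠ root → rk (kid w i) < rk w

/-- rate of the tail of the depth -/
noncomputable def th (d : ℕ) : ℝ := if d = 2 then 3 / 4 else 2 / 3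

namespace Sym

variable {d : ℕ} (Y : Sym d)

/-- average over the kids -/
noncomputable def T (h : Y.V → ℝ) (w : Y.V) : ℝ := (∑ i, h (Y.kid w i)) / d

/-- model mass of an event that looks at the steps `0`, `j` and `j + 1` -/
noncomputable def mass (n j k : ℕ) (Rl : Y.V → Y.V → Prop) : ℝ :=
  Y.T^[n - (j + 1)] (fun w => ind (Y.dep w ≤ k) *
    Y.T (fun v => Y.T^[j] (fun v0 => ind (Rl v0 v)) v) w) Y.root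

open Classical in
/-- number of branchings -/
noncomputable def br (v : Y.V) : ℕ :=
  if d = 2 then (Y.dep v + if Y.Sp v then 0 else 1) / 2 else Y.dep v

/-- the event read on an orbit -/
def Ev {X : Type} (f : X → X) (In : Y.V → X → Prop) (j k : ℕ) (Rl : Y.V → Y.V → Prop) (x : X) :
    Prop :=
  ∃ v : ℕ → Y.V, (∀ i, i ≤ j + 1 → In (v i) (f^[i] x)) ∧ Y.dep (v (j + 1)) ≤ k ∧ Rl (v 0) (v j)

end Sym

/-- one sided equidistribution -/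
def EQ {d : ℕ} (S : Sys d) (Y : Sym d) (In : Y.V → S.Ω → Prop) (c : ℕ) (C lam : ℝ) : Prop :=
  ∀ (j k : ℕ) (Rl : Y.V → Y.V → Prop) (μ : ℝ), (∀ n, j + k + 2 ≤ n → μ ≤ Y.mass n j k Rl) →
    S.Lo C lam (c * (j + k + 2)) (Y.Ev S.f In j k Rl) μ

/-- points and cells fixed by one local Galois element -/
structure GD {d : ℕ} (S : Sys d) (Y : Sym d) (In : Y.V → S.Ω → Prop) (n0 : ℕ)
    (Fx : S.Ω → Prop) (Fix : Y.V → Prop) : Prop where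
  root : Fix Y.root
  par : ∀ v, v ≠ Y.root → Fix v → Fix (Y.par v)
  f0 : ∀ z, S.lev n0 z → Fx z
  f1 : ∀ z, Fx (S.f z) → S.rel z 1 = 1 → Fx z
  f4 : ∀ z, Fx z → Fx (S.f z)
  cell : ∀ z v, Fx z → In v z → Fix v
  kid : ∀ z v w, Fx (S.f z) → In v z → In w (S.f z) → Fix v → Fx z

/-- for large `U` a property of sets of fixed cells is met with first unfixed depth in the window -/
def Sym.Wd {d : ℕ} (Y : Sym d) (P : (Y.V → Prop) → Prop) : Prop :=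
  ∀ η : ℝ, 0 < η → ∃ U0 : ℕ, ∀ U : ℕ, U0 ≤ U → ∃ (Fix : Y.V → Prop) (ks : ℕ), P Fix ∧
    (∀ v, ¬ Fix v → ks ≤ Y.dep v) ∧ (∃ v, ¬ Fix v ∧ Y.dep v = ks) ∧
    th d ^ (2 * ks) * U ≤ η ∧ (ks : ℝ) ≤ η * U

/-! The local side -/

/-- plane vectors over the algebraic closure of `ℚ_p` -/
abbrev Vc (p : ℕ) [Fact p.Prime] : Type := Fin 2 → PadicAlgCl p

/-- the local absolute Galois group -/
abbrev Gl (p : ℕ) [Fact p.Prime] : Type := PadicAlgCl p ≃ₐ[ℚ_[p]] PadicAlgCl p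

variable {p : ℕ} [Fact p.Prime]

/-- chordal distance -/
noncomputable def dl (v w : Vc p) : ℝ := ‖dt v w‖ / (‖v‖ * ‖w‖)

/-- loss of norm -/
noncomputable def rho (d : ℕ) (Ψ : Vc p → Vc p) (v : Vc p) : ℝ := ‖Ψ v‖ / ‖v‖ ^ d

open Classical in
/-- discrete energy of a family of vectors -/
noncomputable def en {α : Type} (X : Finset α) (v : α → Vc p) : ℝ :=
  ∑ a ∈ X, ∑ b ∈ X.erase a, Real.log ‖dt (v a) (v b)‖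

/-- an integral homogeneous map without nontrivial zero -/
structure Frm (d : ℕ) (Ψ : Vc p → Vc p) (ρ0 : ℝ) : Prop where
  d2 : 2 ≤ d
  hom : ∀ (c : PadicAlgCl p) v, Ψ (c • v) = c ^ d • Ψ v
  lip : ∀ v w, ‖v‖ ≤ 1 → ‖w‖ ≤ 1 → ‖Ψ v‖ ≤ 1 ∧ ‖Ψ v - Ψ w‖ ≤ ‖v - w‖
  pos : 0 < ρ0
  low : ∀ v, ρ0 * ‖v‖ ^ d ≤ ‖Ψ v‖

/-- what an instance has to supply -/
structure Loc (d : ℕ) (Ψ : Vc p → Vc p) where
  c0 : Vc p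
  r : ℝ
  R : ℝ
  N : Vc p → Prop
  Sp : Vc p → Prop
  π : Vc p → ℝ
  rk : Vc p → ℕ
  Q : ℕ
  chart : ℕ → PadicAlgCl p → Vc p
  E : Finset (PadicAlgCl p)
  hd : d = 2 ∨ d = 3
  r0 : 0 < r
  rR : r < R
  R1 : R ≤ 1
  ne : ∀ y, N y → y ≠ 0
  n0 : N c0
  sp0 : ¬ Sp c0
  inv : ∀ y y', N y → y' ≠ 0 → dl y y' < R →
    N y' ∧ π y' = π y ∧ (Sp y' ↔ Sp y) ∧ rk y' = rk y
  piR : ∀ y, N y → R ≤ π y ^ (d - 1)
  rkQ : ∀ y, N y → rk y ≤ Q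
  kids : ∀ y, N y → ∃ x : Fin d → Vc p, (∀ i, N (x i)) ∧
    (∀ i j, i ≠ j → dl (x i) (x j) = π y) ∧
    (∀ v, ‖dt (Ψ v) y‖ * ∏ i, ‖x i‖ = ‖y‖ * ∏ i, ‖dt v (x i)‖) ∧
    (∀ i, (dl (x i) c0 ≤ r ∧ rho d Ψ (x i) ≤ π y ^ (d - 1)) ∨
      (R ≤ dl (x i) c0 ∧ rho d Ψ (x i) = π y ^ (d - 1) ∧ (d = 2 → ¬ Sp y → rk (x i) < rk y))) ∧
    (Sp y → d = 2 ∧ ∀ i, ¬ Sp (x i) ∧ R ≤ dl (x i) c0) ∧ (¬ Sp y → ∃ i, dl (x i) c0 ≤ r)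
  chd : ∀ i z z', ‖z‖ ≤ 1 → ‖z'‖ ≤ 1 →
    chart i z ≠ 0 ∧ dl (chart i z) (chart i z') = R * ‖z - z'‖
  cov : ∀ y, N y → ∃ i, i ≤ Q ∧ ∃ z, ‖z‖ ≤ 1 ∧ dt y (chart i z) = 0
  gΨ : ∀ σ : Gl p, (∀ e ∈ E, σ e = e) → ∀ v, Ψ (σ ∘ v) = σ ∘ Ψ v
  gc : ∀ σ : Gl p, (∀ e ∈ E, σ e = e) → σ ∘ c0 = c0
  gch : ∀ σ : Gl p, (∀ e ∈ E, σ e = e) → ∀ i z, σ ∘ chart i z = chart i (σ z)

/-- the tree of cells realised by discs -/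
structure Hyp (d : ℕ) (Ψ : Vc p → Vc p) (ρ0 : ℝ) where
  Y : Sym d
  ctr : Y.V → Vc p
  lam : Vc p → ℝ
  r : ℝ
  R : ℝ
  chart : ℕ → PadicAlgCl p → Vc p
  E : Finset (PadicAlgCl p)
  r0 : 0 < r
  rR : r < R
  R1 : R ≤ 1
  ne : ∀ v, ctr v ≠ 0
  sep : ∀ v v', v ≠ v' → R ≤ dl (ctr v) (ctr v')
  kids : ∀ w y, y ≠ 0 → dl y (ctr w) < R → ∃ x : Fin d → Vc p,
    (∀ i, Ψ (x i) = y ∧ dl (x i) (ctr (Y.kid w i)) < R ∧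
      (dl y (ctr w) ≤ r → dl (x i) (ctr (Y.kid w i)) ≤ r)) ∧
    ∀ v, ‖dt (Ψ v) y‖ * ∏ i, ‖x i‖ = ‖y‖ * ∏ i, ‖dt v (x i)‖
  lam1 : ∀ v w x, x ≠ 0 → dl x (ctr v) < R → dl (Ψ x) (ctr w) < R → 1 ≤ lam x ∧ lam x * ρ0 ≤ 1
  conf : ∀ v w x x', x ≠ 0 → dl x (ctr v) < R → dl (Ψ x) (ctr w) < R → x' ≠ 0 →
    lam x * dl x' x < R → dl (Ψ x') (Ψ x) = lam x * dl x' x
  exp : ∀ v w x x', x ≠ 0 → dl x (ctr v) < R → dl (Ψ x) (ctr w) < R → x' ≠ 0 →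
    dl x' (ctr v) < R → dl (Ψ x') (ctr w) < R → dl (Ψ x') (Ψ x) = lam x * dl x' x
  fwd : ∀ v x, v ≠ Y.root → x ≠ 0 → dl x (ctr v) < R → dl (Ψ x) (ctr (Y.par v)) < R
  chd : ∀ i z z', ‖z‖ ≤ 1 → ‖z'‖ ≤ 1 →
    chart i z ≠ 0 ∧ dl (chart i z) (chart i z') = R * ‖z - z'‖
  cov : ∀ v, ∃ i, i ≤ Y.Q ∧ ∃ z, ‖z‖ ≤ 1 ∧ dt (ctr v) (chart i z) = 0
  gΨ : ∀ σ : Gl p, (∀ e ∈ E, σ e = e) → ∀ v, Ψ (σ ∘ v) = σ ∘ Ψ v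
  gc : ∀ σ : Gl p, (∀ e ∈ E, σ e = e) → σ ∘ ctr Y.root = ctr Y.root
  gch : ∀ σ : Gl p, (∀ e ∈ E, σ e = e) → ∀ i z, σ ∘ chart i z = chart i (σ z)

/-- membership in a cell -/
def Hyp.In {d : ℕ} {Ψ : Vc p → Vc p} {ρ0 : ℝ} (H : Hyp d Ψ ρ0) (v : H.Y.V) (x : Vc p) : Prop :=
  x ≠ 0 ∧ dl x (H.ctr v) < H.R

/-- the global energy bounds read at the place -/
def GLoc {d : ℕ} (S : Sys d) (Ψ : Vc p → Vc p) (pos : S.Ω → Vc p) : Prop :=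
  ∃ b0 : Vc p, b0 ≠ 0 ∧ ∀ B : ℝ, ∃ C : ℝ, 0 ≤ C ∧ ∀ ν M : ℕ, 0 < M → M ≤ d ^ ν → ∃ e : ℝ,
    (∀ (m l : ℕ) (x : S.Ω), S.lev m x → ν ≤ m → S.rel x l = M → ∃ lift : S.Ω → Vc p,
      (∀ z ∈ S.orb x, dt (lift z) (pos z) = 0 ∧ Ψ^[m] (lift z) = b0) ∧
      (S.orb (S.f^[l] x)).card * (e - C * M * (ν + 1)) ≤
        ∑ y ∈ S.orb (S.f^[l] x), en (S.fib x l y) lift) ∧
    ∀ (α : Type) (X : Finset α) (v : α → Vc p), X.card = M →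
      (∀ a ∈ X, ∀ j, j < ν → ‖Ψ^[j] (v a)‖ ≤ B) →
      (∀ a ∈ X, ∀ b ∈ X, a ≠ b → dt (v a) (v b) ≠ 0) → en X v ≤ e + C * M * (ν + 1)

/-- link between the global system and the local map -/
structure Lnk {d : ℕ} (S : Sys d) (Ψ : Vc p → Vc p) (pos : S.Ω → Vc p) : Prop where
  ne : ∀ x, pos x ≠ 0
  inj : ∀ x y, dt (pos x) (pos y) = 0 → x = y
  conj : ∀ x, dt (Ψ (pos x)) (pos (S.f x)) = 0
  gal : ∃ E : Finset (PadicAlgCl p), ∀ σ : Gl p, (∀ e ∈ E, σ e = e) →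
    ∀ z, ∃ z' ∈ S.orb z, dt (σ ∘ pos z) (pos z') = 0
  gl : GLoc S Ψ pos

/-- a full fibre of level `n` over the root centre -/
structure Mod {d : ℕ} {Ψ : Vc p → Vc p} {ρ0 : ℝ} (H : Hyp d Ψ ρ0) (n : ℕ)
    (I : Finset (List (Fin d))) (z : List (Fin d) → Vc p) (γ : ℝ) : Prop where
  card : I.card = d ^ n
  lift : ∀ l ∈ I, Ψ^[n] (z l) = H.ctr H.Y.root
  prod : ∀ v, ∏ l ∈ I, ‖dt v (z l)‖ = Real.exp γ * ‖dt (Ψ^[n] v) (H.ctr H.Y.root)‖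
  sep : ∀ l ∈ I, ∀ l' ∈ I, l ≠ l' → H.R * ρ0 ^ n ≤ dl (z l) (z l')
  exp : ∀ l ∈ I, ∀ v, v ≠ 0 → dl v (z l) < H.R * ρ0 ^ n →
    dl v (z l) ≤ dl (Ψ^[n] v) (H.ctr H.Y.root)
  disc : ∀ (j k : ℕ) (Rl : H.Y.V → H.Y.V → Prop), j + 1 ≤ n →
    ∃ (J : Finset (H.Y.V × List (Fin d))) (c : H.Y.V × List (Fin d) → Vc p)
      (ε : H.Y.V × List (Fin d) → ℝ), J.card ≤ d ^ (j + k + 2) ∧
      (∀ i ∈ J, c i ≠ 0 ∧ ρ0 ^ (j + 1) ≤ ε i) ∧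
      (∀ i ∈ J, ∀ i' ∈ J, i ≠ i' → ∀ x, x ≠ 0 → dl x (c i) < H.R * ε i →
        ¬ dl x (c i') < H.R * ε i') ∧
      (∀ i ∈ J, ∀ x, x ≠ 0 → dl x (c i) < H.R * ε i → H.Y.Ev Ψ H.In j k Rl x) ∧
      (d : ℝ) ^ n * H.Y.mass n j k Rl ≤ ∑ l ∈ I, ind (∃ i ∈ J, dl (z l) (c i) ≤ H.r * ε i)

end Pool.Agent.Lib.MP_a2c890_nt.R
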