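import Pool.Agent.Lib.MP_a2c890_nt.R.Defs

set_option autoImplicit false
set_option linter.unusedSectionVars false

namespace Pool.Agent.Lib.MP_a2c890_nt.R

open Finset T MvPolynomial

/-- a vector representing a point of the projective line -/
def lf {A : Type} [Field A] : Option A → Fin 2 → A
  | none => ![1, 0]
  | some z => ![z, 1]

open Classical in
/-- the point of the projective line represented by a vector -/
noncomputable def pr {A : Type} [Field A] (v : Fin 2 → A) : Option A :=
  if v 1 = 0 then none else some (v 0 / v 1)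

section

variable {A : Type} [Field A]

theorem lf_ne (x : Option A) : lf x ≠ 0 := fun h => by
  rcases x with _ | z
  · simpa [lf] using congrFun h 0
  · simpa [lf] using congrFun h 1

theorem dt_lf {x y : Option A} : dt (lf x) (lf y) = 0 ↔ x = y := by
  rcases x with _ | z <;> rcases y with _ | w <;> simp [lf, dt, sub_eq_zero]

theorem dt_pr (v : Fin 2 → A) : dt (lf (pr v)) v = 0 := by
  unfold pr
  split_ifs with h
  · simp [lf, dt, h]
  · simp [lf, dt, h]

theorem pr_eq {v : Fin 2 → A} (hv : v ≠ 0) {x : Option A} : pr v = x ↔ dt (lf x) v = 0 :=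
  ⟨fun h => h ▸ dt_pr v, fun h => dt_lf.mp (dt_trans hv (dt_pr v) h)⟩

theorem fac_aux [IsAlgClosed A] (d : ℕ) : ∀ h : Polynomial A, h ≠ 0 → h.natDegree ≤ d →
    ∃ (c : A) (x : Fin d → Fin 2 → A), c ≠ 0 ∧ (∀ i, x i ≠ 0) ∧
      ∀ v, eval v (h.homogenize d) = c * ∏ i, dt v (x i) := by
  induction d with
  | zero =>
    intro h h0 hd
    obtain ⟨c, rfl⟩ := Polynomial.natDegree_eq_zero.mp (Nat.le_zero.mp hd)
    exact ⟨c, Fin.elim0, fun e => h0 (by rw [e, map_zero]), fun i => i.elim0, fun v => by simp⟩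
  | succ d ih =>
    intro h h0 hd
    rcases le_or_gt h.natDegree d with h1 | h1
    · obtain ⟨c, x, a1, a2, a3⟩ := ih h h0 h1
      refine ⟨c, Fin.cons ![-1, 0] x, a1, Fin.cases (fun e => by simpa using congrFun e 0) a2,
        fun v => ?_⟩
      have := Polynomial.homogenize_mul 1 h (m := 1) (by simp) h1
      rw [one_mul, add_comm] at this
      rw [this, map_mul, a3, Fin.prod_univ_succ]
      simp [dt]; ring
    · obtain ⟨z, hz⟩ := IsAlgClosed.exists_root h
        (Polynomial.natDegree_pos_iff_degree_pos.mp (by omega)).ne'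
      obtain ⟨h', rfl⟩ := Polynomial.dvd_iff_isRoot.mpr hz
      have h2 : h' ≠ 0 := right_ne_zero_of_mul h0
      rw [Polynomial.natDegree_mul (Polynomial.X_sub_C_ne_zero z) h2,
        Polynomial.natDegree_X_sub_C] at hd
      obtain ⟨c, x, a1, a2, a3⟩ := ih h' h2 (by omega)
      refine ⟨c, Fin.cons ![z, 1] x, a1, Fin.cases (fun e => by simpa using congrFun e 1) a2,
        fun v => ?_⟩
      have := Polynomial.homogenize_mul (Polynomial.X - Polynomial.C z) h' (m := 1) (n := d)
        (Polynomial.natDegree_X_sub_C z).le (by omega)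
      rw [add_comm] at this
      rw [this, map_mul, a3, Fin.prod_univ_succ]
      simp [dt, Polynomial.homogenize_X]; ring

/-- a binary form splits into linear factors -/
theorem fac [IsAlgClosed A] {H : MvPolynomial (Fin 2) A} {d : ℕ} (hH : H.IsHomogeneous d)
    (h0 : H ≠ 0) : ∃ (c : A) (x : Fin d → Fin 2 → A), c ≠ 0 ∧ (∀ i, x i ≠ 0) ∧
      ∀ v, eval v H = c * ∏ i, dt v (x i) := by
  have e := Polynomial.homogenize_eq_of_isHomogeneous hH rfl
  have := fac_aux d (aeval ![Polynomial.X, 1] H : Polynomial A)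
    (fun h => h0 (by rw [← e, h, Polynomial.homogenize_zero])) (dehom_deg hH)
  rwa [e] at this

end

/-- the global data -/
structure Glb (K : Type) [Field K] (d : ℕ) (F G : MvPolynomial (Fin 2) K) (β : Fin 2 → K) :
    Prop where
  d2 : 2 ≤ d
  hF : F.IsHomogeneous d
  hG : G.IsHomogeneous d
  nz : ∀ v : Fin 2 → AlgebraicClosure K, aeval v F = 0 → aeval v G = 0 → v = 0
  β0 : β ≠ 0

variable {K : Type} [Field K] [NumberField K] {d : ℕ} {F G : MvPolynomial (Fin 2) K}
  {β : Fin 2 → K}

theorem lf_smul (σ : Gal(AlgebraicClosure K/K)) (x : Option (AlgebraicClosure K)) :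
    lf (σ • x) = σ ∘ lf x := by
  rcases x with _ | z
  · ext i; fin_cases i <;> simp [lf]
  · ext i; fin_cases i <;> simp [lf]

theorem pr_smul (σ : Gal(AlgebraicClosure K/K)) (v : Fin 2 → AlgebraicClosure K) :
    pr (σ ∘ v) = σ • pr v := by
  unfold pr
  by_cases h : v 1 = 0 <;> simp [h]

theorem orb_fin (x : Option (AlgebraicClosure K)) :
    (MulAction.orbit Gal(AlgebraicClosure K/K) x).Finite := by
  rcases x with _ | z
  · exact (Set.finite_singleton none).subset fun y ⟨σ, h⟩ => h.symm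
  · exact ((T.orb z).finite_toSet.image some).subset fun y ⟨σ, h⟩ =>
      ⟨σ z, mem_coe.mpr (T.mem_orb.mpr ⟨σ, rfl⟩), h⟩

theorem Glb.ne (D : Glb K d F G β) (n : ℕ) {v : Fin 2 → AlgebraicClosure K} (hv : v ≠ 0) :
    (ev F G)^[n] v ≠ 0 := ev_ne D.nz (AlgHom.id K _) n hv

theorem Glb.β1 (D : Glb K d F G β) : algebraMap K (AlgebraicClosure K) ∘ β ≠ 0 := fun a =>
  D.β0 (funext fun i => (map_eq_zero _).mp (congrFun a i))

theorem Glb.fibre (D : Glb K d F G β) (y : Option (AlgebraicClosure K))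
    (Y : Finset (Option (AlgebraicClosure K))) (h : ∀ z ∈ Y, pr (ev F G (lf z)) = y) :
    Y.card ≤ d := by
  classical
  let H : MvPolynomial (Fin 2) (AlgebraicClosure K) :=
    C (lf y 1) * map (algebraMap K _) F - C (lf y 0) * map (algebraMap K _) G
  have hH : H.IsHomogeneous d := ((D.hF.map _).C_mul _).sub ((D.hG.map _).C_mul _)
  have eH : ∀ v, eval v H = dt (ev F G v) (lf y) := fun v => by
    simp only [H, map_sub, map_mul, eval_C, eval_map, dt, ev, aeval_def, Matrix.cons_val_zero,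
      Matrix.cons_val_one]
    ring
  have h0 : H ≠ 0 := fun e => by
    let H' : MvPolynomial (Fin 2) (AlgebraicClosure K) :=
      C (lf (if y = none then some 0 else none) 1) * map (algebraMap K _) F -
        C (lf (if y = none then some 0 else none) 0) * map (algebraMap K _) G
    have eH' : ∀ v, eval v H' = dt (ev F G v) (lf (if y = none then some 0 else none)) :=
      fun v => by
        simp only [H', map_sub, map_mul, eval_C, eval_map, dt, ev, aeval_def, Matrix.cons_val_zero,
          Matrix.cons_val_one]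
        ring
    obtain ⟨v, v0, hv⟩ : ∃ v, v ≠ 0 ∧ eval v H' = 0 := by
      rcases eq_or_ne H' 0 with e' | e'
      · exact ⟨lf y, lf_ne y, by rw [e', map_zero]⟩
      · obtain ⟨c, x, -, a2, a3⟩ := fac (d := d)
          (((D.hF.map _).C_mul _).sub ((D.hG.map _).C_mul _)) e'
        have := D.d2
        exact ⟨x ⟨0, by omega⟩, a2 _, by
          rw [a3, prod_eq_zero (mem_univ _) (dt_self _), mul_zero]⟩
    have a1 := eH v
    rw [e, map_zero, dt_swap, eq_comm, neg_eq_zero] at a1
    rw [eH', dt_swap, neg_eq_zero] at hv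
    have := dt_lf.mp (dt_trans (D.ne 1 v0) a1 hv)
    split_ifs at this with h1
    · rw [h1] at this; cases this
    · exact h1 this
  obtain ⟨c, x, a1, a2, a3⟩ := fac hH h0
  refine (card_le_card (t := univ.image fun i => pr (x i)) fun z hz => ?_).trans
    (card_image_le.trans_eq (by simp))
  have b1 := (pr_eq (D.ne 1 (lf_ne z))).mp (h z hz)
  rw [dt_swap, neg_eq_zero] at b1
  obtain ⟨i, -, hi⟩ := prod_eq_zero_iff.mp
    ((mul_eq_zero.mp ((a3 _).symm.trans ((eH _).trans b1))).resolve_left a1)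
  exact mem_image.mpr ⟨i, mem_univ _, (pr_eq (a2 i)).mpr hi⟩

/-- the global system -/
@[reducible] noncomputable def Glb.sys (D : Glb K d F G β) : Sys d where
  G := Gal(AlgebraicClosure K/K)
  Ω := Option (AlgebraicClosure K)
  f := fun x => pr (ev F G (lf x))
  b := pr (algebraMap K (AlgebraicClosure K) ∘ β)
  eqv := fun σ x => by
    rw [lf_smul, ← pr_smul]
    exact congrArg pr (ev_map (σ : AlgebraicClosure K →ₐ[K] AlgebraicClosure K) _).symm
  bfix := fun σ => by
    rw [← pr_smul]
    exact congrArg pr (funext fun i => σ.commutes (β i))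
  fin := orb_fin
  fibre := D.fibre

theorem Glb.dt_iter (D : Glb K d F G β) (n : ℕ) (x : Option (AlgebraicClosure K)) :
    dt (lf (D.sys.f^[n] x)) ((ev F G)^[n] (lf x)) = 0 := by
  induction n with
  | zero => exact dt_self _
  | succ n ih =>
    rw [Function.iterate_succ_apply', Function.iterate_succ_apply']
    obtain ⟨c, hc⟩ := exists_smul (D.ne n (lf_ne x)) ih
    have c0 : c ≠ 0 := left_ne_zero_of_smul (hc ▸ lf_ne _)
    have h1 := dt_pr (ev F G (lf (D.sys.f^[n] x)))
    have h2 := dt_smul 1 (c ^ d) (lf (D.sys.f (D.sys.f^[n] x))) (ev F G ((ev F G)^[n] (lf x)))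
    rw [one_smul, ← ev_smul D.hF D.hG, ← hc, one_mul] at h2
    exact (mul_eq_zero.mp (h2.symm.trans h1)).resolve_left (pow_ne_zero _ c0)

theorem Glb.lev_iff (D : Glb K d F G β) {n : ℕ} {x : Option (AlgebraicClosure K)} :
    D.sys.lev n x ↔ dt ((ev F G)^[n] (lf x)) (algebraMap K (AlgebraicClosure K) ∘ β) = 0 := by
  refine eq_comm.trans ((pr_eq D.β1).trans ⟨fun h => ?_, fun h => ?_⟩)
  · refine dt_trans (lf_ne (D.sys.f^[n] x)) ?_ ?_
    · rw [dt_swap, neg_eq_zero]; exact D.dt_iter n x
    · rw [dt_swap, neg_eq_zero]; exact h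
  · exact dt_trans (D.ne n (lf_ne x)) (D.dt_iter n x) (by rw [dt_swap, neg_eq_zero]; exact h)

/-- exact lifts -/
theorem Glb.ex_lift (D : Glb K d F G β) {n : ℕ} {x : Option (AlgebraicClosure K)}
    (h : D.sys.lev n x) : ∃ c : AlgebraicClosure K, c ≠ 0 ∧
      (ev F G)^[n] (c • lf x) = algebraMap K (AlgebraicClosure K) ∘ β := by
  obtain ⟨μ, hμ⟩ := exists_smul D.β1 (D.lev_iff.mp h)
  have μ0 : μ ≠ 0 := left_ne_zero_of_smul (hμ ▸ D.ne n (lf_ne x))
  have := D.d2
  obtain ⟨c, hc⟩ := IsAlgClosed.exists_pow_nat_eq μ⁻¹ (n := d ^ n) (by positivity)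
  refine ⟨c, fun e => ?_, by
    rw [ev_iter_smul D.hF D.hG, hc, hμ, smul_smul, inv_mul_cancel₀ μ0, one_smul]⟩
  rw [e, zero_pow (by positivity)] at hc
  exact inv_ne_zero μ0 hc.symm

end Pool.Agent.Lib.MP_a2c890_nt.R
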