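import Pool.Agent.Lib.MP_a2c890_nt.R.Chord
import Pool.Agent.Lib.MP_a2c890_nt.R.Pts

set_option autoImplicit false
set_option linter.unusedSectionVars false

namespace Pool.Agent.Lib.MP_a2c890_nt.R

open Finset T MvPolynomial

variable {p : ℕ} [Fact p.Prime]

/-- splitting with unit roots -/
theorem cub_fac {H : MvPolynomial (Fin 2) (PadicAlgCl p)} {d : ℕ} (hH : H.IsHomogeneous d)
    (h0 : H ≠ 0) : ∃ (c : PadicAlgCl p) (x : Fin d → Vc p), (∀ i, ‖x i‖ = 1) ∧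
      ∀ v, eval v H = c * ∏ i, dt v (x i) := by
  obtain ⟨c, x, -, a2, a3⟩ := fac hH h0
  choose s s0 s1 using fun i => ex_unit (a2 i)
  refine ⟨c / ∏ i, s i, fun i => s i • x i, s1, fun v => ?_⟩
  have e : ∀ i, dt v (s i • x i) = s i * dt v (x i) := fun i => by
    have := dt_smul 1 (s i) v (x i)
    rwa [one_smul, one_mul] at this
  simp only [e]
  rw [a3, prod_mul_distrib, ← mul_assoc, div_mul_cancel₀ _ (prod_ne_zero_iff.mpr fun i _ => s0 i)]

/-- the roots of a small perturbation of a product of separated linear forms -/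
theorem cub_mtch {d : ℕ} {b : Fin d → Vc p} (b1 : ∀ k, ‖b k‖ = 1)
    (bs : ∀ k l, k ≠ l → dl (b k) (b l) = 1) {H : MvPolynomial (Fin 2) (PadicAlgCl p)}
    (hH : H.IsHomogeneous d) {c' : PadicAlgCl p} (c1 : ‖c'‖ = 1) {θ : ℝ} (θ1 : θ < 1)
    (e : ∀ v : Vc p, ‖v‖ = 1 → ‖eval v H - c' * ∏ k, dt v (b k)‖ ≤ θ) :
    ∃ x : Fin d → Vc p, (∀ k, ‖x k‖ = 1 ∧ dl (x k) (b k) ≤ θ) ∧
      ∀ v, ‖eval v H‖ = ∏ k, ‖dt v (x k)‖ := by
  have far : ∀ v : Vc p, ‖v‖ = 1 → (∀ k, dl v (b k) = 1) → ‖eval v H‖ = 1 := fun v v1 hv => by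
    have : ‖c' * ∏ k, dt v (b k)‖ = 1 := by
      rw [norm_mul, c1, one_mul, norm_prod]
      exact prod_eq_one fun k _ => (dl_unit v1 (b1 k)).symm.trans (hv k)
    exact (norm_eq_of_sub_lt (by rw [this]; exact (e v v1).trans_lt θ1)).trans this
  have H0 : H ≠ 0 := fun h => by
    obtain ⟨v, v1, hv⟩ := ex_far univ b fun k _ => ne_of_unit (b1 k)
    have := far v v1 fun k => hv k (mem_univ _)
    rw [h, map_zero, norm_zero] at this
    exact zero_ne_one this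
  obtain ⟨c, x, x1, hx⟩ := cub_fac hH H0
  have n1 : ‖c‖ = 1 := by
    obtain ⟨v, v1, hv⟩ := ex_far univ (Sum.elim b x) fun k _ => by
      rcases k with k | k
      · exact ne_of_unit (b1 k)
      · exact ne_of_unit (x1 k)
    have := far v v1 fun k => hv (.inl k) (mem_univ _)
    rwa [hx, norm_mul, norm_prod, prod_eq_one (fun k _ => (dl_unit v1 (x1 k)).symm.trans
      (hv (.inr k) (mem_univ _))), mul_one] at this
  have ex : ∀ k, ∃ i, dl (x i) (b k) < 1 := fun k => by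
    by_contra hc
    push Not at hc
    have := e (b k) (b1 k)
    rw [prod_eq_zero (mem_univ k) (dt_self _), mul_zero, sub_zero, hx, norm_mul, n1, one_mul,
      norm_prod, prod_eq_one fun i _ => (dl_unit (b1 k) (x1 i)).symm.trans
        ((dl_comm _ _).trans ((dl_le_one _ _).antisymm (hc i)))] at this
    exact θ1.not_ge this
  choose f hf using ex
  have ot : ∀ k l, k ≠ l → dl (x (f k)) (b l) = 1 := fun k l h =>
    (dl_eq_of_lt (ne_of_unit (x1 _)) (ne_of_unit (b1 k)) ((hf k).trans_eq (bs k l h).symm)).trans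
      (bs k l h)
  have fi : Function.Injective f := fun k l h => by
    by_contra hc
    exact (hf l).ne (h ▸ ot k l hc)
  refine ⟨fun k => x (f k), fun k => ⟨x1 _, ?_⟩, fun v => ?_⟩
  · have := e (x (f k)) (x1 _)
    rwa [hx, prod_eq_zero (mem_univ (f k)) (dt_self _), mul_zero, zero_sub, norm_neg, norm_mul, c1,
      one_mul, norm_prod, prod_eq_single k (fun l _ h => (dl_unit (x1 _) (b1 l)).symm.trans
        (ot k l h.symm)) (fun h => (h (mem_univ _)).elim), ← dl_unit (x1 _) (b1 k)] at this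
  · rw [hx, norm_mul, n1, one_mul, norm_prod]
    exact ((Equiv.ofBijective f (Finite.injective_iff_bijective.mp fi)).prod_comp
      fun i => ‖dt v (x i)‖).symm

theorem cub_ev (P Q : MvPolynomial (Fin 2) (PadicAlgCl p)) (y v : Vc p) :
    eval v (C (y 1) * P - C (y 0) * Q) = dt ![eval v P, eval v Q] y := by
  simp only [map_sub, map_mul, eval_C, dt, Matrix.cons_val_zero, Matrix.cons_val_one]
  ring

theorem cub_gal (σ : Gl p) {P : MvPolynomial (Fin 2) (PadicAlgCl p)}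
    (h : ∀ m ∈ P.support, σ (coeff m P) = coeff m P) (v : Vc p) :
    eval (σ ∘ v) P = σ (eval v P) := by
  rw [eval_eq', eval_eq', map_sum]
  exact sum_congr rfl fun m hm => by simp [h m hm]

theorem cub_der {P : MvPolynomial (Fin 2) (PadicAlgCl p)} (h : ∀ m, ‖coeff m P‖ ≤ 1) (k : Fin 2)
    {v : Vc p} (hv : ‖v‖ ≤ 1) : ‖eval v (pderiv k P)‖ ≤ 1 :=
  (Lip.eval zero_le_one _ fun m => by
    rw [coeff_pderiv]
    exact mul_le1 (h _) (by exact_mod_cast ncast_le (E := PadicAlgCl p) (m k + 1))).bd hv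

section

variable {P₁ Q₁ : MvPolynomial (Fin 2) (PadicAlgCl p)} (hP₁ : P₁.IsHomogeneous 2)
  (hQ₁ : Q₁.IsHomogeneous 2) (int : ∀ m, ‖coeff m P₁‖ ≤ 1 ∧ ‖coeff m Q₁‖ ≤ 1)
  (good : ∀ v : Vc p, ‖v‖ = 1 → ‖(![eval v P₁, eval v Q₁] : Vc p)‖ = 1)
include hP₁ hQ₁ int good

theorem cub_frm : Frm 2 (fun v : Vc p => ![eval v P₁, eval v Q₁]) 1 :=
  frm_of le_rfl hP₁ hQ₁ int one_pos fun v => by
    rcases eq_or_ne v 0 with rfl | hv
    · simp
    obtain ⟨c, c0, c1⟩ := ex_unit hv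
    have e : (![eval (c • v) P₁, eval (c • v) Q₁] : Vc p) = c ^ 2 • ![eval v P₁, eval v Q₁] :=
      ev_smul hP₁ hQ₁ c v
    have := good _ c1
    rw [e, norm_smul, norm_pow] at this
    rw [norm_smul] at c1
    refine le_of_mul_le_mul_left (le_of_eq ?_) (pow_pos (norm_pos_iff.mpr c0) 2)
    rw [this, one_mul, ← mul_pow, c1, one_pow]

/-- the two preimages under the quadratic map of good reduction -/
theorem cub_two {y : Vc p} (y1 : ‖y‖ = 1) : ∃ (c : PadicAlgCl p) (a : Fin 2 → Vc p), ‖c‖ = 1 ∧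
    (∀ i, ‖a i‖ = 1) ∧ (∀ v, dt ![eval v P₁, eval v Q₁] y = c * ∏ i, dt v (a i)) ∧
    (dl (a 0) (a 1) < 1 →
      ‖eval (a 0) (pderiv 0 P₁ * pderiv 1 Q₁ - pderiv 1 P₁ * pderiv 0 Q₁)‖ < 1) := by
  have hG : ∀ y : Vc p, (C (y 1) * P₁ - C (y 0) * Q₁).IsHomogeneous 2 := fun y =>
    (hP₁.C_mul _).sub (hQ₁.C_mul _)
  obtain ⟨u, u1, hu⟩ : ∃ u : Vc p, ‖u‖ = 1 ∧ ‖dt ![eval u P₁, eval u Q₁] y‖ = 1 := by
    obtain ⟨w, w1, hw⟩ := ex_far univ (fun _ : Unit => y) fun _ _ => ne_of_unit y1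
    obtain ⟨u, u1, hu⟩ : ∃ u : Vc p, ‖u‖ = 1 ∧ dt ![eval u P₁, eval u Q₁] w = 0 := by
      rcases eq_or_ne (C (w 1) * P₁ - C (w 0) * Q₁) 0 with e | e
      · exact ⟨y, y1, by rw [← cub_ev, e, map_zero]⟩
      · obtain ⟨c, x, x1, hx⟩ := cub_fac (hG w) e
        exact ⟨x 0, x1 0, by rw [← cub_ev, hx, prod_eq_zero (mem_univ 0) (dt_self _), mul_zero]⟩
    refine ⟨u, u1, ?_⟩
    rw [← dl_unit (good u u1) y1, dl_par (ne_of_unit (good u u1)) (ne_of_unit w1) hu]
    exact hw () (mem_univ _)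
  obtain ⟨c, a, a1, ha⟩ := cub_fac (hG y) fun e => by
    rw [← cub_ev, e, map_zero, norm_zero] at hu
    exact zero_ne_one hu
  have c1 : ‖c‖ = 1 := by
    refine le_antisymm ?_ ?_
    · obtain ⟨v, v1, hv⟩ := ex_far univ a fun k _ => ne_of_unit (a1 k)
      have := dt_le (good v v1).le y1.le
      rwa [← cub_ev, ha, norm_mul, norm_prod, prod_eq_one (fun k _ =>
        (dl_unit v1 (a1 k)).symm.trans (hv k (mem_univ _))), mul_one] at this
    · rw [← hu, ← cub_ev, ha, Fin.prod_univ_two]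
      exact mul_le1 le_rfl (mul_le1 (dt_le u1.le (a1 0).le) (dt_le u1.le (a1 1).le))
  refine ⟨c, a, c1, a1, fun v => by rw [← cub_ev, ha], fun hd => ?_⟩
  have e : C (y 1) * P₁ - C (y 0) * Q₁ = C c * ((C (a 0 1) * X 0 - C (a 0 0) * X 1) *
      (C (a 1 1) * X 0 - C (a 1 0) * X 1)) := MvPolynomial.funext fun v => by
    rw [ha, Fin.prod_univ_two]
    simp only [map_sub, map_mul, eval_C, eval_X, dt]
    ring
  rw [dl_unit (a1 0) (a1 1)] at hd
  have s : ∀ k, ‖y 1 * eval (a 0) (pderiv k P₁) - y 0 * eval (a 0) (pderiv k Q₁)‖ < 1 := fun k => by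
    obtain ⟨t, t1, ht⟩ : ∃ t : PadicAlgCl p, ‖t‖ ≤ 1 ∧ y 1 * eval (a 0) (pderiv k P₁) -
        y 0 * eval (a 0) (pderiv k Q₁) = dt (a 0) (a 1) * (c * t) := by
      have := congrArg (fun H => eval (a 0) (pderiv k H)) e
      fin_cases k
      · refine ⟨a 0 1, co_le (a1 0).le 1, ?_⟩
        simp at this
        simp only [dt, Fin.zero_eta]
        linear_combination this
      · refine ⟨-a 0 0, by rw [norm_neg]; exact co_le (a1 0).le 0, ?_⟩
        simp at this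
        simp only [dt, Fin.mk_one]
        linear_combination this
    rw [ht]
    exact (mul_le1 le_rfl (mul_le1 c1.le t1)).trans_lt hd
  have dP := fun k => cub_der (fun m => (int m).1) k (a1 0).le
  have dQ := fun k => cub_der (fun m => (int m).2) k (a1 0).le
  simp only [map_sub, map_mul]
  rcases nv_one y1 with h | h
  · refine lt_of_eq_of_lt ?_ (sub_lt ((mul_le1 le_rfl (dP 1)).trans_lt (s 0))
      ((mul_le1 le_rfl (dP 0)).trans_lt (s 1)))
    rw [← one_mul ‖_ * _ - _‖, ← h, ← norm_mul]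
    congr 1
    ring
  · refine lt_of_eq_of_lt ?_ (sub_lt ((mul_le1 le_rfl (dQ 1)).trans_lt (s 0))
      ((mul_le1 le_rfl (dQ 0)).trans_lt (s 1)))
    rw [← one_mul ‖_ * _ - _‖, ← h, ← norm_mul]
    congr 1
    ring

end

theorem cub {P Q P₁ Q₁ : MvPolynomial (Fin 2) (PadicAlgCl p)} (hP : P.IsHomogeneous 3)
    (hQ : Q.IsHomogeneous 3) (hP₁ : P₁.IsHomogeneous 2) (hQ₁ : Q₁.IsHomogeneous 2)
    {ρ0 : ℝ} (Fm : Frm 3 (fun v : Vc p => ![eval v P, eval v Q]) ρ0)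
    (int : ∀ m, ‖coeff m P₁‖ ≤ 1 ∧ ‖coeff m Q₁‖ ≤ 1) {h : Vc p} (h1 : ‖h‖ = 1)
    (red : ∀ m, ‖coeff m (P - (C (h 1) * X 0 - C (h 0) * X 1) * P₁)‖ < 1 ∧
      ‖coeff m (Q - (C (h 1) * X 0 - C (h 0) * X 1) * Q₁)‖ < 1)
    (good : ∀ v : Vc p, ‖v‖ = 1 → ‖(![eval v P₁, eval v Q₁] : Vc p)‖ = 1)
    (nper : ∀ n, 0 < n → ‖dt ((fun v : Vc p => ![eval v P₁, eval v Q₁])^[n] h) h‖ = 1)
    (ncr : ∀ c : Vc p, ‖c‖ = 1 →
      ‖eval c (pderiv 0 P₁ * pderiv 1 Q₁ - pderiv 1 P₁ * pderiv 0 Q₁)‖ < 1 →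
      ∀ n, 0 < n → ‖dt ((fun v : Vc p => ![eval v P₁, eval v Q₁])^[n] c) h‖ = 1) :
    Nonempty (Loc 3 fun v : Vc p => ![eval v P, eval v Q]) := by
  classical
  have G := cub_frm hP₁ hQ₁ int good
  have two := fun y : Vc p => cub_two hP₁ hQ₁ int good (y := y)
  set g : Vc p → Vc p := fun v => ![eval v P₁, eval v Q₁] with hg
  have h0 := ne_of_unit h1
  have gu : ∀ n (v : Vc p), ‖v‖ = 1 → ‖g^[n] v‖ = 1 := fun n => by
    induction n with
    | zero => exact fun v hv => hv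
    | succ n ih => exact fun v hv => ih _ (good v hv)
  have nr : ∀ n (y y' : Vc p), y ≠ 0 → dl y y' < 1 → dl (g^[n] y) h < 1 → dl (g^[n] y') h < 1 :=
    fun n y y' y0 a b => dl_lt (G.iter_ne n y0) (by
      have := G.iter_lipz n y' y
      rw [one_pow, one_mul, dl_comm y'] at this
      exact this.trans_lt a) b
  obtain ⟨θ1, t1, l1⟩ := exists_theta _ fun m => (red m).1
  obtain ⟨θ2, t2, l2⟩ := exists_theta _ fun m => (red m).2
  have r1 : max (max θ1 θ2) (1 / 2) < 1 := max_lt (max_lt t1 t2) (by norm_num)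
  have ap : ∀ v : Vc p, ‖v‖ = 1 → ∃ ε : Vc p, ‖ε‖ ≤ max (max θ1 θ2) (1 / 2) ∧
      (![eval v P, eval v Q] : Vc p) = dt v h • g v + ε := fun v hv =>
    ⟨![_, _], nv_le ((l1.bd hv.le).trans (le_max_of_le_left (le_max_left _ _)))
      ((l2.bd hv.le).trans (le_max_of_le_left (le_max_right _ _))), by
      ext i
      fin_cases i <;> simp [hg, dt] <;> ring⟩
  have r0 : 0 < max (max θ1 θ2) (1 / 2) := lt_max_of_lt_right (by norm_num)
  generalize max (max θ1 θ2) (1 / 2) = θ at r0 r1 ap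
  have kid : ∀ y : Vc p, ‖y‖ = 1 → ∀ n, dl (g^[n] y) h < 1 → ∃ x : Fin 3 → Vc p,
      (∀ i, ‖x i‖ = 1 ∧ ∃ n, dl (g^[n] (x i)) h < 1) ∧ (∀ i j, i ≠ j → dl (x i) (x j) = 1) ∧
      (∀ v, ‖dt ![eval v P, eval v Q] y‖ = ∏ i, ‖dt v (x i)‖) ∧ dl (x 0) h ≤ θ ∧
      ∀ i, i ≠ 0 → dl (x i) h = 1 := fun y y1 n hn => by
    obtain ⟨c, a, c1, a1, ha, hd⟩ := two y y1
    have an : ∀ i, dl (g^[n + 1] (a i)) h < 1 := fun i => by
      have : dt (g (a i)) y = 0 := by
        rw [hg, ha, prod_eq_zero (mem_univ i) (dt_self _), mul_zero]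
      rwa [Function.iterate_succ_apply, dl_par (G.iter_ne n (G.ne (ne_of_unit (a1 i))))
        (G.iter_ne n (ne_of_unit y1)) (G.iter_par n this)]
    have ah : ∀ i, dl (a i) h = 1 := fun i => (dl_le_one _ _).antisymm (not_lt.mp fun hc =>
      (nr _ _ _ (ne_of_unit (a1 i)) hc (an i)).ne ((dl_unit (gu _ h h1) h1).trans
        (nper _ n.succ_pos)))
    have aa : dl (a 0) (a 1) = 1 := (dl_le_one _ _).antisymm (not_lt.mp fun hc =>
      (an 0).ne ((dl_unit (gu _ _ (a1 0)) h1).trans (ncr _ (a1 0) (hd hc) _ n.succ_pos)))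
    have b1 : ∀ k, ‖(![h, a 0, a 1] : Fin 3 → Vc p) k‖ = 1 := fun k => by
      fin_cases k
      exacts [h1, a1 0, a1 1]
    have bs : ∀ k l, k ≠ l → dl ((![h, a 0, a 1] : Fin 3 → Vc p) k) (![h, a 0, a 1] l) = 1 :=
      fun k l hk => by
        fin_cases k <;> fin_cases l
        exacts [(hk rfl).elim, (dl_comm _ _).trans (ah 0), (dl_comm _ _).trans (ah 1), ah 0,
          (hk rfl).elim, aa, ah 1, (dl_comm _ _).trans aa, (hk rfl).elim]
    obtain ⟨x, x1, hx⟩ := cub_mtch b1 bs ((hP.C_mul (y 1)).sub (hQ.C_mul (y 0))) c1 r1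
      fun v v1 => by
        obtain ⟨ε, e1, e2⟩ := ap v v1
        have e3 := ha v
        rw [Fin.prod_univ_two] at e3
        have e4 : dt (dt v h • g v + ε) y - c * ∏ k, dt v ((![h, a 0, a 1] : Fin 3 → Vc p) k) =
            dt ε y := by
          rw [Fin.prod_univ_three]
          change _ - c * (dt v h * dt v (a 0) * dt v (a 1)) = _
          change dt (g v) y = _ at e3
          generalize dt v h = t at *
          generalize dt v (a 0) = t0 at *
          generalize dt v (a 1) = t1 at *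
          simp only [dt, Pi.add_apply, Pi.smul_apply, smul_eq_mul] at e3 ⊢
          linear_combination t * e3
        rw [cub_ev, e2, e4]
        exact sub_le (mul_le1 (co_le e1 0) (co_le y1.le 1)) (mul_le1 (co_le e1 1) (co_le y1.le 0))
    have xb : ∀ k l, k ≠ l → dl (x k) ((![h, a 0, a 1] : Fin 3 → Vc p) l) = 1 := fun k l hk =>
      (dl_eq_of_lt (ne_of_unit (x1 k).1) (ne_of_unit (b1 k))
        (((x1 k).2.trans_lt r1).trans_eq (bs k l hk).symm)).trans (bs k l hk)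
    refine ⟨x, fun i => ⟨(x1 i).1, ?_⟩, fun i j hij => ?_, fun v => by rw [← cub_ev, hx],
      (x1 0).2, fun i hi => xb i 0 hi⟩
    · have t := (dl_comm _ _).trans_lt ((x1 i).2.trans_lt r1)
      fin_cases i
      exacts [⟨0, (x1 0).2.trans_lt r1⟩, ⟨_, nr _ _ _ (ne_of_unit (a1 0)) t (an 0)⟩,
        ⟨_, nr _ _ _ (ne_of_unit (a1 1)) t (an 1)⟩]
    · have t := (dl_comm _ _).trans (xb j i hij.symm)
      exact (dl_eq_of_lt (ne_of_unit (x1 i).1) (ne_of_unit (b1 i))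
        (((x1 i).2.trans_lt r1).trans_eq t.symm)).trans t
  refine ⟨{
    c0 := h
    r := θ
    R := 1
    N := fun y => y ≠ 0 ∧ ∃ n, dl (g^[n] y) h < 1
    Sp := fun _ => False
    π := fun _ => 1
    rk := fun _ => 0
    Q := 1
    chart := fun i z => if i = 0 then ![z, 1] else ![1, z]
    E := P.support.image (coeff · P) ∪ Q.support.image (coeff · Q) ∪ univ.image h
    hd := .inr rfl
    r0 := r0
    rR := r1
    R1 := le_rfl
    ne := fun _ hy => hy.1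
    n0 := ⟨h0, 0, (dl_self h).trans_lt one_pos⟩
    sp0 := id
    inv := fun y y' ⟨y0, n, hn⟩ y1 hd => ⟨⟨y1, n, nr n y y' y0 hd hn⟩, rfl, Iff.rfl, rfl⟩
    piR := fun _ _ => (one_pow _).ge
    rkQ := fun _ _ => zero_le_one
    kids := fun y ⟨y0, n, hn⟩ => ?_
    chd := fun i z z' hz hz' => ?_
    cov := fun y hy => ?_
    gΨ := fun σ hσ v => ?_
    gc := fun σ hσ => funext fun i => hσ _ (mem_union_right _ (mem_image_of_mem _ (mem_univ i)))
    gch := fun σ _ i z => ?_ }⟩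
  · obtain ⟨s, s0, s1⟩ := ex_unit y0
    obtain ⟨x, a1, a2, a3, a4, a5⟩ := kid _ s1 n (nr n y _ y0 (by
      rw [dl_smul' s0, dl_self]; exact one_pos) hn)
    refine ⟨x, fun i => ⟨ne_of_unit (a1 i).1, (a1 i).2⟩, a2, fun v => ?_, fun i => ?_,
      False.elim, fun _ => ⟨0, a4⟩⟩
    · have e := dt_smul 1 s ![eval v P, eval v Q] y
      rw [one_smul, one_mul] at e
      rw [norm_smul] at s1
      rw [← a3, e, norm_mul, prod_eq_one fun i _ => (a1 i).1, mul_one, ← mul_assoc, mul_comm ‖y‖,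
        s1, one_mul]
    · rcases eq_or_ne i 0 with rfl | hi
      · exact .inl ⟨a4, (Fm.rho_bd (ne_of_unit (a1 0).1)).2.trans (one_pow _).ge⟩
      · refine .inr ⟨(a5 i hi).ge, ?_, fun e => absurd e (by norm_num)⟩
        obtain ⟨ε, e1, e2⟩ := ap _ (a1 i).1
        have e3 : ‖dt (x i) h • g (x i)‖ = 1 := by
          rw [norm_smul, ← dl_unit (a1 i).1 h1, a5 i hi, one_mul]
          exact good _ (a1 i).1
        obtain ⟨j, hj⟩ : ∃ j, ‖(dt (x i) h • g (x i)) j‖ = 1 :=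
          (nv_one e3).elim (fun h => ⟨0, h⟩) fun h => ⟨1, h⟩
        rw [rho, (a1 i).1, one_pow, one_pow, div_one]
        refine nv_eq (Fm.lip _ _ (a1 i).1.le (a1 i).1.le).1 j ?_
        rw [e2, Pi.add_apply]
        exact (norm_eq_of_sub_lt (by
          rw [add_sub_cancel_left, hj]; exact (co_le e1 j).trans_lt r1)).trans hj
  · have n2 : ∀ {u : PadicAlgCl p}, ‖u‖ ≤ 1 → ‖(![1, u] : Vc p)‖ = 1 := fun hu =>
      nv_eq (nv_le (by simp) hu) 0 (by simp)
    split_ifs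
    · exact ⟨ne_of_unit (nv_aff hz), by rw [dl_aff hz hz', one_mul]⟩
    · exact ⟨ne_of_unit (n2 hz), by
        rw [dl_unit (n2 hz) (n2 hz'), one_mul, norm_sub_rev]; simp [dt]⟩
  · have y0 := norm_pos_iff.mpr hy.1
    rw [nv_eq_max] at y0
    rcases le_total ‖y 0‖ ‖y 1‖ with e | e
    · rw [max_eq_right e] at y0
      refine ⟨0, zero_le_one, y 0 / y 1, by rwa [norm_div, div_le_one y0], ?_⟩
      simp [dt, mul_div_cancel₀ _ (norm_pos_iff.mp y0)]
    · rw [max_eq_left e] at y0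
      refine ⟨1, le_rfl, y 1 / y 0, by rwa [norm_div, div_le_one y0], ?_⟩
      simp [dt, mul_div_cancel₀ _ (norm_pos_iff.mp y0)]
  · ext i
    fin_cases i
    · exact cub_gal σ (fun m hm => hσ _ (mem_union_left _ (mem_union_left _
        (mem_image_of_mem (coeff · P) hm)))) v
    · exact cub_gal σ (fun m hm => hσ _ (mem_union_left _ (mem_union_right _
        (mem_image_of_mem (coeff · Q) hm)))) v
  · ext j
    split_ifs <;> fin_cases j <;> simp

end Pool.Agent.Lib.MP_a2c890_nt.R
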