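import Pool.Agent.Lib.MP_a2c890_nt.R.Defs

set_option autoImplicit false
set_option linter.unusedSectionVars false

namespace Pool.Agent.Lib.MP_a2c890_nt.R

open Finset T

namespace Sym

variable {d : ℕ} (Y : Sym d)

open Classical in
/-- cells of bounded depth -/
noncomputable def lvl : ℕ → Finset Y.V
  | 0 => {Y.root}
  | k + 1 => insert Y.root ((lvl k).biUnion fun w => univ.image (Y.kid w))

open Classical in
/-- total weight of the boundary cells of depth at most `k` -/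
noncomputable def wt (Fix : Y.V → Prop) (k : ℕ) : ℝ :=
  ∑ v ∈ (Y.lvl k).filter (fun v => ¬ Fix v ∧ Fix (Y.par v)), ((d : ℝ) ^ Y.dep v)⁻¹

theorem dep_par {v : Y.V} (h : v ≠ Y.root) : Y.dep v = Y.dep (Y.par v) + 1 := by
  obtain ⟨i, e⟩ := Y.ex v h
  have := (Y.kidp _ i (e.symm ▸ h)).2
  rwa [e] at this

theorem mem_lvl {k : ℕ} {v : Y.V} : v ∈ Y.lvl k ↔ Y.dep v ≤ k := by
  induction k generalizing v with
  | zero =>
    rw [lvl, mem_singleton]
    refine ⟨fun e => by rw [e, Y.dep0], fun e => by_contra fun n => ?_⟩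
    have := Y.dep_par n
    omega
  | succ k ih =>
    by_cases n : v = Y.root
    · simp [lvl, n, Y.dep0]
    simp only [lvl, mem_insert, n, false_or, mem_biUnion, mem_image, mem_univ, true_and, ih]
    constructor
    · rintro ⟨w, a, i, rfl⟩
      have := (Y.kidp w i n).2
      omega
    · intro a
      have := Y.dep_par n
      exact ⟨_, by omega, Y.ex v n⟩

theorem card_lvl (k : ℕ) : (Y.lvl k).card ≤ d ^ (k + 1) := by
  classical
  have d2 : 2 ≤ d := by have := Y.hd; omega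
  suffices (Y.lvl k).card + 1 ≤ d ^ (k + 1) by omega
  induction k with
  | zero => simpa [lvl] using d2
  | succ k ih =>
    have : (Y.lvl (k + 1)).card ≤ (Y.lvl k).card * d + 1 := by
      rw [lvl]
      exact (card_insert_le _ _).trans (Nat.succ_le_succ (card_biUnion_le_card_mul _ _ _
        fun w _ => card_image_le.trans (by simp)))
    rw [pow_succ]
    nlinarith [Nat.mul_le_mul_right d ih]

theorem two (w : Y.V) {i j l : Fin d} (hi : Y.kid w i ≠ Y.root) (hj : Y.kid w j ≠ Y.root)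
    (hl : Y.kid w l ≠ Y.root) : i = j ∨ j = l ∨ i = l := by
  have := i.2
  have := j.2
  have := l.2
  by_cases s : Y.Sp w
  · have := (Y.sp w s).1
    simp only [Fin.ext_iff]
    omega
  · obtain ⟨r, e⟩ := Y.nsp w s
    have a : i ≠ r := fun z => hi (z ▸ e)
    have b : j ≠ r := fun z => hj (z ▸ e)
    have c : l ≠ r := fun z => hl (z ▸ e)
    have := r.2
    have := Y.hd
    simp only [Ne, Fin.ext_iff] at *
    omega

theorem one_kid (w : Y.V) : ∃ i, Y.kid w i ≠ Y.root := by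
  have d2 : 2 ≤ d := by have := Y.hd; omega
  by_contra! h
  exact zero_ne_one (congrArg Fin.val (Y.inj w ((h ⟨0, by omega⟩).trans (h ⟨1, d2⟩).symm)))

theorem two_kids {w : Y.V} (h : d = 3 ∨ Y.Sp w) :
    ∃ i j, i ≠ j ∧ Y.kid w i ≠ Y.root ∧ Y.kid w j ≠ Y.root := by
  by_cases s : Y.Sp w
  · obtain ⟨rfl, a⟩ := Y.sp w s
    exact ⟨0, 1, by decide, (a 0).1, (a 1).1⟩
  · obtain rfl := h.resolve_right s
    obtain ⟨r, e⟩ := Y.nsp w s
    have k : ∀ i, i ≠ r → Y.kid w i ≠ Y.root := fun i n z => n (Y.inj w (z.trans e.symm))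
    have z : ∀ r : Fin 3, r + 1 ≠ r + 2 ∧ r + 1 ≠ r ∧ r + 2 ≠ r := by decide
    exact ⟨r + 1, r + 2, (z r).1, k _ (z r).2.1, k _ (z r).2.2⟩

theorem desc (m : ℕ) (w : Y.V) : ∃ v, Y.par^[m] v = w ∧ Y.dep v = Y.dep w + m := by
  induction m with
  | zero => exact ⟨w, rfl, rfl⟩
  | succ m ih =>
    obtain ⟨v, a, b⟩ := ih
    obtain ⟨i, c⟩ := Y.one_kid v
    exact ⟨Y.kid v i, by rw [Function.iterate_succ_apply, (Y.kidp v i c).1, a],
      by rw [(Y.kidp v i c).2, b, add_assoc]⟩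

theorem desc2 (m : ℕ) (w : Y.V) (h : Y.rk w < m) : ∃ v v', v ≠ v' ∧
    (Y.par^[m] v = w ∧ Y.dep v = Y.dep w + m) ∧ Y.par^[m] v' = w ∧ Y.dep v' = Y.dep w + m := by
  induction m generalizing w with
  | zero => omega
  | succ m ih =>
    have up : ∀ i v, Y.kid w i ≠ Y.root →
        Y.par^[m] v = Y.kid w i ∧ Y.dep v = Y.dep (Y.kid w i) + m →
        Y.par^[m + 1] v = w ∧ Y.dep v = Y.dep w + (m + 1) := fun i v n a =>
      ⟨by rw [Function.iterate_succ_apply', a.1, (Y.kidp w i n).1],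
        by rw [a.2, (Y.kidp w i n).2]; omega⟩
    by_cases s : d = 3 ∨ Y.Sp w
    · obtain ⟨i, j, n, a, b⟩ := Y.two_kids s
      obtain ⟨v, c⟩ := Y.desc m (Y.kid w i)
      obtain ⟨v', c'⟩ := Y.desc m (Y.kid w j)
      exact ⟨v, v', fun e => n (Y.inj w (c.1.symm.trans (e ▸ c'.1))), up i v a c, up j v' b c'⟩
    · obtain ⟨i, a⟩ := Y.one_kid w
      have := Y.rklt (Y.hd.resolve_right fun e => s (.inl e)) w i (fun e => s (.inr e)) a
      obtain ⟨v, v', n, c, c'⟩ := ih (Y.kid w i) (by omega)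
      exact ⟨v, v', n, up i v a c, up i v' a c'⟩

theorem grow (n : ℕ) : 2 ^ n ≤ (Y.lvl ((Y.Q + 1) * n)).card := by
  classical
  choose f g n' a b using fun w => Y.desc2 (Y.Q + 1) w (Nat.lt_succ_of_le (Y.rkQ w))
  suffices ∃ X : Finset Y.V, X.card = 2 ^ n ∧ ∀ v ∈ X, Y.dep v = (Y.Q + 1) * n by
    obtain ⟨X, c, e⟩ := this
    exact c ▸ card_le_card fun v m => Y.mem_lvl.2 (e v m).le
  induction n with
  | zero => exact ⟨{Y.root}, rfl, by simp [Y.dep0]⟩
  | succ n ih =>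
    obtain ⟨X, c, e⟩ := ih
    refine ⟨X.image f ∪ X.image g, ?_, fun v m => ?_⟩
    · rw [card_union_of_disjoint, card_image_of_injective _
        (Function.LeftInverse.injective fun w => (a w).1), card_image_of_injective _
        (Function.LeftInverse.injective fun w => (b w).1), c, pow_succ, mul_two]
      refine disjoint_left.2 fun v p q => ?_
      obtain ⟨w, -, rfl⟩ := mem_image.1 p
      obtain ⟨w', -, z⟩ := mem_image.1 q
      obtain rfl : w' = w := (b w').1.symm.trans (z ▸ (a w).1)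
      exact n' _ z.symm
    · rcases mem_union.1 m with m | m <;> obtain ⟨w, p, rfl⟩ := mem_image.1 m
      · rw [(a w).2, e w p, Nat.mul_succ]
      · rw [(b w).2, e w p, Nat.mul_succ]

theorem br_ind (Fx : ℕ → Y.V → Prop) (h0 : ∀ t, Fx t Y.root) (h1 : ∀ t v, Fx t v → Fx (t + 1) v)
    (h2 : ∀ t w i, Fx t w → Fx (t + 1) (Y.kid w i))
    (h3 : ∀ t w i, Fx t w → (∀ j, Y.kid w j ≠ Y.root → j = i) → Fx t (Y.kid w i)) :
    ∀ t v, Y.br v ≤ t → Fx t v := by
  intro t v
  induction hn : Y.dep v generalizing t v with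
  | zero =>
    obtain rfl : v = Y.root := by_contra fun n => by
      have := Y.dep_par n
      omega
    exact fun _ => h0 t
  | succ n ih =>
    intro h
    have nr : v ≠ Y.root := fun e => by
      rw [e, Y.dep0] at hn
      omega
    have dp := Y.dep_par nr
    obtain ⟨i, e⟩ := Y.ex v nr
    generalize Y.par v = w at dp e
    subst e
    have step : Y.br w < Y.br (Y.kid w i) → Fx t (Y.kid w i) := fun l => by
      obtain ⟨t, rfl⟩ : ∃ t', t = t' + 1 := ⟨t - 1, by omega⟩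
      exact h2 t w i (ih t w (by omega) (by omega))
    by_cases d2 : d = 2
    · by_cases s : Y.Sp w
      · refine step ?_
        simp only [br, if_pos d2, if_pos s, if_neg ((Y.sp w s).2 i).2]
        omega
      · obtain ⟨r, e⟩ := Y.nsp w s
        refine h3 t w i (ih t w (by omega) (le_trans ?_ h)) fun j n => ?_
        · simp only [br, if_pos d2, if_neg s]
          omega
        · have a : i ≠ r := fun z => nr (z ▸ e)
          have b : j ≠ r := fun z => n (z ▸ e)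
          have := r.2
          have := i.2
          have := j.2
          simp only [Ne, Fin.ext_iff] at *
          omega
    · refine step ?_
      simp only [br, if_neg d2]
      omega

theorem ex_tau : ∃ τ : ℕ → ℕ, (∀ k v, Y.dep v ≤ k → Y.br v ≤ τ k) ∧
    ∀ k, 2 ^ τ k * th d ^ (2 * k) ≤ 2 * (8 / 9 : ℝ) ^ k := by
  by_cases d2 : d = 2
  · refine ⟨fun k => (k + 1) / 2, fun k v h => ?_, fun k => ?_⟩
    · simp only [br, if_pos d2]
      split_ifs <;> omega
    · have a : (2 : ℝ) ^ ((k + 1) / 2) ≤ 2 * (3 / 2) ^ k := by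
        refine (pow_le_pow_iff_left₀ (by positivity) (by positivity) two_ne_zero).1 ?_
        rw [← pow_mul, mul_pow, ← pow_mul, mul_comm k 2, pow_mul (3 / 2 : ℝ)]
        calc (2 : ℝ) ^ ((k + 1) / 2 * 2) ≤ 2 ^ (k + 1) := pow_le_pow_right₀ one_le_two (by omega)
          _ = 2 * 2 ^ k := pow_succ' ..
          _ ≤ 2 ^ 2 * ((3 / 2) ^ 2) ^ k := by gcongr <;> norm_num
      rw [th, if_pos d2, pow_mul]
      refine (mul_le_mul_of_nonneg_right a (by positivity)).trans ?_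
      rw [mul_assoc, ← mul_pow]
      gcongr
      norm_num
  · refine ⟨id, fun k v h => by simpa only [br, if_neg d2, id] using h, fun k => ?_⟩
    rw [th, if_neg d2, pow_mul, id, ← mul_pow]
    norm_num

theorem window (P : (Y.V → Prop) → Prop) {A q : ℕ}
    (h : ∀ (t : ℕ) (X : Finset Y.V), ∃ Fix : Y.V → Prop, P Fix ∧ (∀ v, Y.br v ≤ t → Fix v) ∧
      ∀ X' : Finset Y.V, X' ⊆ X → (∀ v ∈ X', Fix v) → X'.card ≤ A * q ^ 2 ^ t) : Y.Wd P := by
  classical
  intro η hη
  obtain ⟨τ, t1, t2⟩ := Y.ex_tau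
  have a0 : 2 / 3 ≤ th d ∧ th d < 1 := by
    rw [th]
    split_ifs <;> norm_num
  have a1 : 0 < th d := by linarith [a0.1]
  have an : ∀ {k k' : ℕ}, k ≤ k' → th d ^ (2 * k') ≤ th d ^ (2 * k) := fun e =>
    pow_le_pow_of_le_one a1.le a0.2.le (by omega)
  set c : ℕ := (Y.Q + 1) * (A + q + 1) with hc
  have c0 : (0 : ℝ) < c := by rw [hc]; positivity
  obtain ⟨k0, hk⟩ := exists_pow_lt_of_lt_one (show 0 < 2 / 9 * η ^ 2 / c by positivity)
    (by norm_num : (8 / 9 : ℝ) < 1)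
  obtain ⟨U0, hU⟩ := exists_nat_gt (η / th d ^ (2 * k0))
  refine ⟨U0, fun U hU' => ?_⟩
  have U1 : η < th d ^ (2 * k0) * U := by
    rw [div_lt_iff₀' (by positivity)] at hU
    exact hU.trans_le (by gcongr)
  have U2 : (0 : ℝ) < U := (mul_pos_iff_of_pos_left (by positivity)).1 (hη.trans U1)
  have ex : ∃ k, th d ^ (2 * k) * U ≤ η := by
    obtain ⟨k, e⟩ := exists_pow_lt_of_lt_one (div_pos hη U2) a0.2
    exact ⟨k, ((lt_div_iff₀ U2).1 ((pow_le_pow_of_le_one a1.le a0.2.le (by omega)).trans_lt e)).le⟩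
  have k1 := Nat.find_spec ex
  have k2 : k0 < Nat.find ex := by_contra fun n => by
    have := mul_le_mul_of_nonneg_right (an (not_lt.1 n)) U2.le
    linarith
  obtain ⟨k, e⟩ : ∃ k, Nat.find ex = k + 1 := ⟨Nat.find ex - 1, by omega⟩
  have k3 := not_le.1 (Nat.find_min ex (m := k) (by omega))
  rw [e] at k1 k2
  obtain ⟨Fix, p, f1, f2⟩ := h (τ (k + 1)) (Y.lvl ((Y.Q + 1) * ((A + q + 1) * 2 ^ τ (k + 1))))
  obtain ⟨v, v1, v2⟩ : ∃ v, Y.dep v ≤ c * 2 ^ τ (k + 1) ∧ ¬ Fix v := by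
    by_contra! n
    have g := (Y.grow _).trans (f2 _ Subset.rfl fun v m => n v (by
      rw [hc, mul_assoc]; exact Y.mem_lvl.1 m))
    generalize hT : 2 ^ τ (k + 1) = T at g
    have T1 : 1 ≤ T := hT ▸ Nat.one_le_two_pow
    have : A * q ^ T < 2 ^ A * 2 ^ (q * T) := by
      rw [pow_mul]
      exact Nat.mul_lt_mul_of_lt_of_le Nat.lt_two_pow_self
        (Nat.pow_le_pow_left Nat.lt_two_pow_self.le _) (by positivity)
    rw [← pow_add] at this
    have := (Nat.pow_lt_pow_iff_right one_lt_two).1 (g.trans_lt this)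
    nlinarith
  have ex' : ∃ s, ∃ v, ¬ Fix v ∧ Y.dep v = s := ⟨_, v, v2, rfl⟩
  obtain ⟨w, w1, w2⟩ := Nat.find_spec ex'
  refine ⟨Fix, Nat.find ex', p, fun v n => Nat.find_min' ex' ⟨v, n, rfl⟩, ⟨w, w1, w2⟩, ?_, ?_⟩
  · have : k + 1 ≤ Nat.find ex' := by_contra fun n => w1 (f1 w (t1 _ _ (by omega)))
    exact (mul_le_mul_of_nonneg_right (an this) U2.le).trans k1
  · have s1 : (Nat.find ex' : ℝ) ≤ c * 2 ^ τ (k + 1) := by
      exact_mod_cast (Nat.find_min' ex' ⟨v, v2, rfl⟩).trans v1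
    have s2 : (8 / 9 : ℝ) ^ (k + 1) ≤ (8 / 9) ^ k0 :=
      pow_le_pow_of_le_one (by norm_num) (by norm_num) k2.le
    have s3 := t2 (k + 1)
    rw [lt_div_iff₀ c0] at hk
    rw [mul_add, pow_add] at s3
    have s4 : (4 / 9 : ℝ) ≤ th d ^ (2 * 1) := by nlinarith [a0.1]
    have p0 : 0 < th d ^ (2 * k) := by positivity
    have q0 : (0 : ℝ) < 2 ^ τ (k + 1) := by positivity
    generalize th d ^ (2 * k) = x at *
    generalize (2 : ℝ) ^ τ (k + 1) = y at *
    have s5 : y * (x * (4 / 9)) ≤ 2 * (8 / 9) ^ k0 :=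
      (by gcongr : y * (x * (4 / 9)) ≤ y * (x * th d ^ (2 * 1))).trans (s3.trans (by linarith))
    have s6 : c * y * x ≤ η * U * x := by nlinarith [mul_le_mul_of_nonneg_left s5 c0.le]
    exact s1.trans (le_of_mul_le_mul_right s6 p0)

end Sym

end Pool.Agent.Lib.MP_a2c890_nt.R
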