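import Pool.Agent.Lib.MP_a2c890_nt.R.Chord
import Pool.Agent.Lib.MP_a2c890_nt.R.SymA

set_option autoImplicit false
set_option linter.unusedSectionVars false

namespace Pool.Agent.Lib.MP_a2c890_nt.R

open Finset T

variable {p : ℕ} [Fact p.Prime] {d : ℕ} {Ψ : Vc p → Vc p} {ρ0 : ℝ}

theorem Hyp.uniq (H : Hyp d Ψ ρ0) {x : Vc p} {v v' : H.Y.V} (h : H.In v x) (h' : H.In v' x) :
    v = v' := by
  by_contra hc
  exact absurd (dl_lt h.1 (dl_comm x _ ▸ h.2) h'.2) (not_lt.mpr (H.sep v v' hc))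

theorem Hyp.all (H : Hyp d Ψ ρ0) (Fm : Frm d Ψ ρ0) {x : Vc p} {w : H.Y.V} (hx : x ≠ 0)
    (h : H.In w (Ψ x)) : ∃ i, H.In (H.Y.kid w i) x := by
  obtain ⟨z, h1, h2⟩ := H.kids w (Ψ x) h.1 h.2
  have e := h2 x
  rw [dt_self, norm_zero, zero_mul, eq_comm, mul_eq_zero,
    or_iff_right (norm_ne_zero_iff.mpr h.1), prod_eq_zero_iff] at e
  obtain ⟨i, -, hi⟩ := e
  have z0 : z i ≠ 0 := fun a => h.1 (by rw [← (h1 i).1, a, Fm.zero])
  exact ⟨i, hx, by rw [dl_par hx z0 (norm_eq_zero.mp hi)]; exact (h1 i).2.1⟩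

/-! Words -/

/-- words of a given length -/
def wds (d : ℕ) : ℕ → Finset (List (Fin d))
  | 0 => {[]}
  | n + 1 => (wds d n ×ˢ univ).image fun q => q.2 :: q.1

theorem mem_wds {n : ℕ} {l : List (Fin d)} : l ∈ wds d n ↔ l.length = n := by
  induction n generalizing l with
  | zero => simp [wds]
  | succ n ih =>
    rw [wds, mem_image]
    constructor
    · rintro ⟨q, h, rfl⟩
      rw [List.length_cons, ih.mp (mem_product.mp h).1]
    · intro h
      obtain ⟨a, m, rfl⟩ := List.exists_cons_of_length_eq_add_one h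
      exact ⟨(m, a), mem_product.mpr ⟨ih.mpr (by simpa using h), mem_univ _⟩, rfl⟩

theorem prod_wds {M : Type} [CommMonoid M] (n : ℕ) (f : List (Fin d) → M) :
    ∏ l ∈ wds d (n + 1), f l = ∏ l ∈ wds d n, ∏ a, f (a :: l) := by
  rw [wds, prod_image, prod_product]
  intro q _ q' _ h
  exact Prod.ext (List.cons.inj h).2 (List.cons.inj h).1

theorem sum_wds {M : Type} [AddCommMonoid M] (n : ℕ) (f : List (Fin d) → M) :
    ∑ l ∈ wds d (n + 1), f l = ∑ l ∈ wds d n, ∑ a, f (a :: l) :=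
  prod_wds (M := Multiplicative M) n f

theorem card_wds (n : ℕ) : (wds d n).card = d ^ n := by
  induction n with
  | zero => simp [wds]
  | succ n ih => rw [card_eq_sum_ones, sum_wds]; simp [ih, pow_succ]

theorem sum_wds_add (a b : ℕ) (f : List (Fin d) → ℝ) :
    ∑ l ∈ wds d (b + a), f l = ∑ l2 ∈ wds d b, ∑ l1 ∈ wds d a, f (l1 ++ l2) := by
  induction a generalizing f with
  | zero => simp [wds]
  | succ a ih =>
    rw [← add_assoc, sum_wds, ih]
    exact sum_congr rfl fun l2 _ => by rw [sum_wds]; rfl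

/-- the cell reached along a word -/
def Sym.cell (Y : Sym d) (w : Y.V) : List (Fin d) → Y.V
  | [] => w
  | a :: l => Y.kid (Y.cell w l) a

theorem Sym.cell_app (Y : Sym d) (w : Y.V) (l l' : List (Fin d)) :
    Y.cell w (l ++ l') = Y.cell (Y.cell w l') l := by
  induction l with
  | nil => rfl
  | cons a l ih => rw [List.cons_append, Sym.cell, ih, Sym.cell]

theorem Sym.T_sum (Y : Sym d) (m : ℕ) (h : Y.V → ℝ) (w : Y.V) :
    (d : ℝ) ^ m * Y.T^[m] h w = ∑ l ∈ wds d m, h (Y.cell w l) := by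
  have d0 : (d : ℝ) ≠ 0 := by rcases Y.hd with e | e <;> rw [e] <;> norm_num
  induction m generalizing h with
  | zero => simp [wds, Sym.cell]
  | succ m ih =>
    rw [Function.iterate_succ_apply, pow_succ', mul_assoc, ih, sum_wds, mul_sum]
    exact sum_congr rfl fun l _ => by rw [Sym.T, mul_div_cancel₀ _ d0]; rfl

namespace Hyp

variable (H : Hyp d Ψ ρ0)

open Classical in
/-- chosen kids of a point of a cell -/
noncomputable def kd (w : H.Y.V) (y : Vc p) : Fin d → Vc p :=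
  if h : H.In w y then (H.kids w y h.1 h.2).choose else fun _ => y

/-- the point reached along a word -/
noncomputable def pt (w : H.Y.V) (y : Vc p) : List (Fin d) → Vc p
  | [] => y
  | a :: l => H.kd (H.Y.cell w l) (pt w y l) a

/-- the contraction along a word -/
noncomputable def eps (w : H.Y.V) (y : Vc p) : List (Fin d) → ℝ
  | [] => 1
  | a :: l => eps w y l / H.lam (H.pt w y (a :: l))

/-- itinerary -/
def It (w : H.Y.V) : List (Fin d) → Vc p → Prop
  | [], x => H.In w x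
  | a :: l, x => H.In (H.Y.cell w (a :: l)) x ∧ It w l (Ψ x)

variable {H}

theorem kd_spec {w : H.Y.V} {y : Vc p} (h : H.In w y) :
    (∀ i, Ψ (H.kd w y i) = y ∧ dl (H.kd w y i) (H.ctr (H.Y.kid w i)) < H.R ∧
      (dl y (H.ctr w) ≤ H.r → dl (H.kd w y i) (H.ctr (H.Y.kid w i)) ≤ H.r)) ∧
    ∀ v, ‖dt (Ψ v) y‖ * ∏ i, ‖H.kd w y i‖ = ‖y‖ * ∏ i, ‖dt v (H.kd w y i)‖ := by
  rw [kd, dif_pos h]
  exact (H.kids w y h.1 h.2).choose_spec

theorem in_ctr (w : H.Y.V) : H.In w (H.ctr w) :=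
  ⟨H.ne w, by rw [dl_self]; exact H.r0.trans H.rR⟩

theorem It.top {w : H.Y.V} {l : List (Fin d)} {x : Vc p} (h : H.It w l x) :
    H.In (H.Y.cell w l) x := by
  cases l with
  | nil => exact h
  | cons a l => exact h.1

theorem It.inj {w w' : H.Y.V} {l l' : List (Fin d)} {x : Vc p} (h : H.It w l x)
    (h' : H.It w' l' x) (e : l.length = l'.length) : w = w' ∧ l = l' := by
  induction l generalizing l' x with
  | nil =>
    obtain rfl := List.length_eq_zero_iff.mp e.symm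
    exact ⟨H.uniq h h', rfl⟩
  | cons a l ih =>
    obtain ⟨a', m, rfl⟩ := List.exists_cons_of_length_eq_add_one e.symm
    obtain ⟨rfl, rfl⟩ := ih h.2 h'.2 (by simpa using e)
    exact ⟨rfl, by rw [H.Y.inj _ (H.uniq h.1 h'.1)]⟩

theorem It.drop {w : H.Y.V} {l : List (Fin d)} {x : Vc p} (h : H.It w l x) (i : ℕ)
    (hi : i ≤ l.length) : H.In (H.Y.cell w (l.drop i)) (Ψ^[i] x) := by
  induction l generalizing x i with
  | nil =>
    obtain rfl := Nat.le_zero.mp hi
    exact h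
  | cons a l ih =>
    cases i with
    | zero => exact h.1
    | succ i => exact ih h.2 i (by simpa using hi)

theorem pt_app (w : H.Y.V) (y : Vc p) (l l' : List (Fin d)) :
    H.pt w y (l ++ l') = H.pt (H.Y.cell w l') (H.pt w y l') l := by
  induction l with
  | nil => rfl
  | cons a l ih => rw [List.cons_append, pt, ih, pt, Sym.cell_app]

variable (Fm : Frm d Ψ ρ0)
include Fm

theorem pt_in {w : H.Y.V} {y : Vc p} (h : H.In w y) (l : List (Fin d)) :
    H.In (H.Y.cell w l) (H.pt w y l) := by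
  induction l with
  | nil => exact h
  | cons a l ih =>
    have k := (kd_spec ih).1 a
    exact ⟨fun e => ih.1 (by rw [← k.1]; exact (congrArg Ψ e).trans Fm.zero), k.2.1⟩

theorem pt_up {w : H.Y.V} {y : Vc p} (h : H.In w y) (a : Fin d) (l : List (Fin d)) :
    Ψ (H.pt w y (a :: l)) = H.pt w y l := ((kd_spec (pt_in Fm h l)).1 a).1

theorem pt_core {w : H.Y.V} {y : Vc p} (h : H.In w y) (h' : dl y (H.ctr w) ≤ H.r)
    (l : List (Fin d)) : dl (H.pt w y l) (H.ctr (H.Y.cell w l)) ≤ H.r := by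
  induction l with
  | nil => exact h'
  | cons a l ih => exact ((kd_spec (pt_in Fm h l)).1 a).2.2 ih

theorem pt_it {w : H.Y.V} {y : Vc p} (h : H.In w y) (l : List (Fin d)) :
    H.It w l (H.pt w y l) := by
  induction l with
  | nil => exact h
  | cons a l ih => exact ⟨pt_in Fm h _, by rw [pt_up Fm h]; exact ih⟩

theorem pt_lift {w : H.Y.V} {y : Vc p} (h : H.In w y) (l : List (Fin d)) :
    Ψ^[l.length] (H.pt w y l) = y := by
  induction l with
  | nil => rfl
  | cons a l ih => rw [List.length_cons, Function.iterate_succ_apply, pt_up Fm h, ih]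

theorem pt_lam {w : H.Y.V} {y : Vc p} (h : H.In w y) (a : Fin d) (l : List (Fin d)) :
    1 ≤ H.lam (H.pt w y (a :: l)) ∧ H.lam (H.pt w y (a :: l)) * ρ0 ≤ 1 :=
  H.lam1 _ _ _ (pt_in Fm h _).1 (pt_in Fm h _).2 (by rw [pt_up Fm h]; exact (pt_in Fm h l).2)

theorem eps_bd {w : H.Y.V} {y : Vc p} (h : H.In w y) (l : List (Fin d)) :
    ρ0 ^ l.length ≤ H.eps w y l ∧ H.eps w y l ≤ 1 := by
  induction l with
  | nil => exact ⟨le_of_eq (pow_zero _), le_rfl⟩
  | cons a l ih =>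
    obtain ⟨l1, l2⟩ := pt_lam Fm h a l
    have p0 := pow_pos Fm.pos l.length
    rw [eps, List.length_cons, le_div_iff₀ (by linarith), div_le_one (by linarith), pow_succ]
    exact ⟨by nlinarith [ih.1], ih.2.trans l1⟩

/-- the same itinerary: distances are expanded exactly -/
theorem exp_word {w : H.Y.V} {y : Vc p} (h : H.In w y) {l : List (Fin d)} {x : Vc p}
    (hx : H.It w l x) : dl (Ψ^[l.length] x) y * H.eps w y l = dl x (H.pt w y l) := by
  induction l generalizing x with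
  | nil => exact mul_one _
  | cons a l ih =>
    have l1 := (pt_lam Fm h a l).1
    have e := H.exp _ _ _ x (pt_in Fm h (a :: l)).1 (pt_in Fm h _).2
      (by rw [pt_up Fm h]; exact (pt_in Fm h l).2) hx.1.1 hx.1.2 hx.2.top.2
    rw [pt_up Fm h] at e
    rw [List.length_cons, Function.iterate_succ_apply, eps, ← mul_div_assoc, ih hx.2, e,
      mul_div_cancel_left₀ _ (by linarith)]

/-- a close point has the same itinerary -/
theorem conf_word {w : H.Y.V} {y : Vc p} (h : H.In w y) {l : List (Fin d)} {x : Vc p}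
    (x0 : x ≠ 0) (hx : dl x (H.pt w y l) < H.R * H.eps w y l) : H.It w l x := by
  have R0 := H.r0.trans H.rR
  induction l generalizing x with
  | nil => exact ⟨x0, dl_lt h.1 (by simpa [eps, pt] using hx) h.2⟩
  | cons a l ih =>
    have l1 := (pt_lam Fm h a l).1
    have i1 := pt_in Fm h (a :: l)
    have b1 := mul_le_mul_of_nonneg_left (eps_bd Fm h (a :: l)).2 R0.le
    have b2 := mul_le_mul_of_nonneg_left (eps_bd Fm h l).2 R0.le
    refine ⟨⟨x0, dl_lt i1.1 (by linarith) i1.2⟩, ih (Fm.ne x0) ?_⟩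
    rw [eps, ← mul_div_assoc, lt_div_iff₀' (by linarith)] at hx
    have e := H.conf _ _ _ x i1.1 i1.2 (by rw [pt_up Fm h]; exact (pt_in Fm h l).2) x0
      (by linarith)
    rw [pt_up Fm h] at e
    rwa [e]

theorem pt_sep {w : H.Y.V} {y : Vc p} (h : H.In w y) {l l' : List (Fin d)}
    (e : l.length = l'.length) (ne : l ≠ l') :
    H.R * ρ0 ^ l.length ≤ dl (H.pt w y l) (H.pt w y l') := by
  have R0 := H.r0.trans H.rR
  refine not_lt.mp fun hc => ne ?_
  rw [dl_comm] at hc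
  exact (It.inj (conf_word Fm h (pt_in Fm h l').1 (hc.trans_le
    (mul_le_mul_of_nonneg_left (eps_bd Fm h l).1 R0.le))) (pt_it Fm h l') e).2

theorem pt_prod {w : H.Y.V} {y : Vc p} (h : H.In w y) (n : ℕ) : ∃ c : ℝ, 0 < c ∧
    ∀ v, ∏ l ∈ wds d n, ‖dt v (H.pt w y l)‖ = c * ‖dt (Ψ^[n] v) y‖ := by
  induction n with
  | zero => exact ⟨1, one_pos, fun v => by simp [wds, pt]⟩
  | succ n ih =>
    obtain ⟨c, c0, hc⟩ := ih
    refine ⟨(∏ l ∈ wds d n, (∏ a, ‖H.pt w y (a :: l)‖) / ‖H.pt w y l‖) * c,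
      mul_pos (prod_pos fun l _ => div_pos (prod_pos fun a _ => norm_pos_iff.mpr (pt_in Fm h _).1)
        (norm_pos_iff.mpr (pt_in Fm h _).1)) c0, fun v => ?_⟩
    rw [prod_wds, Function.iterate_succ_apply, mul_assoc, ← hc, ← prod_mul_distrib]
    refine prod_congr rfl fun l _ => ?_
    have e := (kd_spec (pt_in Fm h l)).2 v
    rw [div_mul_eq_mul_div, eq_div_iff (norm_ne_zero_iff.mpr (pt_in Fm h l).1), mul_comm,
      mul_comm _ ‖dt (Ψ v) (H.pt w y l)‖]
    exact e.symm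

end Hyp

theorem Hyp.model (H : Hyp d Ψ ρ0) (Fm : Frm d Ψ ρ0) (n : ℕ) : ∃ I z γ, Mod H n I z γ := by
  classical
  have h0 := Hyp.in_ctr (H := H) H.Y.root
  have R0 := H.r0.trans H.rR
  obtain ⟨c, c0, hc⟩ := Hyp.pt_prod Fm h0 n
  refine ⟨wds d n, H.pt H.Y.root (H.ctr H.Y.root), Real.log c, card_wds n, fun l hl => ?_,
    fun v => by rw [Real.exp_log c0, hc], fun l hl l' hl' ne => ?_, fun l hl v v0 hv => ?_,
    fun j k Rl hj => ?_⟩
  · rw [← mem_wds.mp hl]; exact Hyp.pt_lift Fm h0 l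
  · have := Hyp.pt_sep Fm h0 ((mem_wds.mp hl).trans (mem_wds.mp hl').symm) ne
    rwa [mem_wds.mp hl] at this
  · rw [← mem_wds.mp hl] at hv ⊢
    have b := Hyp.eps_bd Fm h0 l
    rw [← Hyp.exp_word Fm h0 (Hyp.conf_word Fm h0 v0 (hv.trans_le
      (mul_le_mul_of_nonneg_left b.1 R0.le)))]
    exact mul_le_of_le_one_right (dl_nonneg _ _) b.2
  refine ⟨(H.Y.lvl k ×ˢ wds d (j + 1)).filter fun i =>
      Rl (H.Y.cell i.1 i.2) (H.Y.cell i.1 (i.2.drop j)),
    fun i => H.pt i.1 (H.ctr i.1) i.2, fun i => H.eps i.1 (H.ctr i.1) i.2, ?_, fun i hi => ?_,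
    fun i hi i' hi' ne x x0 a a' => ?_, fun i hi x x0 a => ?_, ?_⟩
  · refine (card_filter_le _ _).trans ?_
    rw [card_product, card_wds, show j + k + 2 = k + 1 + (j + 1) by ring, pow_add d (k + 1)]
    exact Nat.mul_le_mul_right _ (H.Y.card_lvl k)
  · rw [← mem_wds.mp (mem_product.mp (mem_filter.mp hi).1).2]
    exact ⟨(Hyp.pt_in Fm (Hyp.in_ctr _) _).1, (Hyp.eps_bd Fm (Hyp.in_ctr _) _).1⟩
  · have := Hyp.It.inj (Hyp.conf_word Fm (Hyp.in_ctr _) x0 a)
      (Hyp.conf_word Fm (Hyp.in_ctr _) x0 a')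
      ((mem_wds.mp (mem_product.mp (mem_filter.mp hi).1).2).trans
        (mem_wds.mp (mem_product.mp (mem_filter.mp hi').1).2).symm)
    exact ne (Prod.ext this.1 this.2)
  · have it := Hyp.conf_word Fm (Hyp.in_ctr _) x0 a
    obtain ⟨m1, m2⟩ := mem_filter.mp hi
    have len := mem_wds.mp (mem_product.mp m1).2
    refine ⟨fun s => H.Y.cell i.1 (i.2.drop s), fun s hs => it.drop s (len ▸ hs), ?_, m2⟩
    simp only [List.drop_of_length_le len.le]
    exact H.Y.mem_lvl.mp (mem_product.mp m1).1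
  obtain ⟨m, rfl⟩ := Nat.exists_eq_add_of_le' hj
  have d0 : (d : ℝ) ≠ 0 := by rcases H.Y.hd with e | e <;> rw [e] <;> norm_num
  rw [Sym.mass, Nat.add_sub_cancel, pow_add, mul_right_comm, Sym.T_sum, sum_mul, sum_wds_add]
  refine sum_le_sum fun l2 hl2 => ?_
  rw [add_comm j 1, sum_wds_add, ← zero_add 1, sum_wds, wds, sum_singleton, Sym.T, zero_add,
    pow_add, pow_one, mul_assoc, ← mul_assoc _ (d : ℝ), div_mul_cancel₀ _ d0, sum_mul, mul_sum]
  refine sum_le_sum fun a _ => ?_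
  rw [mul_comm _ ((d : ℝ) ^ j), Sym.T_sum, mul_sum]
  refine sum_le_sum fun l1 hl1 => ?_
  rw [← ind_and]
  refine ind_mono fun hh => ?_
  have len : (l1 ++ [a]).length = j + 1 := by rw [List.length_append, mem_wds.mp hl1]; rfl
  refine ⟨(H.Y.cell H.Y.root l2, l1 ++ [a]), mem_filter.mpr ⟨mem_product.mpr
    ⟨H.Y.mem_lvl.mpr hh.1, mem_wds.mpr (len.trans (add_comm j 1))⟩, ?_⟩, ?_⟩
  · rw [List.drop_left' (mem_wds.mp hl1), Sym.cell_app]
    exact hh.2
  · have i2 := Hyp.pt_in Fm h0 l2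
    rw [Hyp.pt_app, ← Hyp.exp_word Fm (Hyp.in_ctr _) (Hyp.pt_it Fm i2 _), Hyp.pt_lift Fm i2]
    exact mul_le_mul_of_nonneg_right
      (Hyp.pt_core Fm h0 (by rw [dl_self]; exact H.r0.le) l2)
      ((pow_pos Fm.pos _).le.trans (Hyp.eps_bd Fm (Hyp.in_ctr _) _).1)

end Pool.Agent.Lib.MP_a2c890_nt.R
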