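import Pool.Agent.Lib.MP_a2c890_nt.R.Ker
import Pool.Agent.Lib.MP_a2c890_nt.R.Model

set_option autoImplicit false
set_option linter.unusedSectionVars false

namespace Pool.Agent.Lib.MP_a2c890_nt.R

open Finset T

variable {p : ℕ} [Fact p.Prime] {d : ℕ} {Ψ : Vc p → Vc p} {ρ0 : ℝ}

/-- smoothed kernel on lifts -/
noncomputable def kap (ε : ℝ) (a b : Vc p) : ℝ :=
  Real.log (max (dl a b) ε) + Real.log ‖a‖ + Real.log ‖b‖

theorem kap_comm (ε : ℝ) (a b : Vc p) : kap ε a b = kap ε b a := by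
  rw [kap, kap, dl_comm]; ring

theorem kap_self {ε : ℝ} (h : 0 < ε) (a : Vc p) : kap ε a a = Real.log ε + 2 * Real.log ‖a‖ := by
  rw [kap, dl_self, max_eq_right h.le]; ring

theorem log_dt {a b : Vc p} (ha : a ≠ 0) (hb : b ≠ 0) (h : dl a b ≠ 0) :
    Real.log ‖dt a b‖ = Real.log (dl a b) + Real.log ‖a‖ + Real.log ‖b‖ := by
  have a0 := norm_ne_zero_iff.mpr ha
  have b0 := norm_ne_zero_iff.mpr hb
  rw [norm_dt ha hb, Real.log_mul h (mul_ne_zero a0 b0), Real.log_mul a0 b0, add_assoc]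

theorem max_sq_le {x y : ℝ} (h : x ≤ y) : max x 0 ^ 2 ≤ y ^ 2 := by
  rcases le_total x 0 with h' | h'
  · rw [max_eq_right h']; simpa using sq_nonneg y
  · rw [max_eq_left h']; gcongr

open Classical in
theorem en_split {α : Type} (X : Finset α) (v : α → Vc p) (ε : ℝ) :
    ∑ a ∈ X, ∑ b ∈ X, kap ε (v a) (v b) =
      ∑ a ∈ X, kap ε (v a) (v a) + ∑ a ∈ X, ∑ b ∈ X.erase a, kap ε (v a) (v b) := by
  rw [← sum_add_distrib]
  exact sum_congr rfl fun a ha => (add_sum_erase _ _ ha).symm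

theorem en_eq {α : Type} (X : Finset α) (v : α → Vc p) {ε : ℝ} (ε0 : 0 < ε)
    (h0 : ∀ a ∈ X, v a ≠ 0) (h : ∀ a ∈ X, ∀ b ∈ X, a ≠ b → ε ≤ dl (v a) (v b)) :
    ∑ a ∈ X, ∑ b ∈ X, kap ε (v a) (v b) = ∑ a ∈ X, kap ε (v a) (v a) + en X v := by
  classical
  rw [en_split, en]
  congr 1
  refine sum_congr rfl fun a ha => sum_congr rfl fun b hb => ?_
  obtain ⟨c1, c2⟩ := mem_erase.mp hb
  have := h a ha b c2 c1.symm
  rw [kap, max_eq_left this, log_dt (h0 a ha) (h0 b c2) (ε0.trans_le this).ne']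

theorem Mod.pot {H : Hyp d Ψ ρ0} (Fm : Frm d Ψ ρ0) {n : ℕ} {I : Finset (List (Fin d))}
    {z : List (Fin d) → Vc p} {γ : ℝ} (Md : Mod H n I z γ) {π : PadicAlgCl p} (π0 : π ≠ 0)
    (hπ : ‖π‖ < H.R * ρ0 ^ n) :
    (∀ a, a ≠ 0 → ∑ l ∈ I, kap ‖π‖ a (z l) ≤
      γ + Real.log ‖Ψ^[n] a‖ + Real.log ‖H.ctr H.Y.root‖) ∧
    ∀ l ∈ I, γ + Real.log ‖π‖ + 2 * Real.log ‖H.ctr H.Y.root‖ ≤ ∑ l' ∈ I, kap ‖π‖ (z l) (z l') := by
  have c0 := H.ne H.Y.root
  have p0 := norm_pos_iff.mpr π0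
  have r1 : ‖π‖ < ρ0 ^ n := hπ.trans_le (mul_le_of_le_one_left (pow_pos Fm.pos n).le H.R1)
  have z0 : ∀ l ∈ I, z l ≠ 0 := fun l hl h => c0 (by rw [← Md.lift l hl, h, Fm.iter_zero])
  have key : ∀ a, a ≠ 0 → ∃ a' : Vc p, a' ≠ 0 ∧ (∀ l ∈ I, dl a' (z l) = max (dl a (z l)) ‖π‖) ∧
      0 < dl (Ψ^[n] a') (H.ctr H.Y.root) ∧ ∑ l ∈ I, kap ‖π‖ a (z l) =
        γ + Real.log (dl (Ψ^[n] a') (H.ctr H.Y.root)) + Real.log ‖Ψ^[n] a‖ +
          Real.log ‖H.ctr H.Y.root‖ := fun a ha => by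
    obtain ⟨a', h1, h2, h3⟩ := ex_gen ha π0 (r1.trans_le (pow_le_one₀ Fm.pos.le Fm.le_one)) I z z0
    have a0 : a' ≠ 0 := norm_ne_zero_iff.mp (h1 ▸ norm_ne_zero_iff.mpr ha)
    have h4 : ∀ l ∈ I, dl a' (z l) ≠ 0 := fun l hl =>
      (h3 l hl ▸ lt_max_of_lt_right p0 : 0 < dl a' (z l)).ne'
    have h5 : ∀ l ∈ I, ‖dt a' (z l)‖ ≠ 0 := fun l hl h =>
      h4 l hl ((dl_eq_zero a0 (z0 l hl)).mpr (norm_eq_zero.mp h))
    have h6 : ‖dt (Ψ^[n] a') (H.ctr H.Y.root)‖ ≠ 0 :=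
      right_ne_zero_of_mul (Md.prod a' ▸ prod_ne_zero_iff.mpr h5)
    have h7 : dl (Ψ^[n] a') (H.ctr H.Y.root) ≠ 0 := fun h =>
      h6 (norm_eq_zero.mpr ((dl_eq_zero (Fm.iter_ne n a0) c0).mp h))
    refine ⟨a', a0, h3, (dl_nonneg _ _).lt_of_ne' h7, ?_⟩
    have h8 := congrArg Real.log (Md.prod a')
    rw [Real.log_prod h5, Real.log_mul (Real.exp_pos γ).ne' h6, Real.log_exp,
      log_dt (Fm.iter_ne n a0) c0 h7, Fm.iter_near n ha h1 (h2.trans_lt r1)] at h8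
    rw [sum_congr rfl (g := fun l => Real.log ‖dt a' (z l)‖) fun l hl => by
      rw [log_dt a0 (z0 l hl) (h4 l hl), h3 l hl, h1, kap], h8]
    ring
  refine ⟨fun a ha => ?_, fun l hl => ?_⟩
  · obtain ⟨a', -, -, h2, h3⟩ := key a ha
    linarith [Real.log_nonpos h2.le (dl_le_one _ _)]
  · obtain ⟨a', h0, h1, -, h3⟩ := key _ (z0 l hl)
    have h4 := h1 l hl
    rw [dl_self, max_eq_right p0.le] at h4
    have h5 := Md.exp l hl a' h0 (h4 ▸ hπ)
    rw [h4] at h5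
    rw [h3, Md.lift l hl]
    linarith [Real.log_le_log p0 h5]

theorem sub_arith {M N γ g β E E' : ℝ} (M2 : 2 ≤ M) (MN : M ≤ N) (g0 : 0 ≤ g) (β0 : 0 ≤ β)
    (hγ : γ ≤ g) (h1 : N * (N * γ - β) ≤ E) (h2 : M * (M - 1) * E ≤ N * (N - 1) * E') :
    M ^ 2 * γ - M * (g + β) ≤ E' := by
  have N1 : 0 < N - 1 := by linarith
  have N0 : 0 < N := by linarith
  have h3 : N * (M * (M - 1) * (N * γ - β)) ≤ N * ((N - 1) * E') := by
    have := mul_le_mul_of_nonneg_left h1 (show 0 ≤ M * (M - 1) by nlinarith)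
    nlinarith
  have h4 := le_of_mul_le_mul_left h3 N0
  refine le_of_mul_le_mul_left (le_trans ?_ h4) N1
  have h5 : (N - M) * γ ≤ (N - 1) * g := by nlinarith
  have h6 : (M - 1) * β ≤ (N - 1) * β := by gcongr
  nlinarith [mul_le_mul_of_nonneg_left h5 (show 0 ≤ M by linarith),
    mul_le_mul_of_nonneg_left h6 (show 0 ≤ M by linarith)]

/-- the local energy inequality -/
theorem Hyp.energy (H : Hyp d Ψ ρ0) (Fm : Frm d Ψ ρ0) {B : ℝ} (hB : 1 ≤ B) :
    ∃ C B' : ℝ, 0 ≤ C ∧ ∀ n M : ℕ, 0 < M → M ≤ d ^ n → ∃ γ : ℝ,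
      (∃ (X : Finset (List (Fin d))) (v : List (Fin d) → Vc p), X.card = M ∧
        (∀ a ∈ X, ∀ j, j ≤ n → ‖Ψ^[j] (v a)‖ ≤ B') ∧
        (∀ a ∈ X, ∀ b ∈ X, a ≠ b → dt (v a) (v b) ≠ 0) ∧
        (M : ℝ) ^ 2 * γ - C * M * (n + 1) ≤ en X v) ∧
      ∀ (α : Type) (X : Finset α) (v : α → Vc p), X.card = M →
        (∀ a ∈ X, B⁻¹ ≤ ‖v a‖ ∧ ‖Ψ^[n] (v a)‖ ≤ B) →
        (∀ a ∈ X, ∀ b ∈ X, a ≠ b → dt (v a) (v b) ≠ 0) →
        ∀ (j k : ℕ) (Rl : H.Y.V → H.Y.V → Prop) (μ : ℝ), j + 1 ≤ n → μ ≤ H.Y.mass n j k Rl →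
          Real.log (H.R / H.r) *
              max (μ - (∑ a ∈ X, ind (H.Y.Ev Ψ H.In j k Rl (v a))) / M) 0 ^ 2 ≤
            (d : ℝ) ^ (j + k + 2) * (C * (n + 1) / M + γ - en X v / (M : ℝ) ^ 2) := by
  classical
  have c0 := H.ne H.Y.root
  obtain ⟨B', hB', bd⟩ := Fm.bdd c0
  have ρp := Fm.pos
  have ρ1 := Fm.le_one
  have r0 := H.r0
  have r1 : H.r ≤ 1 := H.rR.le.trans H.R1
  obtain ⟨e0, he0⟩ := exists_pow_lt_of_lt_one (mul_pos r0 ρp) (np1 (p := p))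
  rw [← norm_pow] at he0
  set π0 := (p : PadicAlgCl p) ^ e0 with hπ0
  have π00 : π0 ≠ 0 := pow_ne_zero _ (norm_pos_iff.mp np0)
  have L0 : 0 ≤ -Real.log ‖π0‖ := neg_nonneg.mpr (Real.log_nonpos (norm_nonneg _)
    (he0.le.trans (mul_le_one₀ r1 ρp.le ρ1)))
  have β0 := Real.log_nonneg hB
  have β1 := Real.log_nonneg hB'
  have lb : ∀ {A : ℝ} {x : ℝ}, 1 ≤ A → A⁻¹ ≤ x → -Real.log A ≤ Real.log x := fun h h' => by
    rw [← Real.log_inv]; exact Real.log_le_log (by positivity) h'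
  refine ⟨2 * -Real.log ‖π0‖ + 4 * Real.log B + 8 * Real.log B', B', by positivity,
    fun n M M0 MN => ?_⟩
  obtain ⟨I, z, γ0, Md⟩ := H.model Fm n
  have πn : π0 ^ (n + 1) ≠ 0 := pow_ne_zero _ π00
  have ε0 := norm_pos_iff.mpr πn
  have ε1 : ‖π0 ^ (n + 1)‖ ≤ H.r * ρ0 ^ n := by
    rw [norm_pow]
    refine (pow_le_pow_left₀ (norm_nonneg _) he0.le _).trans ?_
    rw [mul_pow]
    exact mul_le_mul (pow_le_of_le_one r0.le r1 n.succ_ne_zero)
      (pow_le_pow_of_le_one ρp.le ρ1 n.le_succ) (by positivity) r0.le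
  have ε2 : ‖π0 ^ (n + 1)‖ < H.R * ρ0 ^ n := ε1.trans_lt (by gcongr; exact H.rR)
  have ε3 : Real.log ‖π0 ^ (n + 1)‖ = -((n + 1) * -Real.log ‖π0‖) := by
    rw [norm_pow, Real.log_pow]; push_cast; ring
  obtain ⟨P1, P2⟩ := Md.pot Fm πn ε2
  set ε := ‖π0 ^ (n + 1)‖ with hε
  have εle : ε ≤ 1 := ε1.trans (mul_le_one₀ r1 (by positivity) (pow_le_one₀ ρp.le ρ1))
  have z0 : ∀ l ∈ I, z l ≠ 0 := fun l hl h => c0 (by rw [← Md.lift l hl, h, Fm.iter_zero])
  have zb : ∀ l ∈ I, Real.log ‖z l‖ ≤ Real.log B' := fun l hl =>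
    Real.log_le_log (norm_pos_iff.mpr (z0 l hl)) (bd n _ (Md.lift l hl) 0 (Nat.zero_le n)).2
  have cl := lb hB' (bd 0 _ rfl 0 le_rfl).1
  have cu := Real.log_le_log (norm_pos_iff.mpr c0) (bd 0 _ rfl 0 le_rfl).2
  simp only [Function.iterate_zero, id] at cl cu
  have M1 : (1 : ℝ) ≤ M := by exact_mod_cast M0
  have MN' : (M : ℝ) ≤ I.card := by rw [Md.card]; exact_mod_cast MN
  have N1 : (1 : ℝ) ≤ I.card := M1.trans MN'
  have n1 : (1 : ℝ) ≤ n + 1 := by linarith [Nat.cast_nonneg (α := ℝ) n]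
  have zs : ∀ l ∈ I, ∀ l' ∈ I, l ≠ l' → ε ≤ dl (z l) (z l') := fun l hl l' hl' h =>
    ε2.le.trans (Md.sep l hl l' hl' h)
  have A3 : I.card * (γ0 - (n + 1) * -Real.log ‖π0‖ - 2 * Real.log B') ≤
      ∑ l ∈ I, ∑ l' ∈ I, kap ε (z l) (z l') := by
    rw [← nsmul_eq_mul]
    exact card_nsmul_le_sum _ _ _ fun l hl => by linarith [P2 l hl]
  have γu : γ0 / I.card ≤ (-Real.log ‖π0‖ + 4 * Real.log B') * (n + 1) := by
    have a1 : ∑ l ∈ I, ∑ l' ∈ I, kap ε (z l) (z l') ≤ I.card * (I.card * (2 * Real.log B')) := by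
      rw [← nsmul_eq_mul]
      refine sum_le_card_nsmul _ _ _ fun l hl => ?_
      rw [← nsmul_eq_mul]
      refine sum_le_card_nsmul _ _ _ fun l' hl' => ?_
      have := Real.log_nonpos (lt_max_of_lt_right ε0).le (max_le (dl_le_one (z l) (z l')) εle)
      rw [kap]
      linarith [zb l hl, zb l' hl']
    have a2 := le_of_mul_le_mul_left (A3.trans a1) (by linarith)
    rw [div_le_iff₀ (by linarith)]
    have a3 : (n + 1) * -Real.log ‖π0‖ ≤ (n + 1) * -Real.log ‖π0‖ * I.card :=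
      le_mul_of_one_le_right (by positivity) N1
    have a4 : Real.log B' ≤ I.card * Real.log B' := le_mul_of_one_le_left β1 N1
    have a5 : I.card * Real.log B' ≤ I.card * Real.log B' * (n + 1) :=
      le_mul_of_one_le_right (by positivity) n1
    nlinarith
  refine ⟨γ0 / I.card, ?_, fun α X v hX hv hne j k Rl μ hj hμ => ?_⟩
  · obtain ⟨X', x1, x2, x3⟩ := sub_en I z (M := M) (Md.card ▸ MN)
    refine ⟨X', z, x2, fun a ha i hi => (bd n _ (Md.lift a (x1 ha)) i hi).2,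
      fun a ha b hb hab h => ?_, ?_⟩
    · have := zs a (x1 ha) b (x1 hb) hab
      rw [(dl_eq_zero (z0 a (x1 ha)) (z0 b (x1 hb))).mpr h] at this
      exact absurd ε0 (not_lt.mpr this)
    have b1 : 4 * Real.log B' ≤ 4 * Real.log B' * (n + 1) :=
      le_mul_of_one_le_right (by positivity) n1
    have b2 : 0 ≤ (-Real.log ‖π0‖ + 4 * Real.log B) * (n + 1) := by positivity
    rcases Nat.lt_or_ge M 2 with h | h
    · obtain rfl : M = 1 := by omega
      obtain ⟨a, rfl⟩ := card_eq_one.mp x2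
      simp only [en, sum_singleton, erase_singleton, sum_empty, Nat.cast_one]
      nlinarith
    · have e1 : I.card * (I.card * (γ0 / I.card) - 4 * Real.log B') ≤ en I z := by
        have a1 := en_eq I z ε0 z0 zs
        have a2 : ∑ a ∈ I, kap ε (z a) (z a) ≤
            I.card * (-((n + 1) * -Real.log ‖π0‖) + 2 * Real.log B') := by
          rw [← nsmul_eq_mul]
          exact sum_le_card_nsmul _ _ _ fun l hl => by
            rw [kap_self ε0, ε3]; linarith [zb l hl]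
        rw [mul_div_cancel₀ _ (by linarith)]
        linarith
      have := sub_arith (by exact_mod_cast h) MN' (by positivity) (by positivity) γu e1 x3
      refine le_trans ?_ this
      nlinarith [mul_le_mul_of_nonneg_left b1 (zero_le_one.trans M1),
        mul_nonneg (zero_le_one.trans M1) b2]
  obtain ⟨J, c, ε', j1, j2, j3, j4, j5⟩ := Md.disc j k Rl hj
  have v0 : ∀ a ∈ X, v a ≠ 0 := fun a ha =>
    norm_pos_iff.mp (lt_of_lt_of_le (by positivity) (hv a ha).1)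
  have Mp : (0 : ℝ) < M := by linarith
  have Np : (0 : ℝ) < I.card := by linarith
  let fx : Vc p → Vc p := fun a => if a = 0 then H.ctr H.Y.root else a
  have f0 : ∀ a, fx a ≠ 0 := fun a => by
    by_cases h : a = 0
    · simpa only [fx, if_pos h] using c0
    · simpa only [fx, if_neg h] using h
  have f1 : ∀ {a}, a ≠ 0 → fx a = a := fun h => if_neg h
  let lo : H.Y.V × List (Fin d) → ℝ := fun i =>
    max ((∑ l ∈ I, ind (dl (z l) (c i) ≤ H.r * ε' i)) / I.card -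
      (∑ a ∈ X, ind (dl (v a) (c i) < H.R * ε' i)) / M) 0
  have ws : ∀ h : α ⊕ List (Fin d) → ℝ, ∑ a ∈ X.disjSum I,
      Sum.elim (fun _ => -(M : ℝ)⁻¹) (fun _ => (I.card : ℝ)⁻¹) a * h a =
        (∑ l ∈ I, h (Sum.inr l)) / I.card - (∑ a ∈ X, h (Sum.inl a)) / M := fun h => by
    rw [sum_disjSum]
    simp only [Sum.elim_inl, Sum.elim_inr, ← mul_sum]
    ring
  have hc : ∑ a ∈ X.disjSum I,
      Sum.elim (fun _ => -(M : ℝ)⁻¹) (fun _ => (I.card : ℝ)⁻¹) a = 0 := by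
    have := ws fun _ => 1
    simp only [mul_one, sum_const, nsmul_eq_mul, hX] at this
    rw [this, div_self Np.ne', div_self Mp.ne', sub_self]
  have main := disc2 (fun a b => dl (fx a) (fx b)) (fun a b => dl_comm _ _)
    (fun a b e => dl_tri _ (f0 b) _) (X.disjSum I) (Sum.elim v z) _ hc ε0 r0 H.rR.le J c ε'
    (fun i hi => ε1.trans (mul_le_mul_of_nonneg_left
      ((pow_le_pow_of_le_one ρp.le ρ1 hj).trans (j2 i hi).2) r0.le))
    (fun i hi i' hi' h x => by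
      simp only [f1 (j2 i hi).1, f1 (j2 i' hi').1]
      exact j3 i hi i' hi' h _ (f0 x)) lo fun i hi t t1 t2 => by
      have e0 : 0 < ε' i := (pow_pos ρp _).trans_le (j2 i hi).2
      rw [ws]
      refine max_sq_le (sub_le_sub (div_le_div_of_nonneg_right (sum_le_sum fun l hl => ind_mono ?_)
        Np.le) (div_le_div_of_nonneg_right (sum_le_sum fun a ha => ind_mono ?_) Mp.le))
      · simp only [Sum.elim_inr, f1 (z0 l hl), f1 (j2 i hi).1]
        exact fun h => h.trans (by gcongr)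
      · simp only [Sum.elim_inl, f1 (v0 a ha), f1 (j2 i hi).1]
        exact fun h => h.trans_lt (by gcongr)
  have pt0 : ∀ a ∈ X.disjSum I, Sum.elim v z a ≠ 0 := fun a ha => by
    rcases a with a | a
    · exact v0 a (inl_mem_disjSum.mp ha)
    · exact z0 a (inr_mem_disjSum.mp ha)
  have ex : ∑ a ∈ X.disjSum I, ∑ b ∈ X.disjSum I,
      Sum.elim (fun _ => -(M : ℝ)⁻¹) (fun _ => (I.card : ℝ)⁻¹) a *
        Sum.elim (fun _ => -(M : ℝ)⁻¹) (fun _ => (I.card : ℝ)⁻¹) b *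
          Real.log (max (dl (fx (Sum.elim v z a)) (fx (Sum.elim v z b))) ε) =
      ((∑ l ∈ I, ∑ l' ∈ I, kap ε (z l) (z l')) / I.card -
        (∑ a ∈ X, ∑ l ∈ I, kap ε (v a) (z l)) / M) / I.card -
      ((∑ a ∈ X, ∑ l ∈ I, kap ε (v a) (z l)) / I.card -
        (∑ a ∈ X, ∑ b ∈ X, kap ε (v a) (v b)) / M) / M := by
    set cf : α ⊕ List (Fin d) → ℝ := Sum.elim (fun _ => -(M : ℝ)⁻¹) (fun _ => (I.card : ℝ)⁻¹)
    rw [sum_congr rfl (g := fun a => cf a * ∑ b ∈ X.disjSum I,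
        cf b * kap ε (Sum.elim v z a) (Sum.elim v z b) - cf a * ∑ b ∈ X.disjSum I,
          cf b * Real.log ‖Sum.elim v z b‖) fun a ha => by
      have : ∑ b ∈ X.disjSum I, cf b * Real.log ‖Sum.elim v z a‖ = 0 := by
        rw [← sum_mul, hc, zero_mul]
      rw [← mul_sub, ← sub_zero (_ - _), ← this, ← sum_sub_distrib, ← sum_sub_distrib, mul_sum]
      refine sum_congr rfl fun b hb => ?_
      rw [f1 (pt0 a ha), f1 (pt0 b hb), kap]
      ring, sum_sub_distrib, ← sum_mul, hc, zero_mul, sub_zero, ws]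
    simp only [ws, Sum.elim_inl, Sum.elim_inr, sum_sub_distrib, ← sum_div]
    rw [sum_comm (s := I) (t := X)]
    simp only [kap_comm ε (z _) (v _)]
  have A1 : en X v - M * ((n + 1) * -Real.log ‖π0‖ + 2 * Real.log B) ≤
      ∑ a ∈ X, ∑ b ∈ X, kap ε (v a) (v b) := by
    have a2 : X.card • (-((n + 1) * -Real.log ‖π0‖ + 2 * Real.log B)) ≤
        ∑ a ∈ X, kap ε (v a) (v a) := card_nsmul_le_sum _ _ _ fun a ha => by
      rw [kap_self ε0, ε3]; linarith [lb hB (hv a ha).1]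
    rw [nsmul_eq_mul, hX] at a2
    rw [en_split, en]
    have a3 := sum_le_sum (s := X)
      (f := fun a => ∑ b ∈ X.erase a, Real.log ‖dt (v a) (v b)‖)
      (g := fun a => ∑ b ∈ X.erase a, kap ε (v a) (v b)) fun a ha => sum_le_sum fun b hb => by
        obtain ⟨c1, c2⟩ := mem_erase.mp hb
        have : dl (v a) (v b) ≠ 0 := fun h =>
          hne a ha b c2 c1.symm ((dl_eq_zero (v0 a ha) (v0 b c2)).mp h)
        rw [kap, log_dt (v0 a ha) (v0 b c2) this]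
        linarith [Real.log_le_log ((dl_nonneg _ _).lt_of_ne' this) (le_max_left _ ε)]
    linarith
  have A2 : ∑ a ∈ X, ∑ l ∈ I, kap ε (v a) (z l) ≤ M * (γ0 + Real.log B + Real.log B') := by
    rw [← hX, ← nsmul_eq_mul]
    exact sum_le_card_nsmul _ _ _ fun a ha => by
      linarith [P1 _ (v0 a ha),
        Real.log_le_log (norm_pos_iff.mpr (Fm.iter_ne n (v0 a ha))) (hv a ha).2]
  have c1 : 0 ≤ Real.log (H.R / H.r) := (Real.log_pos ((one_lt_div r0).mpr H.rR)).le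
  have fin : Real.log (H.R / H.r) * ∑ i ∈ J, lo i ^ 2 ≤
      (2 * -Real.log ‖π0‖ + 4 * Real.log B + 8 * Real.log B') * (n + 1) / M + γ0 / I.card -
        en X v / (M : ℝ) ^ 2 := by
    rw [ex, le_neg] at main
    refine main.trans ?_
    generalize ∑ l ∈ I, ∑ l' ∈ I, kap ε (z l) (z l') = S3 at *
    generalize ∑ a ∈ X, ∑ l ∈ I, kap ε (v a) (z l) = S2 at *
    generalize ∑ a ∈ X, ∑ b ∈ X, kap ε (v a) (v b) = S1 at *
    generalize -Real.log ‖π0‖ = L at *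
    generalize Real.log B = β at *
    generalize Real.log B' = β' at *
    generalize (I.card : ℝ) = N at *
    generalize (n : ℝ) + 1 = ν at *
    have t1 := div_le_div_of_nonneg_right A1 (sq_nonneg (M : ℝ))
    have t2 := div_le_div_of_nonneg_right A2 (mul_pos Mp Np).le
    have t3 := div_le_div_of_nonneg_right A3 (sq_nonneg N)
    have t4 : (ν * L + 2 * β + 4 * β') / N ≤ (ν * L + 2 * β + 4 * β') / M := by gcongr
    have t5 : (2 * (ν * L) + 4 * β + 4 * β') / M ≤ (2 * L + 4 * β + 8 * β') * ν / M := by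
      gcongr
      nlinarith [mul_le_mul_of_nonneg_left n1 β0, mul_le_mul_of_nonneg_left n1 β1]
    have e1 : -((S3 / N - S2 / M) / N - (S2 / N - S1 / M) / M) =
        -(S3 / N ^ 2) + 2 * (S2 / (M * N)) - S1 / M ^ 2 := by field_simp; ring
    have e2 : -(N * (γ0 - ν * L - 2 * β') / N ^ 2) + 2 * (M * (γ0 + β + β') / (M * N)) -
        (en X v - M * (ν * L + 2 * β)) / M ^ 2 = γ0 / N - en X v / M ^ 2 +
          (ν * L + 2 * β + 4 * β') / N + (2 * (ν * L) + 4 * β + 4 * β') / M -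
            (ν * L + 2 * β + 4 * β') / M := by field_simp; ring
    linarith
  have le1 : max (μ - (∑ a ∈ X, ind (H.Y.Ev Ψ H.In j k Rl (v a))) / M) 0 ≤ ∑ i ∈ J, lo i := by
    refine max_le (le_trans ?_ (sum_le_sum fun i _ => le_max_left _ _))
      (sum_nonneg fun i _ => le_max_right _ _)
    rw [sum_sub_distrib, ← sum_div, ← sum_div, sum_comm, sum_comm (s := J)]
    refine sub_le_sub ?_ (div_le_div_of_nonneg_right (sum_le_sum fun a ha => ?_) Mp.le)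
    · rw [le_div_iff₀ Np, Md.card, Nat.cast_pow, mul_comm]
      refine ((mul_le_mul_of_nonneg_left hμ (by positivity)).trans j5).trans
        (sum_le_sum fun l _ => ?_)
      by_cases h : ∃ i ∈ J, dl (z l) (c i) ≤ H.r * ε' i
      · rw [ind_pos h]
        obtain ⟨i, hi, h⟩ := h
        exact (ind_pos h).ge.trans (single_le_sum
          (f := fun i => ind (dl (z l) (c i) ≤ H.r * ε' i)) (fun _ _ => ind_nonneg _) hi)
      · rw [ind_neg h]; exact sum_nonneg fun _ _ => ind_nonneg _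
    · by_cases h : ∃ i ∈ J, dl (v a) (c i) < H.R * ε' i
      · obtain ⟨i, hi, h⟩ := h
        rw [ind_pos (j4 i hi _ (v0 a ha) h), sum_eq_single_of_mem i hi fun i' hi' h' =>
          ind_neg (j3 i hi i' hi' h'.symm _ (v0 a ha) h)]
        exact ind_le_one _
      · exact (sum_eq_zero fun i hi => ind_neg fun h' => h ⟨i, hi, h'⟩).le.trans (ind_nonneg _)
  have le2 : max (μ - (∑ a ∈ X, ind (H.Y.Ev Ψ H.In j k Rl (v a))) / M) 0 ^ 2 ≤
      (d : ℝ) ^ (j + k + 2) * ∑ i ∈ J, lo i ^ 2 :=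
    ((pow_le_pow_left₀ (le_max_right _ _) le1 2).trans sq_sum_le_card_mul_sum_sq).trans
      (mul_le_mul_of_nonneg_right (by exact_mod_cast j1) (sum_nonneg fun _ _ => sq_nonneg _))
  refine (mul_le_mul_of_nonneg_left le2 c1).trans ?_
  rw [mul_left_comm]
  exact mul_le_mul_of_nonneg_left fin (by positivity)

end Pool.Agent.Lib.MP_a2c890_nt.R
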