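import Pool.Agent.Lib.MP_a2c890_nt.R.En

set_option autoImplicit false
set_option linter.unusedSectionVars false

namespace Pool.Agent.Lib.MP_a2c890_nt.R

open Finset T

variable {p : ℕ} [Fact p.Prime] {d : ℕ} {Ψ : Vc p → Vc p} {ρ0 : ℝ}

theorem Lnk.iter (Fm : Frm d Ψ ρ0) {S : Sys d} {pos : S.Ω → Vc p} (L : Lnk S Ψ pos) {v : Vc p}
    {z : S.Ω} (h : dt v (pos z) = 0) (i : ℕ) : dt (Ψ^[i] v) (pos (S.f^[i] z)) = 0 := by
  induction i with
  | zero => exact h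
  | succ i ih =>
    rw [Function.iterate_succ_apply', Function.iterate_succ_apply']
    exact dt_trans (Fm.ne (L.ne _)) (Fm.par ih) (by rw [dt_swap, L.conj, neg_zero])

theorem num_bd {d J u n M : ℕ} (hd : d ≤ 3) (hJ : 4 * J ≤ u) (hn : n ≤ u + 1) (hM : 2 ^ u ≤ M) :
    (d : ℝ) ^ J * ((n + 1) / M) ≤ 10 * ((9 / 10 : ℝ) ^ u) ^ 2 := by
  have a1 : (d : ℝ) ^ J ≤ (4 / 3) ^ u := by
    refine le_trans ?_ (pow_le_pow_right₀ (by norm_num) hJ)
    rw [pow_mul]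
    exact pow_le_pow_left₀ (Nat.cast_nonneg _)
      ((show (d : ℝ) ≤ 3 by exact_mod_cast hd).trans (by norm_num)) J
  have a2 : (n : ℝ) + 1 ≤ 10 * (243 / 200) ^ u := by
    have b1 := one_add_mul_le_pow (a := (43 / 200 : ℝ)) (by norm_num) u
    have b2 : (n : ℝ) ≤ u + 1 := by exact_mod_cast hn
    rw [show (1 : ℝ) + 43 / 200 = 243 / 200 by norm_num] at b1
    linarith [Nat.cast_nonneg (α := ℝ) u]
  have a3 : (2 : ℝ) ^ u ≤ M := by exact_mod_cast hM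
  have a4 : ((9 / 10 : ℝ) ^ u) ^ 2 = (4 / 3) ^ u * ((243 / 200) ^ u / 2 ^ u) := by
    rw [← pow_mul, mul_comm u 2, pow_mul, ← div_pow, ← mul_pow]; norm_num
  rw [a4, mul_left_comm, ← mul_div_assoc 10]
  gcongr

theorem Hyp.equi (H : Hyp d Ψ ρ0) (Fm : Frm d Ψ ρ0) {S : Sys d} {pos : S.Ω → Vc p}
    (L : Lnk S Ψ pos) :
    ∃ C : ℝ, 0 ≤ C ∧ EQ S H.Y (fun v x => H.In v (pos x)) 4 C (9 / 10) := by
  obtain ⟨b0, b00, gl⟩ := L.gl
  obtain ⟨B, hB, bd⟩ := Fm.bdd b00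
  obtain ⟨C1, B', C10, hen⟩ := H.energy Fm hB
  obtain ⟨C2, C20, hgl⟩ := gl B'
  have c0 : 0 < Real.log (H.R / H.r) := Real.log_pos ((one_lt_div H.r0).mpr H.rR)
  have d2 := Fm.d2
  have d3 : d ≤ 3 := by rcases H.Y.hd with h | h <;> omega
  refine ⟨√(10 * (2 * C1 + 2 * C2) / Real.log (H.R / H.r)), Real.sqrt_nonneg _,
    fun j k Rl μ hμ m l x w hx hl hu hw => ?_⟩
  have M0 := Sys.rel_pos x l
  have u1 : 2 ^ S.lr x l ≤ S.rel x l := Nat.pow_log_le_self 2 M0.ne'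
  have u2 : S.rel x l < 2 ^ (S.lr x l + 1) := Nat.lt_pow_succ_log_self one_lt_two _
  set n := Nat.clog d (S.rel x l) with hn
  have n1 : S.rel x l ≤ d ^ n := Nat.le_pow_clog (by omega) _
  have n2 : n ≤ l := (Nat.clog_le_iff_le_pow (by omega)).mpr (Sys.rel_le x l)
  have n3 : n ≤ S.lr x l + 1 := (Nat.clog_le_iff_le_pow (by omega)).mpr
    (u2.le.trans (Nat.pow_le_pow_left d2 _))
  have n4 : j + k + 2 ≤ n := by
    have := (u1.trans n1).trans (Nat.pow_le_pow_left (show d ≤ 2 ^ 2 by omega) n)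
    rw [← pow_mul] at this
    have := (Nat.pow_le_pow_iff_right one_lt_two).mp this
    omega
  obtain ⟨γ, ⟨X, v, x1, x2, x3, x4⟩, h2⟩ := hen n _ M0 n1
  obtain ⟨e, g1, g2⟩ := hgl n _ M0 n1
  obtain ⟨lift, l1, l2⟩ := g1 m l x hx (n2.trans hl) rfl
  have g3 := x4.trans (g2 _ X v x1 (fun a ha i hi => x2 a ha i hi.le) x3)
  have l0 : ∀ z ∈ S.orb x, lift z ≠ 0 := fun z hz h => b00 (by
    rw [← (l1 z hz).2, h, Fm.iter_zero])
  have M1 : (0 : ℝ) < S.rel x l := by exact_mod_cast M0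
  have D0 : (0 : ℝ) < (S.orb (S.f^[l] x)).card := by exact_mod_cast Sys.orb_pos _
  let Dy : S.Ω → ℝ := fun y =>
    max (μ - (∑ a ∈ S.fib x l y, ind (H.Y.Ev Ψ H.In j k Rl (lift a))) / S.rel x l) 0
  have s1 : Real.log (H.R / H.r) * ∑ y ∈ S.orb (S.f^[l] x), Dy y ^ 2 ≤
      (d : ℝ) ^ (j + k + 2) * ((S.orb (S.f^[l] x)).card * (C1 * (n + 1) / S.rel x l + γ) -
        (∑ y ∈ S.orb (S.f^[l] x), en (S.fib x l y) lift) / (S.rel x l : ℝ) ^ 2) := by
    rw [mul_sum, sum_div, ← nsmul_eq_mul, ← sum_const, ← sum_sub_distrib, mul_sum]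
    refine sum_le_sum fun y hy => h2 _ _ lift (Sys.card_fib hy) (fun a ha => ?_)
      (fun a ha b hb hab h => hab ?_) j k Rl μ (by omega) (hμ n n4)
    · have := bd m _ (l1 a (Sys.mem_fib.mp ha).1).2
      exact ⟨(this 0 (Nat.zero_le m)).1, (this n (n2.trans hl)).2⟩
    · have a1 := (Sys.mem_fib.mp ha).1
      have b1 := (Sys.mem_fib.mp hb).1
      refine L.inj _ _ (dt_trans (l0 b b1) (dt_trans (l0 a a1) ?_ ?_) ?_)
      · rw [dt_swap, (l1 a a1).1, neg_zero]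
      · rw [dt_swap, h, neg_zero]
      · rw [dt_swap, (l1 b b1).1, neg_zero]
  have s2 : ∑ y ∈ S.orb (S.f^[l] x), Dy y ^ 2 ≤ (S.orb (S.f^[l] x)).card *
      (√(10 * (2 * C1 + 2 * C2) / Real.log (H.R / H.r)) * (9 / 10) ^ S.lr x l) ^ 2 := by
    have a1 := num_bd d3 hu n3 u1
    have a2 : (S.orb (S.f^[l] x)).card * (C1 * (n + 1) / S.rel x l + γ) -
        (∑ y ∈ S.orb (S.f^[l] x), en (S.fib x l y) lift) / (S.rel x l : ℝ) ^ 2 ≤
        (S.orb (S.f^[l] x)).card * ((2 * C1 + 2 * C2) * ((n + 1) / S.rel x l)) := by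
      have b1 := div_le_div_of_nonneg_right (((mul_le_mul_of_nonneg_left
        (show (S.rel x l : ℝ) ^ 2 * γ - (C1 + 2 * C2) * S.rel x l * (n + 1) ≤ _ by linarith)
        D0.le)).trans l2) (sq_nonneg (S.rel x l : ℝ))
      refine (sub_le_sub_left b1 _).trans_eq ?_
      field_simp
      ring
    rw [mul_pow, Real.sq_sqrt (by positivity)]
    refine le_of_mul_le_mul_left (s1.trans ((mul_le_mul_of_nonneg_left a2 (by positivity)).trans
      ?_)) c0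
    calc _ = (S.orb (S.f^[l] x)).card * (2 * C1 + 2 * C2) *
          ((d : ℝ) ^ (j + k + 2) * ((n + 1) / S.rel x l)) := by ring
      _ ≤ (S.orb (S.f^[l] x)).card * (2 * C1 + 2 * C2) * (10 * ((9 / 10 : ℝ) ^ S.lr x l) ^ 2) := by
        gcongr
      _ = _ := by field_simp
  set E := √(10 * (2 * C1 + 2 * C2) / Real.log (H.R / H.r)) * (9 / 10 : ℝ) ^ S.lr x l with hE
  have E0 : 0 ≤ E := by positivity
  have w0 : 0 ≤ S.av (S.f^[l] x) w := Sys.av_nonneg fun y => (hw y).1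
  have s3 : (∑ y ∈ S.orb (S.f^[l] x), w y * Dy y) / (S.orb (S.f^[l] x)).card ≤
      E * √(S.av (S.f^[l] x) w) := by
    refine le_trans (le_abs_self _) (abs_le_of_sq_le_sq ?_ (by positivity))
    rw [div_pow, div_le_iff₀ (by positivity), mul_pow, Real.sq_sqrt w0]
    refine (sum_mul_sq_le_sq_mul_sq _ _ _).trans ((mul_le_mul (sum_le_sum (g := w) fun y _ => by
      nlinarith [(hw y).1, (hw y).2]) s2 (sum_nonneg fun _ _ => sq_nonneg _)
      (sum_nonneg fun y _ => (hw y).1)).trans_eq ?_)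
    rw [Sys.av]
    field_simp
  rw [sub_le_comm]
  refine le_trans ?_ s3
  rw [Sys.av, Sys.av, Sys.sum_orb x l, Sys.card_orb x l, Nat.cast_mul, ← div_div, ← mul_div_assoc,
    ← sub_div, sum_div, mul_sum, ← sum_sub_distrib]
  refine div_le_div_of_nonneg_right (sum_le_sum fun y _ => ?_) D0.le
  rw [sum_congr rfl (g := fun z => ind (H.Y.Ev S.f (fun v x => H.In v (pos x)) j k Rl z) * w y)
    fun z hz => by rw [(Sys.mem_fib.mp hz).2], ← sum_mul, mul_div_right_comm, ← sub_mul, mul_comm]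
  refine mul_le_mul_of_nonneg_left (le_trans ?_ (le_max_left _ _)) (hw y).1
  refine sub_le_sub_left (div_le_div_of_nonneg_right (sum_le_sum fun z hz => ind_mono ?_) M1.le) _
  rintro ⟨v, a1, a2⟩
  have a3 := (Sys.mem_fib.mp hz).1
  refine ⟨v, fun i hi => ⟨L.ne _, ?_⟩, a2⟩
  rw [← dl_par (a1 i hi).1 (L.ne _) (L.iter Fm (l1 z a3).1 i)]
  exact (a1 i hi).2

end Pool.Agent.Lib.MP_a2c890_nt.R
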