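import Pool.Agent.Lib.MP_a2c890_nt.R.Frob
import Pool.Agent.Lib.MP_a2c890_nt.R.Model

set_option autoImplicit false
set_option linter.unusedSectionVars false

namespace Pool.Agent.Lib.MP_a2c890_nt.R

open Finset T

variable {p : ℕ} [Fact p.Prime] {d : ℕ} {Ψ : Vc p → Vc p} {ρ0 : ℝ}

theorem gal_dt (s : Gl p) {a b : Vc p} (h : dt a b = 0) : dt (s ∘ a) (s ∘ b) = 0 := by
  rw [dt_map, h, map_zero]

theorem gal_sw {a b : Vc p} (h : dt a b = 0) : dt b a = 0 := by rw [dt_swap, h, neg_zero]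

theorem gal_pow {σ : Gl p} {e : PadicAlgCl p} (h : σ e = e) (n : ℕ) : (σ ^ n) e = e := by
  induction n with
  | zero => rfl
  | succ n ih => rw [pow_succ, AlgEquiv.mul_apply, h, ih]

/-- a cell is fixed -/
def Hyp.GalF (H : Hyp d Ψ ρ0) (s : Gl p) (v : H.Y.V) : Prop := dl (s ∘ H.ctr v) (H.ctr v) < H.R

namespace Hyp

variable (H : Hyp d Ψ ρ0) {s : Gl p}

theorem gal_in {v : H.Y.V} {x : Vc p} (f : H.GalF s v) (h : H.In v x) : H.In v (s ∘ x) :=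
  ⟨gal_ne s h.1, dl_lt (gal_ne s (H.ne v)) ((dl_gal s _ _).trans_lt h.2) f⟩

theorem gal_of {v : H.Y.V} {x : Vc p} (h : H.In v x) (h' : H.In v (s ∘ x)) : H.GalF s v :=
  dl_lt h'.1 ((dl_gal s _ _).trans_lt ((dl_comm _ _).trans_lt h.2)) h'.2

theorem gal_ctr (v : H.Y.V) : H.In v (H.ctr v) := ⟨H.ne v, (dl_self _).trans_lt (H.r0.trans H.rR)⟩

theorem gal_par {v : H.Y.V} {x y : Vc p} (h : H.In v x) (hy : y ≠ 0) (e : dt y x = 0) : H.In v y :=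
  ⟨hy, (dl_par hy h.1 e _).trans_lt h.2⟩

theorem gal_sq {v : H.Y.V} (f : H.GalF s v) : H.GalF (s * s) v :=
  (H.gal_in f (H.gal_in f (H.gal_ctr v))).2

variable (hs : ∀ e ∈ H.E, s e = e) (Fm : Frm d Ψ ρ0)
include hs

theorem gal_root : H.GalF s H.Y.root := by
  rw [GalF, H.gc s hs]
  exact (H.gal_ctr _).2

include Fm

theorem gal_step {w : H.Y.V} (f : H.GalF s w) {x : Vc p} (hx : x ≠ 0) (a : H.In w (Ψ x))
    (b : ¬ H.In H.Y.root x) : H.In w (Ψ (s ∘ x)) ∧ ¬ H.In H.Y.root (s ∘ x) ∧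
      ∃ j, H.Y.kid w j ≠ H.Y.root ∧ H.In (H.Y.kid w j) (s ∘ x) := by
  have c : H.In w (Ψ (s ∘ x)) := H.gΨ s hs x ▸ H.gal_in f a
  have e : ¬ H.In H.Y.root (s ∘ x) := fun e => b ⟨hx, by
    rw [← dl_gal s, H.gc s hs]
    exact e.2⟩
  obtain ⟨j, g⟩ := H.all Fm (gal_ne s hx) c
  exact ⟨c, e, j, fun k => e (k ▸ g), g⟩

omit hs in
theorem gal_kid {w : H.Y.V} {i : Fin d} (n : H.Y.kid w i ≠ H.Y.root) :
    H.In w (Ψ (H.ctr (H.Y.kid w i))) ∧ ¬ H.In H.Y.root (H.ctr (H.Y.kid w i)) := by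
  refine ⟨⟨Fm.ne (H.ne _), ?_⟩, fun e => n (H.uniq (H.gal_ctr _) e)⟩
  have := H.fwd _ _ n (H.ne _) (H.gal_ctr _).2
  rwa [(H.Y.kidp w i n).1] at this

theorem gal_two {w : H.Y.V} (f : H.GalF s w) (i : Fin d) : H.GalF (s * s) (H.Y.kid w i) := by
  by_cases n : H.Y.kid w i = H.Y.root
  · exact n ▸ H.gal_sq (H.gal_root hs)
  obtain ⟨a, b⟩ := H.gal_kid Fm n
  obtain ⟨a1, b1, j, c1, e1⟩ := H.gal_step hs Fm f (H.ne _) a b
  obtain ⟨-, -, l, c2, e2⟩ := H.gal_step hs Fm f e1.1 a1 b1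
  obtain rfl | rfl | rfl := H.Y.two w n c1 c2
  · exact H.gal_sq e1.2
  · exact H.gal_sq ((dl_gal s _ _).symm.trans_lt 
      (dl_lt (H.ne _) e2.2 ((dl_comm _ _).trans_lt e1.2)))
  · exact e2.2

theorem gal_one {w : H.Y.V} (f : H.GalF s w) (i : Fin d)
    (u : ∀ j, H.Y.kid w j ≠ H.Y.root → j = i) : H.GalF s (H.Y.kid w i) := by
  by_cases n : H.Y.kid w i = H.Y.root
  · exact n ▸ H.gal_root hs
  obtain ⟨a, b⟩ := H.gal_kid Fm n
  obtain ⟨-, -, j, c1, e1⟩ := H.gal_step hs Fm f (H.ne _) a b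
  obtain rfl := u j c1
  exact e1.2

theorem gal_gd {S : Sys d} {pos : S.Ω → Vc p} (L : Lnk S Ψ pos) {n0 : ℕ}
    (h1 : ∀ z, ∃ z' ∈ S.orb z, dt (s ∘ pos z) (pos z') = 0)
    (h2 : ∀ z, S.lev n0 z → s ∘ pos z = pos z) :
    GD S H.Y (fun v x => H.In v (pos x)) n0 (fun z => dt (s ∘ pos z) (pos z) = 0) (H.GalF s) := by
  have k (z) : dt (Ψ (s ∘ pos z)) (s ∘ pos (S.f z)) = 0 := H.gΨ s hs _ ▸ gal_dt s (L.conj z)
  have n (z) : Ψ (s ∘ pos z) ≠ 0 := Fm.ne (gal_ne s (L.ne z))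
  have m (z) (a : dt (s ∘ pos (S.f z)) (pos (S.f z)) = 0) :
      dt (Ψ (s ∘ pos z)) (pos (S.f z)) = 0 := dt_trans (gal_ne s (L.ne _)) (k z) (gal_sw a)
  refine ⟨H.gal_root hs, fun v a b => ?_, fun z a => by rw [h2 z a, dt_self], fun z a b => ?_,
    fun z a => ?_, fun z v a b => H.gal_of b (H.gal_par b (gal_ne s b.1) a),
    fun z v w a b c f => ?_⟩
  · refine H.gal_of (x := Ψ (H.ctr v)) ⟨Fm.ne (H.ne v), H.fwd v _ a (H.ne v) (H.gal_ctr v).2⟩ ?_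
    rw [← H.gΨ s hs]
    exact ⟨Fm.ne (gal_ne s (H.ne v)), H.fwd v _ a (gal_ne s (H.ne v)) b⟩
  · obtain ⟨z', c, e⟩ := h1 z
    rwa [Sys.eq_of_rel_one b c (L.inj _ _ (dt_trans (n z)
      (dt_trans (Fm.ne (L.ne z')) (gal_sw (L.conj z')) (Fm.par e)) (gal_sw (m z a))))] at e
  · exact dt_trans (n z) (gal_sw (k z)) (dt_trans (Fm.ne (L.ne z)) (gal_sw (L.conj z)) (Fm.par a))
  · have c1 := H.gal_par c (Fm.ne b.1) (L.conj z)
    have e := H.exp v w _ _ b.1 b.2 c1.2 (gal_ne s b.1) (H.gal_in f b).2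
      (H.gal_par c (n z) (m z a)).2
    rw [(dl_eq_zero (n z) c1.1).2 (dt_trans (L.ne _) (m z a) (L.conj z))] at e
    exact (dl_eq_zero (gal_ne s b.1) b.1).1 ((mul_eq_zero.1 e.symm).resolve_left
      (zero_lt_one.trans_le (H.lam1 v w _ b.1 b.2 c1.2).1).ne')

end Hyp

theorem Hyp.gal (H : Hyp d Ψ ρ0) (Fm : Frm d Ψ ρ0) {S : Sys d} {pos : S.Ω → Vc p}
    (L : Lnk S Ψ pos) (n0 : ℕ) :
    H.Y.Wd fun Fix => ∃ Fx, GD S H.Y (fun v x => H.In v (pos x)) n0 Fx Fix := by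
  classical
  obtain ⟨E, hE⟩ := L.gal
  obtain ⟨q, hq⟩ := frob (H.E ∪ E ∪
    (Sys.pre_fin n0 S.b).toFinset.biUnion fun z => univ.image (pos z))
  choose l l1 z z1 z2 using H.cov
  have R0 := H.r0.trans H.rR
  refine H.Y.window _ (A := H.Y.Q + 1) (q := q) fun t X => ?_
  obtain ⟨σ, h1, h2⟩ := hq (X.image z) fun x a => by
    obtain ⟨v, -, rfl⟩ := mem_image.1 a
    exact z1 v
  have hs (n) : ∀ e ∈ H.E, (σ ^ n) e = e := fun e a =>
    gal_pow (h1 e (mem_union_left _ (mem_union_left _ a))) n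
  refine ⟨H.GalF (σ ^ 2 ^ t), ⟨_, H.gal_gd (hs _) Fm L (hE _ fun e a =>
    gal_pow (h1 e (mem_union_left _ (mem_union_right _ a))) _) fun y a => funext fun i =>
      gal_pow (h1 _ (mem_union_right _ (mem_biUnion.2 ⟨y, (Set.Finite.mem_toFinset _).2 a,
        mem_image_of_mem _ (mem_univ i)⟩))) _⟩,
    H.Y.br_ind (fun t => H.GalF (σ ^ 2 ^ t)) (fun _ => H.gal_root (hs _)) (fun t v a => ?_)
      (fun t w i a => ?_) (fun t w i a => H.gal_one (hs _) Fm a i) t, fun X' a b => ?_⟩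
  · rw [pow_succ, pow_mul, sq]
    exact H.gal_sq a
  · rw [pow_succ, pow_mul, sq]
    exact H.gal_two (hs _) Fm a i
  have cn (v) := (H.chd (l v) _ _ (z1 v) (z1 v)).1
  have sp (v v') (e : l v = l v') (n : v ≠ v') : 1 ≤ ‖z v - z v'‖ := by
    have := H.sep v v' n
    rw [dl_par (H.ne v) (cn v) (z2 v), dl_comm, dl_par (H.ne v') (cn v') (z2 v'), dl_comm, ← e,
      (H.chd _ _ _ (z1 v) (z1 v')).2] at this
    exact (le_mul_iff_one_le_right R0).1 this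
  refine (card_le_mul_card_image_of_maps_to (f := l) (t := range (H.Y.Q + 1))
    (fun v _ => mem_range.2 (Nat.lt_succ_of_le (l1 v))) (q ^ 2 ^ t) fun i _ => ?_).trans_eq
      (by rw [card_range, mul_comm])
  rw [← card_image_of_injOn (f := z) fun v c v' e f => by_contra fun n => absurd
    (sp v v' ((mem_filter.1 c).2.trans (mem_filter.1 e).2.symm) n) (by simp [f])]
  refine h2 _ (pow_pos two_pos t) _ (image_subset_image ((filter_subset _ _).trans a))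
    (fun x c y e n => ?_) fun x c => ?_
  · obtain ⟨v, c1, rfl⟩ := mem_image.1 c
    obtain ⟨v', e1, rfl⟩ := mem_image.1 e
    exact sp v v' ((mem_filter.1 c1).2.trans (mem_filter.1 e1).2.symm) fun f => n (f ▸ rfl)
  · obtain ⟨v, c1, rfl⟩ := mem_image.1 c
    have := b v (mem_filter.1 c1).1
    rw [Hyp.GalF, dl_par (gal_ne _ (H.ne v)) (gal_ne _ (cn v)) (gal_dt _ (z2 v)), dl_comm,
      dl_par (H.ne v) (cn v) (z2 v), dl_comm, H.gch _ (hs _),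
      (H.chd _ _ _ ((norm_gal _ _).trans_le (z1 v)) (z1 v)).2] at this
    exact (mul_lt_iff_lt_one_right R0).1 this

end Pool.Agent.Lib.MP_a2c890_nt.R
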