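import Pool.Agent.Lib.MP_a2c890_nt.R.Chord

set_option autoImplicit false
set_option linter.unusedSectionVars false

namespace Pool.Agent.Lib.MP_a2c890_nt.R

open Finset T

variable {p : ℕ} [Fact p.Prime] {d : ℕ} {Ψ : Vc p → Vc p} {ρ0 : ℝ}

/-- exact lifts of the kids of a point -/
structure TrK (L : Loc d Ψ) (y : Vc p) (x : Fin d → Vc p) : Prop where
  ny : L.N y
  n : ∀ i, L.N (x i)
  sep : ∀ i j, i ≠ j → dl (x i) (x j) = L.π y
  prod : ∀ v, ‖dt (Ψ v) y‖ * ∏ i, ‖x i‖ = ‖y‖ * ∏ i, ‖dt v (x i)‖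
  cas : ∀ i, (dl (x i) L.c0 ≤ L.r ∧ rho d Ψ (x i) ≤ L.π y ^ (d - 1)) ∨
    (L.R ≤ dl (x i) L.c0 ∧ rho d Ψ (x i) = L.π y ^ (d - 1) ∧
      (d = 2 → ¬ L.Sp y → L.rk (x i) < L.rk y))
  sp : L.Sp y → d = 2 ∧ ∀ i, ¬ L.Sp (x i) ∧ L.R ≤ dl (x i) L.c0
  nsp : ¬ L.Sp y → ∃ i, dl (x i) L.c0 ≤ L.r
  lift : ∀ i, Ψ (x i) = y

/-- centres of the cells of a given depth -/
def TrG (L : Loc d Ψ) (kd : Vc p → Fin d → Vc p) : ℕ → Vc p → Prop
  | 0, v => v = L.c0
  | n + 1, v => ∃ w i, TrG L kd n w ∧ L.R ≤ dl v L.c0 ∧ kd w i = v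

variable {L : Loc d Ψ} {y : Vc p} {x : Fin d → Vc p}

theorem tr_R0 : 0 < L.R := L.r0.trans L.rR

theorem tr_kids (Fm : Frm d Ψ ρ0) (hy : L.N y) : ∃ x, TrK L y x := by
  obtain ⟨x, h1, h2, h3, h4, h5, h6⟩ := L.kids y hy
  have x0 (i) := L.ne _ (h1 i)
  have ex (i) : ∃ c : PadicAlgCl p, c ≠ 0 ∧ Ψ (c • x i) = y := by
    have e := h3 (x i)
    rw [prod_eq_zero (mem_univ i) (f := fun j => ‖dt (x i) (x j)‖) (by rw [dt_self, norm_zero]),
      mul_zero, mul_eq_zero, or_iff_left (prod_ne_zero_iff.2 fun j _ => norm_ne_zero_iff.2 (x0 j)),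
      norm_eq_zero] at e
    obtain ⟨μ, e⟩ := exists_smul (L.ne y hy) e
    have m : μ ≠ 0 := left_ne_zero_of_smul (e ▸ Fm.ne (x0 i))
    obtain ⟨c, a⟩ := IsAlgClosed.exists_pow_nat_eq μ⁻¹ (zero_lt_two.trans_le Fm.d2)
    exact ⟨c, fun b => inv_ne_zero m (by rw [← a, b, zero_pow (zero_lt_two.trans_le Fm.d2).ne']),
      by rw [Fm.hom, e, a, inv_smul_smul₀ m]⟩
  choose c c0 c1 using ex
  have k (i) := L.inv _ (c i • x i) (h1 i) (smul_ne_zero (c0 i) (x0 i))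
    (by rw [dl_smul' (c0 i), dl_self]; exact tr_R0)
  refine ⟨fun i => c i • x i, hy, fun i => (k i).1, fun i j a => ?_, fun v => ?_, fun i => ?_,
    fun a => ⟨(h5 a).1, fun i => ?_⟩, fun a => (h6 a).imp fun i b => ?_, c1⟩
  · rw [dl_smul (c0 i), dl_smul' (c0 j), h2 i j a]
  · have t (i) : ‖dt v (c i • x i)‖ = ‖c i‖ * ‖dt v (x i)‖ := by
      have := dt_smul 1 (c i) v (x i)
      rw [one_smul, one_mul] at this
      rw [this, norm_mul]
    simp only [t, norm_smul, prod_mul_distrib]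
    rw [mul_left_comm, h3, mul_left_comm]
  · rw [dl_smul (c0 i), Fm.rho_smul (c0 i), (k i).2.2.2]
    exact h4 i
  · rw [dl_smul (c0 i), (k i).2.2.1]
    exact (h5 a).2 i
  · rwa [dl_smul (c0 i)]

namespace TrK

variable (K : TrK L y x) (Fm : Frm d Ψ ρ0)
include K

theorem ne (i : Fin d) : x i ≠ 0 := L.ne _ (K.n i)

theorem rle (i : Fin d) : rho d Ψ (x i) ≤ L.π y ^ (d - 1) :=
  (K.cas i).elim And.right fun a => a.2.1.le

theorem pw : 0 < L.π y ^ (d - 1) := tr_R0.trans_le (L.piR y K.ny)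

include Fm

theorem pi : L.R ≤ L.π y ∧ L.π y ≤ 1 := by
  have d2 := Fm.d2
  have e := K.sep ⟨0, by omega⟩ ⟨1, by omega⟩ (by simp)
  have a : L.π y ≤ 1 := e ▸ dl_le_one _ _
  exact ⟨(L.piR y K.ny).trans (pow_le_of_le_one (e ▸ dl_nonneg _ _) a (by omega)), a⟩

theorem near {v : Vc p} (hv : v ≠ 0) {j : Fin d} (h : dl v (x j) < L.π y) :
    dl (Ψ v) y * rho d Ψ v = dl v (x j) * L.π y ^ (d - 1) := by
  classical
  rw [Fm.prod_dl (L.ne y K.ny) K.ne K.prod hv, ← mul_prod_erase _ _ (mem_univ j),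
    prod_congr rfl (g := fun _ => L.π y) fun i a => by
      have e := K.sep j i (ne_of_mem_erase a).symm
      rw [dl_eq_of_lt hv (K.ne j) (e ▸ h), e],
    prod_const, card_erase_of_mem (mem_univ j), card_univ, Fintype.card_fin]

theorem ex {v : Vc p} (hv : v ≠ 0) (h : dl (Ψ v) y * rho d Ψ v < L.π y * L.π y ^ (d - 1)) :
    ∃ j, dl v (x j) < L.π y := by
  by_contra! c
  rw [Fm.prod_dl (L.ne y K.ny) K.ne K.prod hv, ← pow_succ',
    Nat.sub_add_cancel (one_le_two.trans Fm.d2)] at h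
  refine h.not_ge (le_trans (by simp) (prod_le_prod (f := fun _ => L.π y)
    (fun _ _ => (tr_R0.trans_le (K.pi Fm).1).le) fun i _ => c i))

theorem par {v : Vc p} (hv : v ≠ 0) (h : Ψ v = y) : ∃ j, ∀ u, dl u (x j) = dl u v := by
  have e := Fm.prod_dl (L.ne y K.ny) K.ne K.prod hv
  rw [h, dl_self, zero_mul, eq_comm, prod_eq_zero_iff] at e
  obtain ⟨j, -, e⟩ := e
  exact ⟨j, fun u => by
    rw [dl_comm, ← dl_par hv (K.ne j) ((dl_eq_zero hv (K.ne j)).1 e), dl_comm]⟩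

theorem rho_le {v : Vc p} (hv : v ≠ 0) (h : Ψ v = y) : rho d Ψ v ≤ L.π y ^ (d - 1) := by
  obtain ⟨j, e⟩ := K.par Fm hv h
  rw [Fm.near (K.ne j) hv ((e v).trans_lt
    ((dl_self v).trans_lt (Fm.pos.trans_le (Fm.rho_bd (K.ne j)).1)))]
  exact K.rle j

theorem fwd {i : Fin d} (h : L.R ≤ dl (x i) L.c0) {v : Vc p} (hv : v ≠ 0) (a : dl v (x i) < L.R) :
    dl (Ψ v) y < L.R := by
  have e := ((K.cas i).resolve_left fun b => (b.1.trans_lt L.rR).not_ge h).2.1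
  have b := K.near Fm hv (a.trans_le (K.pi Fm).1)
  rw [Fm.near (K.ne i) hv (a.trans_le (e ▸ L.piR y K.ny)), e] at b
  exact (mul_right_cancel₀ K.pw.ne' b).trans_lt a

theorem mat {y' : Vc p} (h0 : y' ≠ 0) (h : dl y y' < L.R) : ∃ x' : Fin d → Vc p,
    (∀ i, Ψ (x' i) = y' ∧ x' i ≠ 0 ∧ dl (x' i) (x i) ≤ dl y y') ∧
      ∀ v, ‖dt (Ψ v) y'‖ * ∏ i, ‖x' i‖ = ‖y'‖ * ∏ i, ‖dt v (x' i)‖ := by
  obtain ⟨a, b, -⟩ := L.inv y y' K.ny h0 h
  obtain ⟨x', K'⟩ := tr_kids Fm a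
  have ex (i) : ∃ j, dl (x i) (x' j) ≤ dl y y' := by
    have c : dl (Ψ (x i)) y' * rho d Ψ (x i) ≤ dl y y' * L.π y' ^ (d - 1) := by
      rw [K.lift, b]
      exact mul_le_mul_of_nonneg_left (K.rle i) (dl_nonneg _ _)
    obtain ⟨j, e⟩ := K'.ex Fm (K.ne i)
      (c.trans_lt (mul_lt_mul_of_pos_right (h.trans_le (K'.pi Fm).1) K'.pw))
    rw [K'.near Fm (K.ne i) e] at c
    exact ⟨j, le_of_mul_le_mul_right c K'.pw⟩
  choose τ t using ex
  have inj : Function.Injective τ := fun i j e => by_contra fun n =>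
    ((dl_le (K'.ne _) (t i) ((dl_comm _ _).trans_le (e ▸ t j))).trans_lt h).not_ge
      (K.sep i j n ▸ (K.pi Fm).1)
  have bij := Finite.injective_iff_bijective.1 inj
  refine ⟨fun i => x' (τ i), fun i => ⟨K'.lift _, K'.ne _, (dl_comm _ _).trans_le (t i)⟩,
    fun v => ?_⟩
  rw [bij.prod_comp fun j => ‖x' j‖, bij.prod_comp fun j => ‖dt v (x' j)‖, K'.prod]

end TrK

section

variable {kd : Vc p → Fin d → Vc p} (hk : ∀ y, L.N y → TrK L y (kd y))
include hk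

theorem TrG.n {n : ℕ} {v : Vc p} (h : TrG L kd n v) : L.N v := by
  induction n generalizing v with
  | zero => exact (show v = L.c0 from h) ▸ L.n0
  | succ n ih =>
    obtain ⟨w, i, a, -, rfl⟩ := h
    exact (hk w (ih a)).n i

theorem TrG.sep (Fm : Frm d Ψ ρ0) {n m : ℕ} {a b : Vc p} (h : TrG L kd n a) (h' : TrG L kd m b)
    (e : dl a b < L.R) : (n, a) = (m, b) := by
  induction n generalizing m a b with
  | zero =>
    obtain rfl : a = L.c0 := h
    cases m with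
    | zero => rw [show b = L.c0 from h']
    | succ m =>
      obtain ⟨_, _, -, c, -⟩ := h'
      exact (((dl_comm _ _).trans_lt e).not_ge c).elim
  | succ n ih =>
    obtain ⟨w, i, s, c, rfl⟩ := h
    cases m with
    | zero =>
      obtain rfl : b = L.c0 := h'
      exact (e.not_ge c).elim
    | succ m =>
      obtain ⟨w', j, s', c', rfl⟩ := h'
      have K := hk w (s.n hk)
      have := (hk w' (s'.n hk)).fwd Fm c' (K.ne i) e
      rw [K.lift] at this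
      obtain ⟨rfl, rfl⟩ := Prod.mk.inj (ih s s' this)
      obtain rfl : i = j := by_contra fun n => e.not_ge (K.sep i j n ▸ (K.pi Fm).1)
      rfl

end

theorem tree (Fm : Frm d Ψ ρ0) (L : Loc d Ψ) : Nonempty (Hyp d Ψ ρ0) := by
  classical
  choose! kd hk using fun y (a : L.N y) => tr_kids Fm a
  let V := {v : ℕ × Vc p // TrG L kd v.1 v.2}
  let root : V := ⟨(0, L.c0), rfl⟩
  let kid (w : V) (i : Fin d) : V :=
    if h : L.R ≤ dl (kd w.1.2 i) L.c0 then ⟨(w.1.1 + 1, kd w.1.2 i), _, i, w.2, h, rfl⟩ else root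
  let par (v : V) : V :=
    if h : TrG L kd (v.1.1 - 1) (Ψ v.1.2) then ⟨(v.1.1 - 1, Ψ v.1.2), h⟩ else root
  have K (w : V) := hk _ (w.2.n hk)
  have ne (w : V) : w.1.2 ≠ 0 := L.ne _ (K w).ny
  have k0 {w : V} {i} (h : ¬ L.R ≤ dl (kd w.1.2 i) L.c0) : kid w i = root := dif_neg h
  have k1 {w : V} {i} (h : L.R ≤ dl (kd w.1.2 i) L.c0) :
      (kid w i).1 = (w.1.1 + 1, kd w.1.2 i) := congrArg Subtype.val (dif_pos h)
  have k2 {w : V} {i} (h : kid w i ≠ root) : L.R ≤ dl (kd w.1.2 i) L.c0 :=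
    by_contra fun a => h (k0 a)
  have k3 (w : V) (i) : dl (kd w.1.2 i) (kid w i).1.2 ≤ L.r := by
    by_cases h : L.R ≤ dl (kd w.1.2 i) L.c0
    · rw [k1 h]
      exact (dl_self _).trans_le L.r0.le
    · rw [k0 h]
      exact (((K w).cas i).resolve_right fun a => h a.1).1
  have k4 {w : V} {i} (h : kid w i ≠ root) : par (kid w i) = w := by
    have e : ((kid w i).1.1 - 1, Ψ (kid w i).1.2) = w.1 := by
      rw [k1 (k2 h)]
      exact Prod.ext rfl ((K w).lift i)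
    have a : TrG L kd ((kid w i).1.1 - 1) (Ψ (kid w i).1.2) := by
      have := w.2
      rwa [← e] at this
    exact (dif_pos a).trans (Subtype.ext e)
  have k5 (v : V) (h : v ≠ root) : ∃ w i, kid w i = v := by
    obtain ⟨⟨_ | n, v⟩, a⟩ := v
    · exact (h (Subtype.ext (Prod.ext rfl a))).elim
    · clear h
      have ⟨w, i, s, b, e⟩ := a
      have c : L.R ≤ dl (kd w i) L.c0 := b.trans_eq (congrArg (dl · L.c0) e.symm)
      exact ⟨⟨(n, w), s⟩, i, Subtype.ext ((k1 (w := ⟨(n, w), s⟩) c).trans (Prod.ext rfl e))⟩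
  have iv {w : V} {y} (a : y ≠ 0) (b : dl y w.1.2 < L.R) :=
    L.inv _ y (K w).ny a ((dl_comm _ _).trans_lt b)
  have r0 {x} (a : x ≠ 0) : 0 < rho d Ψ x := Fm.pos.trans_le (Fm.rho_bd a).1
  refine ⟨{
    Y := {
      V := V, root := root, kid := kid, par := par, dep := fun v => v.1.1
      Sp := fun v => L.Sp v.1.2, rk := fun v => L.rk v.1.2, Q := L.Q, hd := L.hd
      inj := fun w i j e => by_contra fun n => ((dl_le (ne _) (k3 w i)
        ((dl_comm _ _).trans_le (e ▸ k3 w j))).trans_lt L.rR).not_ge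
          ((K w).sep i j n ▸ ((K w).pi Fm).1)
      dep0 := rfl
      kidp := fun w i h => ⟨k4 h, congrArg Prod.fst (k1 (k2 h))⟩
      ex := fun v h => by
        obtain ⟨w, i, rfl⟩ := k5 v h
        exact ⟨i, by rw [k4 h]⟩
      nsp := fun w h => ((K w).nsp h).imp fun i a => k0 (a.trans_lt L.rR).not_ge
      sp := fun w h => ⟨((K w).sp h).1, fun i => by
        obtain ⟨a, b⟩ := ((K w).sp h).2 i
        refine ⟨fun e => Nat.succ_ne_zero _ (congrArg Prod.fst ((k1 b).symm.trans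
          (congrArg Subtype.val e))), ?_⟩
        rwa [k1 b]⟩
      sp0 := L.sp0
      rkQ := fun w => L.rkQ _ (K w).ny
      rklt := fun e w i a b => by
        rw [k1 (k2 b)]
        exact (((K w).cas i).resolve_left fun c => (c.1.trans_lt L.rR).not_ge (k2 b)).2.2 e a }
    ctr := fun v => v.1.2
    lam := fun x => L.π (Ψ x) ^ (d - 1) / rho d Ψ x
    r := L.r, R := L.R, chart := L.chart, E := L.E, r0 := L.r0, rR := L.rR, R1 := L.R1, ne := ne
    sep := fun v v' h => not_lt.1 fun e => h (Subtype.ext (v.2.sep hk Fm v'.2 e))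
    kids := fun w y a b => ?_, lam1 := fun v w x a _ c => ?_, conf := fun v w x u a _ c e f => ?_
    exp := fun v w x u a b c e f g => ?_, fwd := fun v x h a b => ?_
    chd := L.chd, cov := fun v => L.cov _ (K v).ny, gΨ := L.gΨ, gc := L.gc, gch := L.gch }⟩
  · obtain ⟨x, c, e⟩ := (K w).mat Fm a ((dl_comm _ _).trans_lt b)
    refine ⟨x, fun i => ?_, e⟩
    obtain ⟨c1, -, c3⟩ := c i
    rw [dl_comm w.1.2] at c3
    exact ⟨c1, dl_lt ((K w).ne i) (c3.trans_lt b) ((k3 w i).trans_lt L.rR),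
      fun f => dl_le ((K w).ne i) (c3.trans f) (k3 w i)⟩
  · have K' := hk _ (iv (Fm.ne a) c).1
    refine ⟨(one_le_div (r0 a)).2 (K'.rho_le Fm a rfl), ?_⟩
    rw [div_mul_eq_mul_div, div_le_one (r0 a)]
    exact (mul_le_of_le_one_left Fm.pos.le (pow_le_one₀ (tr_R0.trans_le (K'.pi Fm).1).le
      (K'.pi Fm).2)).trans (Fm.rho_bd a).1
  · have K' := hk _ (iv (Fm.ne a) c).1
    obtain ⟨j, s⟩ := K'.par Fm a rfl
    have t : dl u x < rho d Ψ x := by
      have := f.trans_le (L.piR _ K'.ny)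
      rwa [div_mul_eq_mul_div, div_lt_iff₀ (r0 a), mul_lt_mul_iff_right₀ K'.pw] at this
    have := K'.near Fm e (j := j) (((s u).trans_le (le_mul_of_one_le_left (dl_nonneg _ _)
      ((one_le_div (r0 a)).2 (K'.rho_le Fm a rfl)))).trans_lt (f.trans_le (K'.pi Fm).1))
    rw [Fm.near a e t, s] at this
    rw [div_mul_eq_mul_div, eq_div_iff (r0 a).ne', this, mul_comm]
  · have K' := hk _ (iv (Fm.ne e) g).1
    obtain ⟨j, s⟩ := K'.par Fm e rfl
    have := K'.near Fm a (j := j) ((s x).trans_lt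
      ((dl_lt (ne v) b ((dl_comm _ _).trans_lt f)).trans_le (K'.pi Fm).1))
    rw [s, (iv (Fm.ne e) g).2.1, ← (iv (Fm.ne a) c).2.1] at this
    rw [div_mul_eq_mul_div, eq_div_iff (r0 a).ne', dl_comm, this, mul_comm, dl_comm]
  · obtain ⟨w, i, rfl⟩ := k5 v h
    have b' : dl x (kid w i).1.2 < L.R := b
    rw [k1 (k2 h)] at b'
    exact (congrArg (fun z : V => dl (Ψ x) z.1.2) (k4 h)).trans_lt ((K w).fwd Fm (k2 h) a b')

end Pool.Agent.Lib.MP_a2c890_nt.R
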