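import Pool.Agent.Lib.MP_a2c890_nt.R.SymB

set_option autoImplicit false
set_option linter.unusedSectionVars false

namespace Pool.Agent.Lib.MP_a2c890_nt.R

open Finset T

section
variable {d : ℕ} {S : Sys d} {C C' lam lam' μ μ' : ℝ} {u0 u1 : ℕ} {E E' : S.Ω → Prop}

theorem wn_err (C0 : 0 ≤ C) (hC : C ≤ C') (l0 : 0 < lam) (hl : lam ≤ lam') (u : ℕ) (a : ℝ) :
    C * lam ^ u * √a ≤ C' * lam' ^ u * √a :=
  mul_le_mul_of_nonneg_right (mul_le_mul hC (pow_le_pow_left₀ l0.le hl u) (by positivity)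
    (C0.trans hC)) (Real.sqrt_nonneg _)

theorem wn_lo (h : S.Lo C lam u0 E μ) (C0 : 0 ≤ C) (hC : C ≤ C') (l0 : 0 < lam) (hl : lam ≤ lam')
    (hu : u0 ≤ u1) (hE : ∀ z, E z → E' z) : S.Lo C' lam' u1 E' μ := by
  intro m l x w hx hm hr hw
  have a1 := h m l x w hx hm (hu.trans hr) hw
  have a2 := wn_err C0 hC l0 hl (S.lr x l) (S.av (S.f^[l] x) w)
  have a3 : S.av x (fun z => ind (E z) * w (S.f^[l] z)) ≤
      S.av x (fun z => ind (E' z) * w (S.f^[l] z)) :=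
    Sys.av_mono fun z _ => mul_le_mul_of_nonneg_right (ind_mono (hE z)) (hw _).1
  linarith

theorem wn_up (h : S.Lo C lam u0 E μ) (hE : ∀ z, E z → ¬ E' z) (hμ : 1 - μ ≤ μ') :
    S.Up C lam u0 E' μ' := by
  intro m l x w hx hm hr hw
  have a1 := h m l x w hx hm hr hw
  have a2 : S.av x (fun z => ind (E' z) * w (S.f^[l] z)) ≤
      S.av x (fun z => w (S.f^[l] z) - ind (E z) * w (S.f^[l] z)) := by
    refine Sys.av_mono fun z _ => ?_
    have b1 := (hw (S.f^[l] z)).1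
    by_cases hz : E z
    · rw [ind_neg (hE z hz), ind_pos hz]; linarith
    · rw [ind_neg hz, zero_mul, sub_zero]
      exact mul_le_of_le_one_left b1 (ind_le_one _)
  rw [Sys.av_sub, Sys.av_comp] at a2
  have a3 := mul_le_mul_of_nonneg_right hμ
    (Sys.av_nonneg (x := S.f^[l] x) fun z => (hw z).1)
  linarith

theorem wn_sqrt (x : S.Ω) {w : S.Ω → ℝ} (hw : ∀ y, 0 ≤ w y ∧ w y ≤ 1) :
    0 ≤ S.av x w ∧ S.av x w ≤ √(S.av x w) := by
  have a0 := Sys.av_nonneg (x := x) fun z => (hw z).1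
  have a1 := Sys.av_le_one (x := x) fun z => (hw z).2
  exact ⟨a0, Real.le_sqrt_of_sq_le (by nlinarith)⟩

end

theorem wn_th (d : ℕ) : 2 / 3 ≤ th d ∧ th d ≤ 3 / 4 := by
  unfold th
  split_ifs <;> norm_num

theorem wn_lam {c : ℕ} (c1 : 1 ≤ c) {lam : ℝ} (l1 : lam < 1) :
    ∃ lam' : ℝ, lam ≤ lam' ∧ lam' < 1 ∧ 3 / 4 ≤ lam' ^ c := by
  have c0 : (1 : ℝ) ≤ c := by exact_mod_cast c1
  have a0 : (0 : ℝ) < 1 / (4 * c) := by positivity
  have a1 : (1 : ℝ) / (4 * c) ≤ 1 / 4 := one_div_le_one_div_of_le (by norm_num) (by linarith)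
  refine ⟨max lam (1 + -(1 / (4 * c))), le_max_left _ _, max_lt l1 (by linarith), ?_⟩
  have a2 := one_add_mul_le_pow (a := -(1 / (4 * (c : ℝ)))) (by linarith) c
  have a3 : (c : ℝ) * -(1 / (4 * c)) = -(1 / 4) := by field_simp
  have a4 := pow_le_pow_left₀ (by linarith) (le_max_right lam (1 + -(1 / (4 * (c : ℝ))))) c
  linarith

theorem wn_big {η : ℝ} (h : 0 < η) : ∃ K : ℕ, 2 ≤ K ∧ ∀ k, K ≤ k → 81 * (k * (3 / 4 : ℝ) ^ k) ≤ η := by
  have a1 := (tendsto_self_mul_const_pow_of_lt_one (r := (3 / 4 : ℝ)) (by norm_num)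
    (by norm_num)).eventually_le_const (show (0 : ℝ) < η / 81 by positivity)
  obtain ⟨K, hK⟩ := Filter.eventually_atTop.mp a1
  refine ⟨max K 2, le_max_right _ _, fun k hk => ?_⟩
  have := hK k ((le_max_left _ _).trans hk)
  linarith

section
variable {d : ℕ} {Y : Sym d} {Fix : Y.V → Prop} {ks : ℕ}

theorem wn_wt0 (h : ∀ v, ¬ Fix v → ks ≤ Y.dep v) {k : ℕ} (hk : k < ks) : Y.wt Fix k = 0 := by
  classical
  refine sum_eq_zero fun v hv => ?_
  have a1 := mem_filter.mp hv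
  have := h v a1.2.1
  have := Y.mem_lvl.mp a1.1
  omega

theorem wn_wt1 (h0 : Fix Y.root) (h : ∀ v, ¬ Fix v → ks ≤ Y.dep v)
    (h1 : ∃ v, ¬ Fix v ∧ Y.dep v = ks) {k : ℕ} (hk : ks ≤ k) : (1 / 3 : ℝ) ^ ks ≤ Y.wt Fix k := by
  classical
  obtain ⟨v, v1, v2⟩ := h1
  have v0 : v ≠ Y.root := fun e => v1 (e ▸ h0)
  have v3 := Y.dep_par v0
  have v4 : Fix (Y.par v) := by
    by_contra hc
    have := h _ hc
    omega
  have d0 : (0 : ℝ) < d ∧ (d : ℝ) ≤ 3 := by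
    rcases Y.hd with e | e <;> rw [e] <;> norm_num
  have a1 : (1 / 3 : ℝ) ^ ks ≤ ((d : ℝ) ^ Y.dep v)⁻¹ := by
    rw [v2, one_div, inv_pow]
    exact inv_anti₀ (pow_pos d0.1 _) (pow_le_pow_left₀ d0.1.le d0.2 _)
  refine a1.trans ?_
  unfold Sym.wt
  refine single_le_sum (f := fun v => ((d : ℝ) ^ Y.dep v)⁻¹) (fun _ _ => by positivity) ?_
  exact mem_filter.mpr ⟨Y.mem_lvl.mpr (by omega), v1, v4⟩

end

/-- the window data attached to a set of fixed cells -/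
theorem wn_win {d : ℕ} {S : Sys d} {Y : Sym d} {In : Y.V → S.Ω → Prop} {c : ℕ} {C lam lam' : ℝ}
    (uniq : ∀ x v v', In v x → In v' x → v = v')
    (all : ∀ z v w, In v z → In w (S.f z) → ∃ i, v = Y.kid w i)
    (c1 : 1 ≤ c) (C0 : 0 ≤ C) (l0 : 0 < lam) (hE : EQ S Y In c C lam) (l2 : lam ≤ lam')
    (l3 : lam' < 1) (l4 : 3 / 4 ≤ lam' ^ c) {n0 ks : ℕ} {Fx : S.Ω → Prop} {Fix : Y.V → Prop}
    (G : GD S Y In n0 Fx Fix) (h : ∀ v, ¬ Fix v → ks + 2 ≤ Y.dep v)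
    (h1 : ∃ v, ¬ Fix v ∧ Y.dep v = ks + 2) :
    Win S (2 * c) (C + 4 / lam' ^ (2 * c)) lam' (1 / 4) n0 (9 * ks + 17 + 1)
      (Y.wt Fix (9 * ks + 17 + 1)) (4 * th d ^ ks)
      (fun z => ∃ v, In v z ∧ (¬ Fix v ∧ Fix (Y.par v)) ∧ Y.dep v ≤ 9 * ks + 17 + 1)
      (fun z => ¬ ∃ v w, In v z ∧ In w (S.f z) ∧ ¬ (¬ Fix v ∧ Fix (Y.par v))) Fx := by
  obtain ⟨t0, t1⟩ := wn_th d
  have tp : 0 < th d := by linarith
  have lp : 0 < lam' := l0.trans_le l2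
  have hC : C ≤ C + 4 / lam' ^ (2 * c) := le_add_of_nonneg_right (by positivity)
  have a1 := wn_wt1 G.root h h1 (k := 9 * ks + 17 + 1) (by omega)
  have a0 : (0 : ℝ) < (1 / 3) ^ (ks + 2) := by positivity
  have a2 : th d ^ (9 * ks + 17) ≤ ((1 / 3) ^ (ks + 2)) ^ 2 :=
    calc th d ^ (9 * ks + 17) ≤ th d ^ (8 * (ks + 2)) :=
          pow_le_pow_of_le_one tp.le (by linarith) (by omega)
      _ ≤ (3 / 4) ^ (8 * (ks + 2)) := pow_le_pow_left₀ tp.le t1 _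
      _ ≤ ((1 / 3) ^ 2) ^ (ks + 2) := by
          rw [pow_mul]; exact pow_le_pow_left₀ (by positivity) (by norm_num) _
      _ = _ := by rw [← pow_mul, ← pow_mul, mul_comm]
  have a3 : ((1 / 3 : ℝ) ^ (ks + 2)) ^ 2 ≤ Y.wt Fix (9 * ks + 17 + 1) ^ 2 :=
    pow_le_pow_left₀ a0.le a1 2
  have a4 : (1 / 3 : ℝ) ^ (ks + 2) ≤ 1 := pow_le_one₀ (by norm_num) (by norm_num)
  have eB : ∀ k, S.Lo C lam (c * (0 + k + 2))
      (Y.Ev S.f In 0 k fun v _ => ¬ (¬ Fix v ∧ Fix (Y.par v))) (1 - th d ^ k - Y.wt Fix (k + 1)) :=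
    fun k => hE 0 k _ _ fun n hn => Y.mB G.root (by omega) k
  have nB : ∀ k z, Y.Ev S.f In 0 k (fun v _ => ¬ (¬ Fix v ∧ Fix (Y.par v))) z →
      ¬ ¬ ∃ v w, In v z ∧ In w (S.f z) ∧ ¬ (¬ Fix v ∧ Fix (Y.par v)) :=
    fun k z ⟨v, v1, _, v3⟩ => not_not.mpr ⟨v 0, v 1, v1 0 (by omega), v1 1 le_rfl, v3⟩
  refine ⟨by omega, ?_, ?_, ?_, ?_, ?_, fun j hj => ?_, ?_, G.f0, G.f1, ?_, ?_, G.f4⟩
  · refine le_trans ?_ a1
    calc (1 / 2 : ℝ) ^ (9 * ks + 17 + 1) = ((1 / 2) ^ 9) ^ (ks + 2) := by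
          rw [← pow_mul]; congr 1
      _ ≤ _ := pow_le_pow_left₀ (by positivity) (by norm_num) _
  · refine (Y.wt_le (ks := ks + 1) h _).trans ?_
    exact mul_le_mul_of_nonneg_left (pow_le_pow_of_le_one tp.le (by linarith) (by omega))
      (by norm_num)
  · intro m l x w hx hm _ hw
    obtain ⟨s0, s1⟩ := wn_sqrt (S.f^[l] x) hw
    have b0 : 0 ≤ th d ^ ks * S.av (S.f^[l] x) w := by positivity
    have b1 : 0 ≤ C * lam' ^ S.lr x l * √(S.av (S.f^[l] x) w) := by positivity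
    have b2 : 0 < lam' ^ (2 * c) := by positivity
    by_cases hu : S.lr x l < 2 * c
    · have b3 : S.av x (fun z => ind (¬ ∃ v w, In v z ∧ In w (S.f z) ∧
          ¬ (¬ Fix v ∧ Fix (Y.par v))) * w (S.f^[l] z)) ≤ S.av x fun z => w (S.f^[l] z) :=
        Sys.av_mono fun z _ => mul_le_of_le_one_left (hw _).1 (ind_le_one _)
      rw [Sys.av_comp] at b3
      have b4 : lam' ^ (2 * c) ≤ lam' ^ S.lr x l := pow_le_pow_of_le_one lp.le l3.le hu.le
      have b5 : 1 ≤ 4 / lam' ^ (2 * c) * lam' ^ S.lr x l := by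
        rw [div_mul_eq_mul_div, le_div_iff₀ b2]; linarith
      have b6 := mul_le_mul_of_nonneg_right b5 (Real.sqrt_nonneg (S.av (S.f^[l] x) w))
      linarith
    · obtain ⟨r, hr⟩ : ∃ r, S.lr x l / c = r + 2 :=
        Nat.exists_eq_add_of_le' ((Nat.le_div_iff_mul_le (by omega)).mpr (by omega))
      have b3 : c * (r + 2) ≤ S.lr x l := hr ▸ Nat.mul_div_le _ _
      have b4 : S.lr x l < c * (r + 2 + 1) := hr ▸ Nat.lt_mul_div_succ _ (by omega)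
      have b5 := wn_up (μ' := th d ^ min r ks) (eB (min r ks)) (nB _)
        (by rw [wn_wt0 h (by omega)]; linarith) m l x w hx hm
        ((Nat.mul_le_mul_left c (by omega)).trans b3) hw
      have b6 := wn_err C0 le_rfl l0 l2 (S.lr x l) (S.av (S.f^[l] x) w)
      have b7 : th d ^ r ≤ 4 / lam' ^ (2 * c) * lam' ^ S.lr x l := by
        have e1 : th d ^ (r + 2) ≤ lam' ^ (c * (r + 2)) := by
          rw [pow_mul]; exact pow_le_pow_left₀ tp.le (by linarith) _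
        have e2 : lam' ^ (c * (r + 2)) * lam' ^ (2 * c) ≤ lam' ^ S.lr x l := by
          rw [← pow_add]; exact pow_le_pow_of_le_one lp.le l3.le (by nlinarith)
        have e3 : th d ^ r ≤ 4 * th d ^ (r + 2) := by
          have := pow_pos tp r
          rw [pow_add]; nlinarith [mul_pos this tp]
        rw [div_mul_eq_mul_div, le_div_iff₀ b2]
        nlinarith [mul_le_mul_of_nonneg_right (e3.trans (mul_le_mul_of_nonneg_left e1
          (by norm_num))) b2.le]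
      have b8 : th d ^ min r ks ≤ th d ^ r + th d ^ ks := by
        have := pow_pos tp r
        have := pow_pos tp ks
        rcases min_choice r ks with e | e <;> rw [e] <;> linarith
      have b9 := mul_le_mul_of_nonneg_right b8 s0
      have b10 := mul_le_mul b7 s1 s0 (by positivity)
      linarith
  · exact wn_up (wn_lo (eB (9 * ks + 17)) C0 hC l0 l2 (by nlinarith) fun _ hz => hz) (nB _)
      (by nlinarith)
  · exact wn_lo (hE 0 (9 * ks + 17) _ _ fun n hn => Y.mA G.root (by omega)) C0 hC l0 l2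
      (by nlinarith) fun z ⟨v, v1, _, v3⟩ => ⟨v 0, v1 0 (by omega), v3⟩
  · refine wn_up (wn_lo (hE j (9 * ks + 17) _ _ fun n hn => Y.mAB G.root G.par hj (by omega) _)
      C0 hC l0 l2 (by nlinarith) fun _ hz => hz) ?_ (by linarith)
    rintro z ⟨v, v1, _, v3⟩ ⟨⟨u, u1, u2⟩, hb⟩
    obtain rfl : u = v 0 := uniq z _ _ u1 (v1 0 (by omega))
    refine hb ⟨v j, v (j + 1), v1 j (by omega), ?_, v3.resolve_left (not_not.mpr u2)⟩
    rw [← Function.iterate_succ_apply' S.f j z]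
    exact v1 (j + 1) le_rfl
  · rintro z ⟨u, u1, u2, -⟩ ⟨v, w, v1, -, v3⟩
    exact v3 (uniq z _ _ u1 v1 ▸ u2)
  · intro z hz hb
    obtain ⟨v, w, v1, v2, v3⟩ := not_not.mp hb
    refine G.kid z v w hz v1 v2 ?_
    by_contra hc
    obtain ⟨i, rfl⟩ := all z v w v1 v2
    have e := (Y.kidp w i fun e => hc (e ▸ G.root)).1
    exact v3 ⟨hc, e.symm ▸ G.cell _ w hz v2⟩
  · rintro z hz ⟨u, u1, u2, -⟩
    exact u2.1 (G.cell z u hz u1)

theorem win {d : ℕ} {S : Sys d} {Y : Sym d} {In : Y.V → S.Ω → Prop} {c : ℕ} {C lam : ℝ}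
    (uniq : ∀ x v v', In v x → In v' x → v = v')
    (all : ∀ z v w, In v z → In w (S.f z) → ∃ i, v = Y.kid w i)
    (c1 : 1 ≤ c) (C0 : 0 ≤ C) (l0 : 0 < lam) (l1 : lam < 1) (hE : EQ S Y In c C lam) :
    ∃ (c' : ℕ) (C' lam' : ℝ), 1 ≤ c' ∧ 1 ≤ C' ∧ 0 < lam' ∧ lam' < 1 ∧ ∀ n0 : ℕ,
      Y.Wd (fun Fix => ∃ Fx, GD S Y In n0 Fx Fix) → HasWin S c' C' lam' (1 / 4) n0 := by
  obtain ⟨lam', l2, l3, l4⟩ := wn_lam c1 l1
  obtain ⟨t0, t1⟩ := wn_th d
  have tp : 0 < th d := by linarith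
  have lp : 0 < lam' := l0.trans_le l2
  refine ⟨2 * c, C + 4 / lam' ^ (2 * c), lam', by omega, ?_, lp, l3, fun n0 hW η η0 => ?_⟩
  · have : 1 ≤ 4 / lam' ^ (2 * c) := by
      rw [le_div_iff₀ (by positivity)]
      linarith [pow_le_one₀ (n := 2 * c) lp.le l3.le]
    linarith
  obtain ⟨K, K2, hK⟩ := wn_big η0
  obtain ⟨U0, hU⟩ := hW (η / 100) (by positivity)
  obtain ⟨U1, hU1⟩ := exists_nat_gt (η / 100 / th d ^ (2 * K))
  refine ⟨max U0 U1, fun U hu => ?_⟩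
  obtain ⟨Fix, k, ⟨Fx, G⟩, h, h1, h2, h3⟩ := hU U ((le_max_left _ _).trans hu)
  have u1 : (U1 : ℝ) ≤ U := by exact_mod_cast (le_max_right _ _).trans hu
  have u0 : (0 : ℝ) ≤ U := Nat.cast_nonneg _
  have hk : K ≤ k := by
    by_contra hc
    have a1 : th d ^ (2 * K) ≤ th d ^ (2 * k) := pow_le_pow_of_le_one tp.le (by linarith) (by omega)
    rw [div_lt_iff₀ (by positivity)] at hU1
    nlinarith [mul_le_mul a1 u1 (Nat.cast_nonneg _) (by positivity)]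
  obtain ⟨ks, rfl⟩ : ∃ ks, k = ks + 2 := Nat.exists_eq_add_of_le' (K2.trans hk)
  have p0 := pow_pos tp ks
  have p1 : 4 * th d ^ ks ≤ 9 * th d ^ (ks + 2) := by
    rw [pow_add]; nlinarith [mul_pos p0 tp]
  refine ⟨_, _, _, _, _, Fx, wn_win uniq all c1 C0 l0 hE l2 l3 l4 G h h1, ?_, ?_, ?_⟩
  · have a1 := mul_le_mul_of_nonneg_right (pow_le_pow_left₀ (by positivity) p1 2) u0
    rw [mul_comm 2, pow_mul] at h2
    nlinarith
  · have a1 := hK _ hk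
    have a2 := pow_le_pow_left₀ tp.le t1 (ks + 2)
    have a3 := mul_le_mul_of_nonneg_right (p1.trans (mul_le_mul_of_nonneg_left a2 (by norm_num)))
      (show (0 : ℝ) ≤ 9 * ks + 17 + 1 by positivity)
    push_cast at a1 ⊢
    linarith
  · push_cast at h3 ⊢
    nlinarith [mul_nonneg η0.le u0]

end Pool.Agent.Lib.MP_a2c890_nt.R
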