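import Pool.Agent.Lib.MP_a2c890_nt.R.Chord

set_option autoImplicit false
set_option linter.unusedSectionVars false

namespace Pool.Agent.Lib.MP_a2c890_nt.R

open Finset T

variable {p : ℕ} [Fact p.Prime]

open Polynomial in
theorem frob_alg {O κ : Type} [CommRing O] [Field κ] [CharP κ p] (r s : O →+* κ)
    (h : ∀ c, r c = 0 → s c = 0) {z : O} {K : ℕ} (hK : 0 < K) (hz : z ^ p ^ K = z) :
    ∃ i, s z = r (z ^ p ^ i) := by
  have key (c : O) (e : r c ^ p = r c) : s c = r c := by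
    obtain ⟨n, hn⟩ := (mem_bot_iff_intCast p _).1 ((Subfield.mem_bot_iff_pow_eq_self _ p).2 e)
    have b := h (c - n) (by rw [map_sub, map_intCast, hn, sub_self])
    rw [map_sub, map_intCast, hn] at b
    exact sub_eq_zero.1 b
  let g : O[X] := ∏ i ∈ range K, (X - C (z ^ p ^ i))
  have g1 : g.map r = ∏ i ∈ range K, (X - C (r z ^ p ^ i)) := by
    simp only [g, Polynomial.map_prod, Polynomial.map_sub, map_X, map_C, map_pow r]
  have g2 : (g.map r).map (frobenius _ p) = g.map r := by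
    have e := (prod_range_succ' (fun i => (X - C (r z ^ p ^ i))) K).symm.trans
      (prod_range_succ (fun i => (X - C (r z ^ p ^ i))) K)
    rw [← map_pow r z (p ^ K), hz, pow_zero, pow_one] at e
    rw [g1]
    refine .trans ?_ (mul_right_cancel₀ (X_sub_C_ne_zero _) e)
    simp only [Polynomial.map_prod, Polynomial.map_sub, map_X, map_C, frobenius_def, ← pow_mul,
      ← pow_succ]
  have g3 : g.map s = g.map r := Polynomial.ext fun n => by
    have := congrArg (coeff · n) g2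
    simp only [coeff_map, frobenius_def] at this ⊢
    exact key _ this
  have g4 : (g.map r).eval (s z) = 0 := by
    rw [← g3, eval_map_apply, show g.eval z = 0 from ?_, map_zero]
    rw [eval_prod]
    exact prod_eq_zero (mem_range.2 hK) (by simp)
  rw [g1, eval_prod, prod_eq_zero_iff] at g4
  obtain ⟨i, -, e⟩ := g4
  rw [eval_sub, eval_X, eval_C, ← map_pow, sub_eq_zero] at e
  exact ⟨i, e⟩

/-- a Galois element acts on a Teichmuller point through a power of the Frobenius -/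
theorem frob_pow (σ : Gl p) {ζ : PadicAlgCl p} {K : ℕ} (hK : 0 < K) (h : ζ ^ p ^ K = ζ) :
    ∃ i, σ ζ = ζ ^ p ^ i := by
  have hp : p.Prime := Fact.out
  have hT : Teich p ζ := ⟨K, hK, h⟩
  let v : Valuation (PadicAlgCl p) NNReal := NormedField.valuation
  let O := v.valuationSubring
  have mem (x : PadicAlgCl p) : x ∈ O ↔ ‖x‖ ≤ 1 := Iff.rfl
  let r := IsLocalRing.residue O
  have r0 (x : O) : r x = 0 ↔ ‖x.1‖ < 1 := by
    rw [IsLocalRing.residue_eq_zero_iff, Valuation.mem_maximalIdeal_iff]; rfl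
  have : CharP (IsLocalRing.ResidueField O) p :=
    (CharP.charP_iff_prime_eq_zero hp).2 (by rw [← map_natCast r, r0]; exact np1)
  obtain ⟨s, hs⟩ : ∃ s : O →+* O, ∀ x, (s x).1 = σ x.1 :=
    ⟨((σ : PadicAlgCl p →+* PadicAlgCl p).comp O.subtype).codRestrict O
      fun x => (mem _).2 ((norm_gal σ x.1).trans_le ((mem _).1 x.2)), fun _ => rfl⟩
  obtain ⟨i, e⟩ := frob_alg (p := p) r (r.comp s) (fun c a => by
    rw [RingHom.comp_apply, r0, hs, norm_gal]
    exact (r0 c).1 a) (z := ⟨ζ, (mem _).2 (hT.norm_le hp)⟩) hK (Subtype.ext h)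
  rw [RingHom.comp_apply, ← sub_eq_zero, ← map_sub, r0, AddSubgroupClass.coe_sub, hs] at e
  exact ⟨i, (teich_map (σ : PadicAlgCl p →+* PadicAlgCl p) hT).eq_of_lt hp np1 (hT.pow _) e⟩

theorem frob_prim {N : ℕ} (h : 0 < N) : ∃ ζ : PadicAlgCl p, IsPrimitiveRoot ζ N := by
  have : NeZero (N : PadicAlgCl p) := ⟨Nat.cast_ne_zero.2 h.ne'⟩
  exact HasEnoughRootsOfUnity.exists_primitiveRoot _ N

theorem frob_card {Q : ℕ} (h : 1 < Q) (Y : Finset (PadicAlgCl p)) (hY : ∀ t ∈ Y, t ^ Q = t) :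
    Y.card ≤ Q := by
  have n : (Polynomial.X ^ Q - Polynomial.X : Polynomial (PadicAlgCl p)).natDegree = Q := by
    rw [Polynomial.natDegree_sub_eq_left_of_natDegree_lt] <;> simp [h]
  refine (Polynomial.card_le_degree_of_subset_roots fun t ht => ?_).trans n.le
  rw [Polynomial.mem_roots (Polynomial.ne_zero_of_natDegree_gt (n.symm ▸ h))]
  simp [hY t ht]

/-- a Frobenius element on the Teichmuller points of a given level -/
theorem frob_lev (E : Finset (PadicAlgCl p)) : ∃ q : ℕ, ∀ K, 0 < K → ∃ (σ : Gl p) (j : ℕ),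
    (∀ e ∈ E, σ e = e) ∧ 0 < j ∧ p ^ j ≤ q ∧ ∀ t : PadicAlgCl p, t ^ p ^ K = t → σ t = t ^ p ^ j := by
  classical
  have hp : p.Prime := Fact.out
  let L := IntermediateField.adjoin ℚ_[p] (E : Set (PadicAlgCl p))
  have : FiniteDimensional ℚ_[p] L :=
    IntermediateField.finiteDimensional_adjoin fun x _ => Algebra.IsIntegral.isIntegral x
  refine ⟨(finite_teich L).toFinset.card + 1, fun K hK => ?_⟩
  have lt {k : ℕ} (hk : 0 < k) : 1 < p ^ k := Nat.one_lt_pow hk.ne' hp.one_lt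
  have root {k : ℕ} (hk : 0 < k) {t : PadicAlgCl p} (e : t ^ (p ^ k - 1) = 1) : t ^ p ^ k = t := by
    rw [← Nat.sub_add_cancel (lt hk).le, pow_succ, e, one_mul]
  obtain ⟨ζ, hζ⟩ := frob_prim (p := p) (Nat.sub_pos_of_lt (lt hK))
  have : NeZero (p ^ K - 1) := ⟨(Nat.sub_pos_of_lt (lt hK)).ne'⟩
  have all (τ : Gl p) (i : ℕ) (e : τ ζ = ζ ^ p ^ i) (t : PadicAlgCl p) (ht : t ^ p ^ K = t) :
      τ t = t ^ p ^ i := by
    rcases eq_or_ne t 0 with rfl | h0
    · rw [map_zero, zero_pow (pow_pos hp.pos i).ne']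
    obtain ⟨k, -, rfl⟩ := hζ.eq_pow_of_pow_eq_one (ξ := t) (mul_right_cancel₀ h0 (by
      rw [← pow_succ, Nat.sub_add_cancel (lt hK).le, ht, one_mul]))
    rw [map_pow, e, ← pow_mul, ← pow_mul, mul_comm]
  have ex : ∃ j, 0 < j ∧ ∃ σ ∈ L.fixingSubgroup, σ ζ = ζ ^ p ^ j :=
    ⟨K, hK, 1, one_mem _, (root hK hζ.pow_eq_one).symm⟩
  obtain ⟨j0, σ, h1, h2⟩ := Nat.find_spec ex
  set j := Nat.find ex
  have pw (m : ℕ) : (σ ^ m) ζ = ζ ^ p ^ (j * m) := by
    induction m with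
    | zero => simp
    | succ m ih => rw [pow_succ', AlgEquiv.mul_apply, ih, map_pow, h2, ← pow_mul, ← pow_add,
        Nat.mul_succ, add_comm]
  have dv (τ : Gl p) (a : τ ∈ L.fixingSubgroup) (i : ℕ) (e : τ ζ = ζ ^ p ^ i) : j ∣ i := by
    refine Nat.dvd_of_mod_eq_zero (Nat.eq_zero_of_not_pos fun c => ?_)
    refine Nat.find_min ex (Nat.mod_lt i j0) ⟨c, (σ ^ (i / j))⁻¹ * τ,
      mul_mem (inv_mem (pow_mem h1 _)) a, (σ ^ (i / j)).injective ?_⟩
    rw [← AlgEquiv.mul_apply, mul_inv_cancel_left, e, map_pow, pw, ← pow_mul, ← pow_add,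
      Nat.div_add_mod]
  refine ⟨σ, j, fun e he => (IntermediateField.mem_fixingSubgroup_iff _ _).1 h1 e
    (IntermediateField.subset_adjoin _ _ he), j0, ?_, all σ j h2⟩
  obtain ⟨ξ, hξ⟩ := frob_prim (p := p) (Nat.sub_pos_of_lt (lt j0))
  have x1 : ξ ^ p ^ j = ξ := root j0 hξ.pow_eq_one
  have x2 : ξ ∈ L := by
    rw [← InfiniteGalois.fixedField_fixingSubgroup L, IntermediateField.mem_fixedField_iff]
    intro τ a
    obtain ⟨i, e⟩ := frob_pow τ hK (root hK hζ.pow_eq_one)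
    obtain ⟨m, rfl⟩ := dv τ a i e
    obtain ⟨k, hk⟩ := dv 1 (one_mem _) K (root hK hζ.pow_eq_one).symm
    rw [all τ _ e ξ (hk ▸ pow_iter x1 k), pow_iter x1]
  rw [← Nat.sub_add_cancel (lt j0).le, Nat.add_le_add_iff_right, ← card_range (p ^ j - 1)]
  exact card_le_card_of_injOn (ξ ^ ·) (fun i _ => by
    simpa using ⟨pow_mem x2 i, Teich.pow ⟨j, j0, x1⟩ i⟩) hξ.injOn_pow

/-- a Galois element whose powers fix few residue classes -/
theorem frob (E : Finset (PadicAlgCl p)) : ∃ q : ℕ, ∀ X : Finset (PadicAlgCl p),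
    (∀ x ∈ X, ‖x‖ ≤ 1) → ∃ σ : Gl p, (∀ e ∈ E, σ e = e) ∧ ∀ n, 0 < n →
      ∀ X' : Finset (PadicAlgCl p), X' ⊆ X → (∀ x ∈ X', ∀ y ∈ X', x ≠ y → 1 ≤ ‖x - y‖) →
        (∀ x ∈ X', ‖(σ ^ n) x - x‖ < 1) → X'.card ≤ q ^ n := by
  classical
  have hp : p.Prime := Fact.out
  obtain ⟨q, hq⟩ := frob_lev E
  refine ⟨q, fun X hX => ?_⟩
  choose! T t1 t2 using fun x (a : ‖x‖ ≤ 1) => exists_teich (p := p) a
  obtain ⟨K, hK, k⟩ : ∃ K, 0 < K ∧ ∀ x ∈ X, T x ^ p ^ K = T x := by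
    clear hq
    induction X using Finset.induction_on with
    | empty => exact ⟨1, one_pos, fun _ a => absurd a (notMem_empty _)⟩
    | insert a s _ ih =>
      obtain ⟨K, hK, k⟩ := ih fun x b => hX x (mem_insert_of_mem b)
      obtain ⟨l, hl, e⟩ := t1 a (hX a (mem_insert_self _ _))
      refine ⟨K * l, Nat.mul_pos hK hl, fun x b => ?_⟩
      obtain rfl | b := mem_insert.1 b
      · rw [mul_comm]; exact pow_iter e K
      · exact pow_iter (k x b) l
  obtain ⟨σ, j, h1, j0, h2, h3⟩ := hq K hK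
  refine ⟨σ, h1, fun n hn X' s a b => ?_⟩
  have pw (t : PadicAlgCl p) (e : t ^ p ^ K = t) (m : ℕ) : (σ ^ m) t = t ^ (p ^ j) ^ m := by
    induction m with
    | zero => simp
    | succ m ih => rw [pow_succ', AlgEquiv.mul_apply, ih, map_pow, h3 t e, ← pow_mul, pow_succ']
  rw [← card_image_of_injOn (f := T) fun x c y d e => by_contra fun f => (a x c y d f).not_gt (by
    simpa [e] using sub_lt (t2 x (hX x (s c))) (t2 y (hX y (s d))))]
  refine (frob_card (Nat.one_lt_pow hn.ne' (Nat.one_lt_pow j0.ne' hp.one_lt)) _ fun t c => ?_).trans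
    (Nat.pow_le_pow_left h2 n)
  obtain ⟨x, c', rfl⟩ := mem_image.1 c
  replace c := c'
  have u := hX x (s c)
  rw [← pw _ (k x (s c))]
  refine (teich_map ((σ ^ n : Gl p) : PadicAlgCl p →+* PadicAlgCl p) (t1 x u)).eq_of_lt hp np1
    (t1 x u) ?_
  have w : ‖(σ ^ n) (x - T x)‖ < 1 := (norm_gal _ _).trans_lt (t2 x u)
  have := sub_lt (add_lt (b x c) (t2 x u)) w
  rw [map_sub] at this
  simpa using this

end Pool.Agent.Lib.MP_a2c890_nt.R
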