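import Pool.Agent.Lib.MP_a2c890_nt.R.Defs

set_option autoImplicit false
set_option linter.unusedSectionVars false

namespace Pool.Agent.Lib.MP_a2c890_nt.R

open Finset T

theorem ker_D {X : Type} {D : X → X → ℝ} (hs : ∀ a b, D a b = D b a)
    (hu : ∀ a b e, D a e ≤ max (D a b) (D b e)) {ε : ℝ} (hε : 0 < ε) (Ψ : X → ℝ → ℝ)
    (h1 : ∀ a a' t, D a a' ≤ t → Ψ a t = Ψ a' t)
    (h2 : ∀ a t t', 0 < t → t ≤ t' → Ψ a t ≤ Ψ a t') :
    (∀ a b, Ψ a (max (D a b) ε) = Ψ b (max (D b a) ε)) ∧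
    ∀ a b e, Ψ a (max (D a e) ε) ≤ max (Ψ a (max (D a b) ε)) (Ψ b (max (D b e) ε)) := by
  have p : ∀ x : ℝ, 0 < max x ε := fun x => lt_max_of_lt_right hε
  refine ⟨fun a b => by rw [hs b a]; exact h1 _ _ _ (le_max_left _ _), fun a b e => ?_⟩
  have u := hu a b e
  rcases le_total (D a b) (D b e) with h | h
  · rw [max_eq_right h] at u
    refine le_max_of_le_right ((h2 _ _ _ (p _) (max_le_max_right ε u)).trans_eq ?_)
    exact h1 _ _ _ (le_max_of_le_left h)
  · rw [max_eq_left h] at u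
    exact le_max_of_le_left (h2 _ _ _ (p _) (max_le_max_right ε u))

theorem ker_log {a x x' e : ℝ} (he : 0 < e) (hx : 0 < x) (h : x ≤ x') :
    Real.log (max a x / e) ≤ Real.log (max a x' / e) ∧
      Real.log (max a x' / e) - Real.log (max a x / e) ≤ Real.log x' - Real.log x := by
  have p : 0 < max a x := lt_max_of_lt_right hx
  have p' : 0 < max a x' := lt_max_of_lt_right (hx.trans_le h)
  have q := hx.trans_le h
  refine ⟨Real.log_le_log (by positivity) (by gcongr), ?_⟩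
  rw [Real.log_div p'.ne' he.ne', Real.log_div p.ne' he.ne', sub_sub_sub_cancel_right,
    sub_le_sub_iff, ← Real.log_mul p'.ne' hx.ne', ← Real.log_mul q.ne' p.ne']
  refine Real.log_le_log (by positivity) ?_
  rcases le_total a x' with c | c
  · rw [max_eq_right c]
    exact mul_le_mul_of_nonneg_left (le_max_right _ _) q.le
  · rw [max_eq_left c, max_eq_left (h.trans c), mul_comm]
    exact mul_le_mul_of_nonneg_right h (q.le.trans c)

/-- the energy controls the discrepancy on disjoint discs -/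
theorem disc2 {X κ α : Type} (D : X → X → ℝ) (hs : ∀ a b, D a b = D b a)
    (hu : ∀ a b e, D a e ≤ max (D a b) (D b e)) (S : Finset α) (pt : α → X) (c : α → ℝ)
    (hc : ∑ a ∈ S, c a = 0) {ε0 r R : ℝ} (e0 : 0 < ε0) (r0 : 0 < r) (rR : r ≤ R) (J : Finset κ)
    (ctr : κ → X) (ε : κ → ℝ) (hε : ∀ i ∈ J, ε0 ≤ r * ε i)
    (disj : ∀ i ∈ J, ∀ i' ∈ J, i ≠ i' → ∀ x, D x (ctr i) < R * ε i → ¬ D x (ctr i') < R * ε i')
    (lo : κ → ℝ) (hlo : ∀ i ∈ J, ∀ t, r ≤ t → t < R →
      lo i ^ 2 ≤ (∑ a ∈ S, c a * ind (D (pt a) (ctr i) ≤ t * ε i)) ^ 2) :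
    ∑ a ∈ S, ∑ b ∈ S, c a * c b * Real.log (max (D (pt a) (pt b)) ε0) ≤
      -(Real.log (R / r) * ∑ i ∈ J, lo i ^ 2) := by
  classical
  have R0 := r0.trans_le rR
  have ep : ∀ i ∈ J, 0 < ε i := fun i hi => pos_of_mul_pos_left ((e0.trans_le (hε i hi)).trans_eq
    (mul_comm _ _)) r0.le
  have st : Real.log r ≤ Real.log R := Real.log_le_log r0 rR
  obtain ⟨g, hg⟩ : ∃ g : κ → X → ℝ → ℝ, ∀ i a x, g i a x =
    clamp (Real.log r) (Real.log R) (Real.log (max (D a (ctr i)) x / ε i)) := ⟨_, fun _ _ _ => rfl⟩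
  have mx : ∀ a a' e t, D a a' ≤ t → max (D a e) t ≤ max (D a' e) t := fun a a' e t h =>
    max_le ((hu a a' e).trans (max_le (le_max_of_le_right h) (le_max_left _ _))) (le_max_right _ _)
  obtain ⟨s2, u2⟩ := ker_D hs hu e0 (fun a x => Real.log x - ∑ i ∈ J, g i a x)
    (fun a a' x h => by
      simp only [hg, fun e => (mx a a' e x h).antisymm (mx a' a e x (hs a a' ▸ h))])
    fun a x x' x0 h => by
      have z : ∀ i ∈ J, ¬ D a (ctr i) < R * ε i → g i a x' - g i a x = 0 := fun i hi c => by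
        have : ∀ y, g i a y = Real.log R := fun y => by
          rw [hg, clamp, min_eq_right, max_eq_right st]
          exact Real.log_le_log R0 ((le_div_iff₀ (ep i hi)).2 (le_max_of_le_left (not_lt.1 c)))
        rw [this, this, sub_self]
      rw [sub_le_sub_iff, ← sub_le_iff_le_add, add_sub_assoc, ← sum_sub_distrib,
        ← le_sub_iff_add_le']
      by_cases ex : ∃ i ∈ J, D a (ctr i) < R * ε i
      · obtain ⟨i, hi, c⟩ := ex
        obtain ⟨b1, b2⟩ := ker_log (a := D a (ctr i)) (ep i hi) x0 h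
        rw [sum_eq_single_of_mem i hi fun j hj ne => z j hj (disj i hi j hj ne.symm a c), hg, hg]
        exact (clamp_lip _ _ b1).2.trans b2
      · rw [sum_eq_zero fun j hj => z j hj fun c => ex ⟨j, hj, c⟩]
        exact sub_nonneg.2 (Real.log_le_log x0 h)
  have k1 := ultra_nonpos S c hc _ (fun a b => s2 (pt a) (pt b)) fun a b e => u2 (pt a) (pt b) (pt e)
  have k2 : ∀ i ∈ J, ∑ a ∈ S, ∑ b ∈ S, c a * c b * g i (pt a) (max (D (pt a) (pt b)) ε0) ≤
      -((Real.log R - Real.log r) * lo i ^ 2) := fun i hi => by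
    simp only [hg]
    refine layer S c hc _ _ _ _ _ st le_rfl fun τ a1 a2 => ?_
    have b1 := (Real.log_le_iff_le_exp r0).1 a1
    refine (hlo i hi _ b1 ((Real.lt_log_iff_exp_lt R0).1 a2)).trans_eq ?_
    rw [sq, sum_mul_sum]
    refine sum_congr rfl fun a _ => sum_congr rfl fun b _ => ?_
    rw [mul_mul_mul_comm, ← ind_and]
    refine congrArg _ ((ind_congr ?_).trans (by rw [ind]))
    rw [Real.log_le_iff_le_exp (div_pos (lt_max_of_lt_right (lt_max_of_lt_right e0)) (ep i hi)),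
      div_le_iff₀ (ep i hi), max_le_iff, max_le_iff]
    exact ⟨fun h => ⟨h.1, (hu _ (ctr i) _).trans (max_le h.1 (hs _ _ ▸ h.2)),
      (hε i hi).trans (mul_le_mul_of_nonneg_right b1 (ep i hi).le)⟩,
      fun h => ⟨h.1, (hu _ (pt a) _).trans (max_le (hs _ _ ▸ h.2.1) h.1)⟩⟩
  have k3 := sum_le_sum k2
  rw [sum_neg_distrib, ← mul_sum, sum_comm, sum_congr rfl fun a _ => sum_comm] at k3
  simp only [mul_sub, sum_sub_distrib, mul_sum] at k1
  rw [Real.log_div R0.ne' r0.ne']
  linarith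

/-- a subfamily with at least the average energy -/
theorem sub_en {p : ℕ} [Fact p.Prime] {α : Type} (X : Finset α) (v : α → Vc p) {M : ℕ}
    (hM : M ≤ X.card) : ∃ X' : Finset α, X' ⊆ X ∧ X'.card = M ∧
      (M : ℝ) * (M - 1) * en X v ≤ (X.card : ℝ) * (X.card - 1) * en X' v := by
  classical
  obtain ⟨g, hg⟩ : ∃ g : α → α → ℝ, ∀ a b, g a b =
    if b = a then 0 else Real.log ‖dt (v a) (v b)‖ := ⟨_, fun _ _ => rfl⟩
  have g0 : ∀ a, g a a = 0 := fun a => by rw [hg, if_pos rfl]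
  have e : ∀ Y : Finset α, en Y v = ∑ a ∈ Y, ∑ b ∈ Y, g a b := fun Y =>
    sum_congr rfl fun a _ => by
      rw [← sum_erase Y (g0 a)]
      exact sum_congr rfl fun b hb => by rw [hg, if_neg (ne_of_mem_erase hb)]
  rcases le_or_gt M 1 with h1 | h1
  · obtain ⟨X', a1, a2⟩ := exists_subset_card_eq hM
    refine ⟨X', a1, a2, le_of_eq ?_⟩
    rw [e X', sum_eq_zero fun a ha => sum_eq_zero fun b hb => by
      rw [card_le_one.1 (a2.trans_le h1) a ha b hb, g0], mul_zero]
    interval_cases M <;> simp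
  obtain ⟨k, hk⟩ := Nat.exists_eq_add_of_le hM
  clear hM
  induction k generalizing X with
  | zero => exact ⟨X, Subset.rfl, hk, by rw [hk, add_zero]⟩
  | succ k ih =>
    have ne : X.Nonempty := card_pos.1 (by omega)
    obtain ⟨z, hz, h⟩ := exists_le_of_sum_le (f := fun _ => ((X.card : ℝ) - 2) * en X v)
      (g := fun z => X.card * en (X.erase z) v) ne (le_of_eq (by
        rw [← mul_sum, ← mul_sum, sum_congr rfl fun z hz => show en (X.erase z) v =
          en X v - ∑ b ∈ X, g z b - ∑ a ∈ X, g a z by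
            simp only [e, sum_erase_eq_sub hz, sum_sub_distrib, g0, sub_zero]
            ring, sum_sub_distrib, sum_sub_distrib, sum_comm (f := fun z a => g a z), ← e]
        simp only [sum_const, nsmul_eq_mul]
        ring))
    have c1 : (X.erase z).card = M + k := by rw [card_erase_of_mem hz, hk]; rfl
    obtain ⟨X', a1, a2, a3⟩ := ih _ c1
    refine ⟨X', a1.trans (erase_subset _ _), a2, ?_⟩
    rw [c1] at a3
    rw [hk] at h ⊢
    push_cast at h a3 ⊢
    have m2 : (2 : ℝ) ≤ M := by exact_mod_cast h1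
    have k0 : (0 : ℝ) ≤ k := k.cast_nonneg
    refine le_of_mul_le_mul_left ?_ (by linarith : (0 : ℝ) < M + k - 1)
    have b1 := mul_le_mul_of_nonneg_left h (mul_nonneg (by linarith) (by linarith) :
      (0 : ℝ) ≤ M * (M - 1))
    have b2 := mul_le_mul_of_nonneg_left a3 (by linarith : (0 : ℝ) ≤ M + k + 1)
    linarith

end Pool.Agent.Lib.MP_a2c890_nt.R
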