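import Pool.Agent.Lib.MP_a2c890_nt.R.Slide

set_option autoImplicit false
set_option linter.unusedSectionVars false

namespace Pool.Agent.Lib.MP_a2c890_nt.R

open Finset T

variable {d : ℕ} {S : Sys d}

theorem la_count {ι : Type} [DecidableEq ι] (s : Finset ι) (P : ι → Prop) :
    ∑ i ∈ s, ind (P i) ≤ 1 + ∑ i ∈ s, ∑ j ∈ s.erase i, ind (P i) * ind (P j) := by
  have h0 : ∀ i, 0 ≤ ∑ j ∈ s.erase i, ind (P i) * ind (P j) := fun i =>
    sum_nonneg fun _ _ => mul_nonneg (ind_nonneg _) (ind_nonneg _)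
  by_cases h : ∃ i ∈ s, P i
  · obtain ⟨i, h1, h2⟩ := h
    have h3 := single_le_sum (f := fun i => ∑ j ∈ s.erase i, ind (P i) * ind (P j))
      (fun i _ => h0 i) h1
    simp only [ind_pos h2, one_mul] at h3
    rw [← add_sum_erase s _ h1, ind_pos h2]
    linarith
  · rw [sum_eq_zero fun i hi => ind_neg fun k => h ⟨i, hi, k⟩]
    linarith [sum_nonneg fun i (_ : i ∈ s) => h0 i]

theorem la_one {ι : Type} {s : Finset ι} {g : ι → ℝ} (h : ∀ i ∈ s, 0 ≤ g i) {i : ι} (hi : i ∈ s)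
    (e : g i = 1) : 1 ≤ ∑ j ∈ s, g j := e ▸ single_le_sum h hi

/-- the last step: a rational step at the top is impossible -/
theorem Win.last {c n0 k : ℕ} {C lam υ a b : ℝ} {A Bad Fx : S.Ω → Prop}
    (W : Win S c C lam υ n0 k a b A Bad Fx) (c1 : 1 ≤ c) (C0 : 0 ≤ C) (l0 : 0 < lam) (l1 : lam < 1)
    (υ0 : 0 < υ) (υ1 : υ ≤ 1) {T u0 s κ : ℕ} {x : S.Ω} {f0 η : ℝ} (hx : S.lev (n0 + T) x)
    (f00 : 0 < f0) (lo : ∀ l, l ≤ T → f0 ≤ S.ph Fx x l)
    (dbl : ∀ l l', l ≤ l' → l' ≤ T → S.gr x l l' ≤ s → S.ph Fx x l' ≤ 2 * S.ph Fx x l)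
    (hη : η ≤ υ / 100) (hκ : 64 ≤ κ * υ) (u00 : 0 < u0) (hu : c * k ≤ u0)
    (hs : c * (κ * u0 + k) ≤ s) (ha : (s + u0 + 1 : ℝ) * a ≤ η)
    (hE : C * (lam ^ u0 / (1 - lam)) ≤ η * a ^ 2 * √f0)
    (hT : 2 * s + u0 + d + 2 ≤ S.lr x T) : S.rel x 1 ≠ 1 := by
  intro r0
  have a0 := W.a0
  have s0 : (0 : ℝ) ≤ s := Nat.cast_nonneg s
  have u1 : (1 : ℝ) ≤ u0 := Nat.one_le_cast.2 u00
  have aη : a ≤ η := by nlinarith
  have η0 : 0 < η := a0.trans_le aη
  have η1 : η ≤ 1 / 100 := by linarith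
  have κ1 : (64 : ℝ) ≤ κ := hκ.trans (mul_le_of_le_one_right (Nat.cast_nonneg κ) υ1)
  have κ2 : 64 ≤ κ := by exact_mod_cast κ1
  have sW : κ * u0 + k ≤ s := (Nat.le_mul_of_pos_left _ c1).trans hs
  have uW : u0 ≤ κ * u0 := Nat.le_mul_of_pos_left _ (by omega)
  obtain ⟨I, -, I1, I2, I3, I4⟩ := nxt x (Nat.zero_le T) (s := s + u0 + 1)
    (by change _ ≤ S.lr x T; omega)
  change s + u0 + 1 ≤ S.lr x I at I2
  change S.lr x I ≤ _ at I3
  obtain ⟨J, J1, J2, J3, -, J4⟩ := nxt x I1 (s := s) (by have := Sys.uv_le x I1; omega)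
  have pd := dbl I J J1 J2 J4
  have p0 : 0 < S.ph Fx x I := f00.trans_le (lo I I1)
  have q0 : 0 < S.ph Fx x J := f00.trans_le (lo J J2)
  have wF : ∀ y, 0 ≤ ind (Fx y) ∧ ind (Fx y) ≤ 1 := fun _ => ⟨ind_nonneg _, ind_le_one _⟩
  have hE1 : ∀ l, l ≤ T → C * (lam ^ u0 / (1 - lam)) * √(S.ph Fx x l) ≤
      η * a ^ 2 * S.ph Fx x l := fun l hl => by
    conv_rhs => rw [← Real.mul_self_sqrt (ph_nonneg Fx x l), ← mul_assoc]
    exact mul_le_mul_of_nonneg_right (hE.trans (mul_le_mul_of_nonneg_left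
      (Real.sqrt_le_sqrt (lo l hl)) (by positivity))) (Real.sqrt_nonneg _)
  have hE2 : ∀ l, l ≤ T → ∀ n, u0 ≤ n → C * lam ^ n * √(S.ph Fx x l) ≤
      η * a ^ 2 * S.ph Fx x l := fun l hl n hn => by
    refine le_trans (mul_le_mul_of_nonneg_right (mul_le_mul_of_nonneg_left ?_ C0)
      (Real.sqrt_nonneg _)) (hE1 l hl)
    exact (pow_le_pow_of_le_one l0.le l1.le hn).trans
      (le_div_self (pow_nonneg l0.le _) (by linarith) (by linarith))
  have low : ∀ i, i ≤ I → S.lr x i ≤ u0 → (υ - η) * (a * S.ph Fx x I) ≤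
      S.av x fun z => ind (A (S.f^[i] z)) * ind (Fx (S.f^[I] z)) := fun i h1 h2 => by
    have h3 : s ≤ S.lr (S.f^[i] x) (I - i) := by have := Sys.uv_le x h1; omega
    have h4 := W.A1.lift hx h1 (show I ≤ n0 + T by omega) (by omega) wF
    have h5 := hE2 I I1 (S.lr (S.f^[i] x) (I - i)) (by omega)
    change υ * a * S.ph Fx x I - _ * √(S.ph Fx x I) ≤ _ at h4
    have h6 : η * a ^ 2 * S.ph Fx x I ≤ η * a * S.ph Fx x I := by
      gcongr
      nlinarith
    linarith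
  have lJ : ∀ l, l ≤ I → s ≤ S.lr (S.f^[l] x) (J - l) := fun l hl =>
    J3.trans (Sys.lr_sub x hl le_rfl J1)
  have U1 : ∀ l, l ≤ I → S.av x (fun z => ind (Bad (S.f^[l] z)) * ind (Fx (S.f^[J] z))) ≤
      3 * (a * S.ph Fx x J) := fun l hl => by
    have h3 := lJ l hl
    have h4 := W.B2.lift hx (hl.trans J1) (show J ≤ n0 + T by omega) (by omega) wF
    have h5 := hE2 J J2 (S.lr (S.f^[l] x) (J - l)) (by omega)
    change _ ≤ 2 * a * S.ph Fx x J + _ * √(S.ph Fx x J) at h4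
    have h6 : η * a ^ 2 * S.ph Fx x J ≤ a * S.ph Fx x J := by
      gcongr
      nlinarith [mul_le_one₀ (show η ≤ 1 by linarith) a0.le (show a ≤ 1 by linarith)]
    linarith
  have U2 : ∀ i l, i < l → l ≤ I → l - i ≤ κ * u0 → S.av x (fun z => ind (A (S.f^[i] z)) *
      ind (Bad (S.f^[l] z)) * ind (Fx (S.f^[J] z))) ≤ 3 * a * (a * S.ph Fx x J) :=
    fun i l h1 h2 h3 => by
      have h7 := lJ i (by omega)
      have h4 := (W.AB (l - i) (by omega)).lift hx (show i ≤ J by omega)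
        (show J ≤ n0 + T by omega)
        ((Nat.mul_le_mul_left c (Nat.add_le_add_right h3 k)).trans (hs.trans h7)) wF
      have h5 := hE2 J J2 (S.lr (S.f^[i] x) (J - i)) (by omega)
      change _ ≤ 2 * a ^ 2 * S.ph Fx x J + _ * √(S.ph Fx x J) at h4
      simp only [sl_it _ h1.le, ind_and] at h4
      have h6 : η * a ^ 2 * S.ph Fx x J ≤ 1 * a ^ 2 * S.ph Fx x J := by
        gcongr
        linarith
      linarith
  have U3 : ∀ (i : ℕ) (G : Finset ℕ), (∀ l ∈ G, l ∈ slG x 0 I ∧ i ≤ l ∧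
      u0 ≤ S.lr (S.f^[i] x) (l - i)) → ∑ l ∈ G, S.av x (fun z => ind (A (S.f^[i] z)) *
        ind (Bad (S.f^[l] z)) * ind (Fx (S.f^[J] z))) ≤ 7 * η * (a * S.ph Fx x J) := by
    intro i G hG
    have h1 : ∀ l ∈ G, S.av x (fun z => ind (A (S.f^[i] z)) * ind (Bad (S.f^[l] z)) *
        ind (Fx (S.f^[J] z))) ≤ 6 * a * (a * S.ph Fx x J) +
          C * lam ^ S.lr (S.f^[i] x) (l - i) * √(S.ph Fx x J) := fun l hl => by
      obtain ⟨g1, g2, g3⟩ := hG l hl
      have g4 := (mem_slG.1 g1).2.1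
      have h2 := W.B2.lift hx g2 (show l ≤ n0 + T by omega) (hu.trans g3)
        (w := fun y => ind (Bad y) * ind (Fx (S.f^[J - l] y))) fun y =>
          ⟨mul_nonneg (ind_nonneg _) (ind_nonneg _),
            mul_le_one₀ (ind_le_one _) (ind_nonneg _) (ind_le_one _)⟩
      rw [← Sys.av_comp x l fun y => ind (Bad y) * ind (Fx (S.f^[J - l] y))] at h2
      simp only [sl_it _ (show l ≤ J by omega)] at h2
      have h3 := U1 l g4.le
      have h4 : S.av x (fun z => ind (Bad (S.f^[l] z)) * ind (Fx (S.f^[J] z))) ≤ S.ph Fx x J := by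
        rw [ph_eq]
        exact Sys.av_mono fun z _ => mul_le_of_le_one_left (ind_nonneg _) (ind_le_one _)
      have h5 := mul_le_mul_of_nonneg_left (Real.sqrt_le_sqrt h4)
        (mul_nonneg C0 (pow_nonneg l0.le (S.lr (S.f^[i] x) (l - i))))
      refine (Sys.av_mono fun z _ => ?_).trans (h2.trans (by
        linarith [mul_le_mul_of_nonneg_left h3 a0.le]))
      rw [mul_assoc]
      exact mul_le_mul_of_nonneg_right (ind_mono (W.sub _))
        (mul_nonneg (ind_nonneg _) (ind_nonneg _))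
    have h2 := geom_le G _ (sl_inj x fun l hl => ⟨(hG l hl).2.1, (mem_slG.1 (hG l hl).1).2.2⟩)
      (fun l hl => (hG l hl).2.2) l0.le l1
    have h3 : (G.card : ℝ) ≤ s + u0 + 1 := by
      exact_mod_cast (card_le_card fun l hl => (hG l hl).1).trans I4
    have h4 := mul_le_mul_of_nonneg_right (mul_le_mul_of_nonneg_left h2 C0)
      (Real.sqrt_nonneg (S.ph Fx x J))
    have h5 := hE1 J J2
    have h6 : (G.card : ℝ) * a ≤ η := (mul_le_mul_of_nonneg_right h3 a0.le).trans ha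
    have h7 := mul_pos a0 q0
    refine (sum_le_sum h1).trans ?_
    rw [sum_add_distrib, sum_const, nsmul_eq_mul, ← sum_mul, ← mul_sum]
    have h8 : η * a ^ 2 * S.ph Fx x J ≤ η * (a * S.ph Fx x J) := by
      rw [← mul_assoc]
      gcongr
      nlinarith
    linarith [mul_le_mul_of_nonneg_right h6 h7.le]
  have inj0 : ∀ G : Finset ℕ, (∀ l ∈ G, S.rel (S.f^[l] x) 1 ≠ 1) → ∀ u, (∀ l ∈ G, S.lr x l < u) →
      (G.card : ℝ) ≤ u := fun G h u h' => Nat.cast_le.2 (card_le_of_lt G _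
    (sl_inj x (l := 0) fun l hl => ⟨Nat.zero_le l, h l hl⟩) h')
  have brk : ∀ z ∈ S.orb x, ∀ i, i ≤ I → A (S.f^[i] z) → Fx (S.f^[I] z) →
      ∃ l ∈ slG x 0 I, i ≤ l ∧ Bad (S.f^[l] z) := fun z hz i h1 h2 h3 => by
    by_contra h4
    exact W.F3 _ (W.hist hz h1 h3 fun l b1 b2 b3 b4 =>
      h4 ⟨l, mem_slG.2 ⟨Nat.zero_le l, b2, b3⟩, b1, b4⟩) h2
  have t0 : ∀ z i l, 0 ≤ ind (A (S.f^[i] z)) * ind (Bad (S.f^[l] z)) * ind (Fx (S.f^[J] z)) :=
    fun _ _ _ => mul_nonneg (mul_nonneg (ind_nonneg _) (ind_nonneg _)) (ind_nonneg _)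
  have ap := mul_pos a0 p0
  have aq : a * S.ph Fx x J ≤ 2 * (a * S.ph Fx x I) := by
    linarith [mul_le_mul_of_nonneg_left pd a0.le]
  have aq0 := mul_pos a0 q0
  by_cases hB : ∃ l ∈ slG x 0 I, S.lr x l < u0 ∧ κ * u0 ≤ l
  swap
  · have h1 := low 0 (Nat.zero_le I) (by rw [Sys.lr_zero]; omega)
    have h2 : S.av x (fun z => ind (A (S.f^[0] z)) * ind (Fx (S.f^[I] z))) ≤ S.av x fun z =>
        ∑ l ∈ slG x 0 I, ind (A (S.f^[0] z)) * ind (Bad (S.f^[l] z)) * ind (Fx (S.f^[J] z)) :=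
      Sys.av_mono fun z hz => by
        rw [← ind_and]
        by_cases e : A (S.f^[0] z) ∧ Fx (S.f^[I] z)
        · obtain ⟨l, e1, -, e2⟩ := brk z hz 0 (Nat.zero_le I) e.1 e.2
          rw [ind_pos e]
          exact la_one (fun _ _ => t0 z 0 _) e1 (by
            rw [ind_pos e.1, ind_pos e2, ind_pos (W.up J1 e.2)]; norm_num)
        · rw [ind_neg e]
          exact sum_nonneg fun _ _ => t0 z 0 _
    rw [Sys.av_sum, ← sum_filter_add_sum_filter_not (slG x 0 I) fun l => S.lr x l < u0] at h2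
    have h3 := U3 0 ((slG x 0 I).filter fun l => ¬ S.lr x l < u0) fun l hl =>
      ⟨(mem_filter.1 hl).1, Nat.zero_le l, not_lt.1 (mem_filter.1 hl).2⟩
    have h4 := sum_le_card_nsmul ((slG x 0 I).filter fun l => S.lr x l < u0) _ _ fun l hl => by
      obtain ⟨e1, e2⟩ := mem_filter.1 hl
      have e3 := mem_slG.1 e1
      exact U2 0 l (Nat.pos_of_ne_zero fun e => e3.2.2 (e ▸ r0)) e3.2.1.le
        (not_le.1 fun e => hB ⟨l, e1, e2, e⟩).le
    have h5 := inj0 ((slG x 0 I).filter fun l => S.lr x l < u0)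
      (fun l hl => (mem_slG.1 (mem_filter.1 hl).1).2.2) u0 fun l hl => (mem_filter.1 hl).2
    rw [nsmul_eq_mul] at h4
    have h6 : (((slG x 0 I).filter fun l => S.lr x l < u0).card : ℝ) * a ≤ η :=
      (mul_le_mul_of_nonneg_right (by linarith) a0.le).trans ha
    have h7 : (υ - η) * (a * S.ph Fx x I) ≤ 20 * η * (a * S.ph Fx x I) := by
      linarith [mul_le_mul_of_nonneg_right h6 aq0.le, mul_le_mul_of_nonneg_left aq η0.le]
    have := le_of_mul_le_mul_right h7 ap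
    linarith
  obtain ⟨l0, m1, m2, m3⟩ := hB
  have m4 := (mem_slG.1 m1).2.1
  set Rt := (range (κ * u0)).filter fun i => S.rel (S.f^[i] x) 1 = 1 with eR
  set N2 := (slG x 0 I).filter fun l => S.lr x l ≤ 2 * u0 with eN
  set Fa := (slG x 0 I).filter fun l => ¬ S.lr x l ≤ 2 * u0 with eF
  have mR : ∀ i ∈ Rt, i < κ * u0 := fun i hi => mem_range.1 (mem_filter.1 hi).1
  have mL : ∀ i, i < κ * u0 → S.lr x i < u0 := fun i hi =>
    (Sys.lr_mono x (show i ≤ l0 by omega)).trans_lt m2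
  have cR : (κ : ℝ) * u0 ≤ Rt.card + u0 := by
    have h1 := inj0 ((range (κ * u0)).filter fun i => ¬ S.rel (S.f^[i] x) 1 = 1)
      (fun l hl => (mem_filter.1 hl).2) u0 fun l hl => mL l (mem_range.1 (mem_filter.1 hl).1)
    have h2 := card_filter_add_card_filter_not (s := range (κ * u0))
      fun i => S.rel (S.f^[i] x) 1 = 1
    rw [card_range, ← eR] at h2
    have h3 := congrArg (Nat.cast : ℕ → ℝ) h2
    push_cast at h3
    linarith
  have cR' : (Rt.card : ℝ) ≤ κ * u0 := by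
    exact_mod_cast (card_filter_le _ _).trans (card_range _).le
  have cN := inj0 N2 (fun l hl => (mem_slG.1 (mem_filter.1 hl).1).2.2) (2 * u0 + 1)
    fun l hl => Nat.lt_succ_of_le (mem_filter.1 hl).2
  have h2 : S.av x (fun z => ∑ i ∈ Rt, ind (A (S.f^[i] z)) * ind (Fx (S.f^[I] z))) ≤
      S.av x fun z => ∑ l ∈ N2, ind (Bad (S.f^[l] z)) * ind (Fx (S.f^[J] z)) +
        ∑ i ∈ Rt, ∑ j ∈ Rt.erase i,
          ind (A (S.f^[i] z)) * ind (A (S.f^[j] z)) * ind (Fx (S.f^[J] z)) +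
        ∑ i ∈ Rt, ∑ l ∈ Fa,
          ind (A (S.f^[i] z)) * ind (Bad (S.f^[l] z)) * ind (Fx (S.f^[J] z)) :=
    Sys.av_mono fun z hz => by
      have e1 : 0 ≤ ∑ l ∈ N2, ind (Bad (S.f^[l] z)) * ind (Fx (S.f^[J] z)) :=
        sum_nonneg fun _ _ => mul_nonneg (ind_nonneg _) (ind_nonneg _)
      have e2 : 0 ≤ ∑ i ∈ Rt, ∑ j ∈ Rt.erase i,
          ind (A (S.f^[i] z)) * ind (A (S.f^[j] z)) * ind (Fx (S.f^[J] z)) :=
        sum_nonneg fun _ _ => sum_nonneg fun _ _ =>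
          mul_nonneg (mul_nonneg (ind_nonneg _) (ind_nonneg _)) (ind_nonneg _)
      have e3 : 0 ≤ ∑ i ∈ Rt, ∑ l ∈ Fa,
          ind (A (S.f^[i] z)) * ind (Bad (S.f^[l] z)) * ind (Fx (S.f^[J] z)) :=
        sum_nonneg fun _ _ => sum_nonneg fun _ _ => t0 z _ _
      by_cases e : Fx (S.f^[I] z)
      swap
      · simp only [ind_neg e, mul_zero, sum_const_zero]
        linarith
      by_cases e4 : ∃ l ∈ N2, Bad (S.f^[l] z)
      · obtain ⟨l, e5, e6⟩ := e4
        have e7 := la_one (g := fun l => ind (Bad (S.f^[l] z)) * ind (Fx (S.f^[J] z)))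
          (fun _ _ => mul_nonneg (ind_nonneg _) (ind_nonneg _)) e5
          (by simp only [ind_pos e6, ind_pos (W.up J1 e), mul_one])
        have e8 := la_count Rt fun i => A (S.f^[i] z)
        simp only [ind_pos e, ind_pos (W.up J1 e), mul_one] at e3 e7 ⊢
        linarith
      · refine (sum_le_sum fun i hi => ?_).trans (le_add_of_nonneg_left (add_nonneg e1 e2))
        by_cases e5 : A (S.f^[i] z)
        · obtain ⟨l, e6, -, e7⟩ := brk z hz i (by have := mR i hi; omega) e5 e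
          rw [ind_pos e5, ind_pos e, mul_one]
          exact la_one (fun _ _ => by simpa only [ind_pos e5] using t0 z i _)
            (mem_filter.2 ⟨e6, fun k => e4 ⟨l, mem_filter.2 ⟨e6, k⟩, e7⟩⟩)
            (by simp only [ind_pos e7, ind_pos (W.up J1 e), mul_one])
        · rw [ind_neg e5, zero_mul]
          exact sum_nonneg fun _ _ => by simp
  simp only [Sys.av_add, Sys.av_sum] at h2
  have h1 := card_nsmul_le_sum Rt _ _ fun i hi =>
    low i (by have := mR i hi; omega) (mL i (mR i hi)).le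
  have h3 := sum_le_card_nsmul N2 _ _ fun l hl => U1 l (mem_slG.1 (mem_filter.1 hl).1).2.1.le
  have h4 := sum_le_card_nsmul Rt _ _ fun i hi => U3 i Fa fun l hl => by
    obtain ⟨e1, e2⟩ := mem_filter.1 hl
    have e3 := mL i (mR i hi)
    have e4 : i ≤ l := not_lt.1 fun e => by have := Sys.lr_mono x e.le; omega
    have := Sys.uv_le x e4
    exact ⟨e1, e4, by omega⟩
  have h5 := sum_le_card_nsmul Rt (fun i => ∑ j ∈ Rt.erase i, S.av x fun z =>
      ind (A (S.f^[i] z)) * ind (A (S.f^[j] z)) * ind (Fx (S.f^[J] z)))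
      (3 * η * (a * S.ph Fx x J)) fun i hi => by
    refine (sum_le_card_nsmul _ _ (3 * a * (a * S.ph Fx x J)) fun j hj => ?_).trans ?_
    · have e1 := mR i hi
      have e2 := mR j (mem_of_mem_erase hj)
      rcases lt_or_gt_of_ne (ne_of_mem_erase hj) with e | e
      · refine (Sys.av_mono fun z _ => ?_).trans (U2 j i e (by omega) (by omega))
        rw [mul_comm (ind (A (S.f^[i] z)))]
        exact mul_le_mul_of_nonneg_right
          (mul_le_mul_of_nonneg_left (ind_mono (W.sub _)) (ind_nonneg _)) (ind_nonneg _)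
      · refine (Sys.av_mono fun z _ => ?_).trans (U2 i j e (by omega) (by omega))
        exact mul_le_mul_of_nonneg_right
          (mul_le_mul_of_nonneg_left (ind_mono (W.sub _)) (ind_nonneg _)) (ind_nonneg _)
    · have e1 : ((Rt.erase i).card : ℝ) ≤ Rt.card := Nat.cast_le.2 card_erase_le
      have e2 : (κ : ℝ) * u0 ≤ s := by exact_mod_cast (show κ * u0 ≤ s by omega)
      have e3 : ((Rt.erase i).card : ℝ) * a ≤ η :=
        (mul_le_mul_of_nonneg_right (by linarith) a0.le).trans ha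
      rw [nsmul_eq_mul]
      linarith [mul_le_mul_of_nonneg_right e3 aq0.le]
  simp only [nsmul_eq_mul] at h1 h3 h4 h5
  push_cast at cN
  have h6 : (Rt.card : ℝ) * (υ - η) * (a * S.ph Fx x I) ≤
      (18 * u0 + 20 * η * Rt.card) * (a * S.ph Fx x I) := by
    have e1 : (N2.card : ℝ) * (a * S.ph Fx x J) ≤ 3 * u0 * (2 * (a * S.ph Fx x I)) :=
      mul_le_mul (by linarith) aq aq0.le (by positivity)
    have e2 := mul_le_mul_of_nonneg_left aq (mul_nonneg η0.le (Nat.cast_nonneg Rt.card))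
    linarith
  have h7 := le_of_mul_le_mul_right h6 ap
  have h8 : (Rt.card : ℝ) * (79 / 100 * υ) ≤ 18 * u0 := by
    linarith [mul_le_mul_of_nonneg_left hη (Nat.cast_nonneg (α := ℝ) Rt.card)]
  have h9 : ((κ : ℝ) * u0 - u0) * (79 / 100 * υ) ≤ 18 * u0 :=
    (mul_le_mul_of_nonneg_right (by linarith) (by positivity)).trans h8
  linarith [mul_le_mul_of_nonneg_right hκ (zero_le_one.trans u1),
    mul_le_mul_of_nonneg_right υ1 (zero_le_one.trans u1)]

end Pool.Agent.Lib.MP_a2c890_nt.R
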