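import Pool.Agent.Lib.MP_a2c890_nt.R.Span

set_option autoImplicit false
set_option linter.unusedSectionVars false

namespace Pool.Agent.Lib.MP_a2c890_nt.R

open Finset T MvPolynomial

variable {K : Type} [Field K] [NumberField K] {d : ℕ} {F G : MvPolynomial (Fin 2) K}
  {β : Fin 2 → K}

/-- integers are the elements of all valuation rings -/
theorem lift_int {A : Type} [Field A] {z : A} :
    IsIntegral ℤ z ↔ ∀ V : ValuationSubring A, z ∈ V := by
  refine ⟨fun h V => ?_, fun h => ?_⟩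
  · obtain ⟨y, rfl⟩ := IsIntegrallyClosed.isIntegral_iff.mp (h.tower_top (A := V))
    exact y.2
  · have : Algebra.IsIntegral ℤ (Subring.closure (∅ : Set A)) := ⟨fun x => by
      obtain ⟨n, hn⟩ := Subring.mem_bot.mp ((Subring.closure_empty (R := A)).le x.2)
      rw [show x = n from Subtype.ext hn.symm]
      exact isIntegral_algebraMap (x := n)⟩
    have k : z ∈ (integralClosure (Subring.closure (∅ : Set A)) A).toSubring := by
      rw [← iInf_valuationSubring_superset]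
      exact Subring.mem_iInf.mpr fun V => h V.1
    exact isIntegral_trans (A := Subring.closure (∅ : Set A)) z k

/-- the certificate after scaling -/
theorem lift_key {A : Type} [Field A] [Algebra K A] {P Q : MvPolynomial (Fin 2) K} {m : ℕ}
    {i : Fin 2} (h : P.IsHomogeneous m ∧ Q.IsHomogeneous m ∧ P * F + Q * G = X i ^ (m + d))
    {v : Fin 2 → A} (h0 : v i ≠ 0) :
    v i ^ d = aeval ((v i)⁻¹ • v) P * ev F G v 0 + aeval ((v i)⁻¹ • v) Q * ev F G v 1 := by
  have e := congrArg (aeval v) h.2.2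
  rw [map_add, map_mul, map_mul, map_pow, aeval_X, pow_add] at e
  rw [aeval_smul_hom h.1, aeval_smul_hom h.2.1, mul_assoc, mul_assoc, ← mul_add, inv_pow,
    eq_inv_mul_iff_mul_eq₀ (pow_ne_zero m h0)]
  exact e.symm

theorem lift_nrm {A : Type} [NormedField A] [Algebra K A] (P : MvPolynomial (Fin 2) K)
    {u : Fin 2 → A} (hu : ∀ j, ‖u j‖ ≤ 1) :
    ‖aeval u P‖ ≤ ∑ κ ∈ P.support, ‖algebraMap K A (P.coeff κ)‖ := by
  rw [aeval_def, eval₂_eq]
  refine norm_sum_le_of_le _ fun κ _ => ?_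
  rw [norm_mul, norm_prod]
  exact mul_le_of_le_one_right (norm_nonneg _) (prod_le_one (fun j _ => norm_nonneg _) fun j _ => by
    rw [norm_pow]
    exact pow_le_one₀ (norm_nonneg _) (hu j))

theorem lift_low {A : Type} [NormedField A] [Algebra K A] {P Q : Fin 2 → MvPolynomial (Fin 2) K}
    {m : ℕ} (h : ∀ i, (P i).IsHomogeneous m ∧ (Q i).IsHomogeneous m ∧
      P i * F + Q i * G = X i ^ (m + d)) (hd : 2 ≤ d) {C : ℝ}
    (hC : ∀ i, ∑ κ ∈ (P i).support, ‖algebraMap K A ((P i).coeff κ)‖ +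
      ∑ κ ∈ (Q i).support, ‖algebraMap K A ((Q i).coeff κ)‖ ≤ C) (v : Fin 2 → A) :
    ‖v‖ ^ d ≤ C * ‖ev F G v‖ := by
  obtain ⟨i, hi⟩ := Finite.exists_max fun j => ‖v j‖
  refine (pow_le_pow_left₀ (norm_nonneg _)
    ((pi_norm_le_iff_of_nonneg (norm_nonneg _)).mpr hi) d).trans ?_
  refine le_trans ?_ (mul_le_mul_of_nonneg_right (hC i) (norm_nonneg _))
  rcases eq_or_ne (v i) 0 with h0 | h0
  · rw [h0, norm_zero, zero_pow (by omega)]
    positivity
  · have hu : ∀ j, ‖((v i)⁻¹ • v) j‖ ≤ 1 := fun j => by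
      rw [Pi.smul_apply, smul_eq_mul, norm_mul, norm_inv]
      exact inv_mul_le_one_of_le₀ (hi j) (norm_nonneg _)
    rw [← norm_pow, lift_key (h i) h0, add_mul]
    refine norm_add_le_of_le ?_ ?_ <;> rw [norm_mul] <;>
      exact mul_le_mul (lift_nrm _ hu) (norm_le_pi_norm _ _) (norm_nonneg _) (by positivity)

theorem lift_val {A : Type} [Field A] [Algebra K A] {P Q : Fin 2 → MvPolynomial (Fin 2) K}
    {m : ℕ} (h : ∀ i, (P i).IsHomogeneous m ∧ (Q i).IsHomogeneous m ∧
      P i * F + Q i * G = X i ^ (m + d)) (hd : 2 ≤ d) (V : ValuationSubring A) {c : ℕ}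
    (hc : ∀ i, (∀ κ ∈ (P i).support, (c : A) * algebraMap K A ((P i).coeff κ) ∈ V) ∧
      ∀ κ ∈ (Q i).support, (c : A) * algebraMap K A ((Q i).coeff κ) ∈ V) {v : Fin 2 → A}
    (hv : ∀ j, (c : A) * ev F G v j ∈ V) (j : Fin 2) : (c : A) * v j ∈ V := by
  obtain ⟨i, hi⟩ := Finite.exists_max fun j => V.valuation (v j)
  rw [← V.valuation_le_one_iff, map_mul]
  refine (mul_le_mul_right (hi j) _).trans ?_
  rw [← map_mul]
  rcases eq_or_ne (v i) 0 with h0 | h0
  · rw [h0, mul_zero, map_zero]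
    exact zero_le
  · have hu : ∀ j, ((v i)⁻¹ • v) j ∈ V := fun j => by
      rw [← V.valuation_le_one_iff, Pi.smul_apply, smul_eq_mul, map_mul, map_inv₀]
      exact inv_mul_le_one_of_le₀ (hi j) zero_le
    have k : ∀ H : MvPolynomial (Fin 2) K,
        (∀ κ ∈ H.support, (c : A) * algebraMap K A (H.coeff κ) ∈ V) →
        (c : A) * aeval ((v i)⁻¹ • v) H ∈ V := fun H hH => by
      rw [aeval_def, eval₂_eq, mul_sum]
      refine sum_mem fun κ hκ => ?_
      rw [← mul_assoc]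
      exact mul_mem (hH κ hκ) (prod_mem fun j _ => pow_mem (hu j) _)
    obtain ⟨n, rfl⟩ := Nat.exists_eq_add_of_le' hd
    rw [← pow_le_one_iff (n := n + 2) (by omega), ← map_pow, V.valuation_le_one_iff, mul_pow,
      lift_key (h i) h0, pow_add, mul_assoc, mul_add, pow_two, mul_mul_mul_comm,
      mul_mul_mul_comm (c : A) c]
    exact mul_mem (pow_mem (natCast_mem V c) n)
      (add_mem (mul_mem (k _ (hc i).1) (hv 0)) (mul_mem (k _ (hc i).2) (hv 1)))

/-- exact lifts have bounded size at all places -/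
theorem Glb.lift_sz (D : Glb K d F G β) : ∃ (c : ℕ) (B : ℝ), 0 < c ∧ (d : ℝ) ≤ B ∧
    ∀ (n : ℕ) (v : Fin 2 → AlgebraicClosure K),
      (ev F G)^[n] v = algebraMap K (AlgebraicClosure K) ∘ β → ∀ i, Sz c B 1 (v i) := by
  classical
  obtain ⟨m, hm⟩ := D.cert2
  choose P Q h using hm m le_rfl
  obtain ⟨y, y0, hy⟩ := exists_integral_multiples ℤ ℚ (L := K) (univ.biUnion fun i : Fin 2 =>
    insert (β i) ((P i).support.image (P i).coeff ∪ (Q i).support.image (Q i).coeff))
  have hy' : ∀ (V : ValuationSubring (AlgebraicClosure K)) (i : Fin 2) (x : K),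
      x ∈ insert (β i) ((P i).support.image (P i).coeff ∪ (Q i).support.image (Q i).coeff) →
      (y.natAbs : AlgebraicClosure K) * algebraMap K _ x ∈ V := fun V i x hx => by
    have := lift_int.mp ((hy x (mem_biUnion.mpr ⟨i, mem_univ i, hx⟩)).map
      (algebraMap K (AlgebraicClosure K)).toIntAlgHom) V
    rw [zsmul_eq_mul, map_mul, map_intCast] at this
    rw [Nat.cast_natAbs]
    rcases abs_choice y with h | h <;> rw [h]
    · exact this
    · rw [Int.cast_neg, neg_mul]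
      exact neg_mem this
  obtain ⟨B, hB⟩ := Finite.bddAbove_range fun a : (K →+* ℂ) × Fin 2 => max ‖a.1 (β a.2)‖
    (∑ κ ∈ (P a.2).support, ‖a.1 ((P a.2).coeff κ)‖ +
      ∑ κ ∈ (Q a.2).support, ‖a.1 ((Q a.2).coeff κ)‖)
  have B1 : (1 : ℝ) ≤ max B d := le_max_of_le_right (by exact_mod_cast D.d2.trans' one_le_two)
  refine ⟨y.natAbs, max B d, Int.natAbs_pos.mpr y0, le_max_right _ _, fun n => ?_⟩
  simp only [Sz, pow_one]
  induction n with
  | zero =>
    rintro v rfl i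
    exact ⟨lift_int.mpr fun V => hy' V i _ (mem_insert_self _ _), fun τ => le_max_of_le_left
      ((le_max_left _ _).trans (hB ⟨(τ.comp (algebraMap K _), i), rfl⟩))⟩
  | succ n ih =>
    intro v hv i
    have a := ih _ hv
    refine ⟨lift_int.mpr fun V => lift_val h D.d2 V (fun i =>
      ⟨fun κ hκ => hy' V i _ (mem_insert_of_mem (mem_union_left _ (mem_image_of_mem _ hκ))),
        fun κ hκ => hy' V i _ (mem_insert_of_mem (mem_union_right _ (mem_image_of_mem _ hκ)))⟩)
      (fun j => lift_int.mp (a j).1 V) i, fun τ => ?_⟩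
    let _ : Algebra K ℂ := (τ.comp (algebraMap K (AlgebraicClosure K))).toAlgebra
    have k := lift_low h D.d2 (C := max B d) (fun i => le_max_of_le_left
      ((le_max_right _ _).trans (hB ⟨(τ.comp (algebraMap K _), i), rfl⟩))) (τ ∘ v)
    have e := ev_map (F := F) (G := G) (⟨τ, fun _ => rfl⟩ : AlgebraicClosure K →ₐ[K] ℂ) v
    have k2 : ‖ev F G (τ ∘ v)‖ ≤ max B d :=
      (pi_norm_le_iff_of_nonneg (zero_le_one.trans B1)).mpr fun j =>
        (congrArg norm (congrFun e j)).symm.trans_le ((a j).2 τ)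
    refine (norm_le_pi_norm (τ ∘ v) i).trans (le_of_pow_le_pow_left₀ (n := d)
      (by have := D.d2; omega) (zero_le_one.trans B1) (k.trans ?_))
    refine (mul_le_mul_of_nonneg_left k2 (zero_le_one.trans B1)).trans ?_
    rw [← pow_two]
    exact pow_le_pow_right₀ B1 D.d2

/-- lower bound at the place -/
theorem Glb.low (D : Glb K d F G β) {p : ℕ} [Fact p.Prime] [Algebra K (PadicAlgCl p)] :
    ∃ ρ : ℝ, 0 < ρ ∧ ∀ v : Vc p, ρ * ‖v‖ ^ d ≤ ‖ev F G v‖ := by
  obtain ⟨m, hm⟩ := D.cert2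
  choose P Q h using hm m le_rfl
  obtain ⟨B, hB⟩ := Finite.bddAbove_range fun i : Fin 2 =>
    ∑ κ ∈ (P i).support, ‖algebraMap K (PadicAlgCl p) ((P i).coeff κ)‖ +
      ∑ κ ∈ (Q i).support, ‖algebraMap K (PadicAlgCl p) ((Q i).coeff κ)‖
  have B1 : (0 : ℝ) < max B 1 := lt_max_of_lt_right one_pos
  refine ⟨(max B 1)⁻¹, inv_pos.mpr B1, fun v => ?_⟩
  rw [inv_mul_le_iff₀ B1]
  exact lift_low h D.d2 (fun i => le_max_of_le_left (hB ⟨i, rfl⟩)) v

end Pool.Agent.Lib.MP_a2c890_nt.R
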