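import Pool.Agent.Lib.MP_a2c890_nt.R.Last

set_option autoImplicit false
set_option linter.unusedSectionVars false

namespace Pool.Agent.Lib.MP_a2c890_nt.R

open Finset T

theorem ma_exp {b : ℝ} (b0 : 0 ≤ b) (b1 : b ≤ 1 / 8) (U n : ℕ) (h : b * U ≤ n) :
    Real.exp (-8) ^ n ≤ (1 - 4 * b) ^ U := by
  have h1 : Real.exp (-(8 * b)) ≤ 1 - 4 * b := by
    have h2 := Real.add_one_le_exp (8 * b)
    rw [Real.exp_neg, inv_le_iff_one_le_mul₀ (Real.exp_pos _)]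
    nlinarith [mul_le_mul_of_nonneg_left h2 (show 0 ≤ 1 - 4 * b by linarith)]
  refine le_trans ?_ (pow_le_pow_left₀ (Real.exp_pos _).le h1 U)
  rw [← Real.exp_nat_mul, ← Real.exp_nat_mul]
  exact Real.exp_le_exp.2 (by linarith)

theorem ma_err {C lam η a f : ℝ} (C1 : 1 ≤ C) (l0 : 0 < lam) (l1 : lam < 1) (η0 : 0 < η)
    (η1 : η ≤ 1) {k1 k n : ℕ} (hn : 1 ≤ n) (hk : k ≤ n)
    (h1 : lam ^ k1 ≤ Real.exp (-8) / 4 * (3 / 4 * η * (1 - lam) / C))
    (ha : (1 / 2 : ℝ) ^ k ≤ a) (hf : Real.exp (-8) ^ n ≤ f) (f1 : f ≤ 1) :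
    C * (lam ^ (k1 * n) / (1 - lam)) ≤ η * a ^ 2 * √(3 / 4 * f) := by
  have e0 := Real.exp_pos (-8)
  have f0 : 0 ≤ f := (pow_nonneg e0.le n).trans hf
  have m0 : 0 < 1 - lam := by linarith
  have ε0 : 0 ≤ 3 / 4 * η * (1 - lam) / C := by positivity
  have ε1 : 3 / 4 * η * (1 - lam) / C ≤ 1 := by
    rw [div_le_one (by linarith)]
    nlinarith
  have h2 : lam ^ (k1 * n) ≤ (Real.exp (-8) / 4) ^ n * (3 / 4 * η * (1 - lam) / C) := by
    rw [pow_mul]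
    refine (pow_le_pow_left₀ (by positivity) h1 n).trans ?_
    rw [mul_pow]
    exact mul_le_mul_of_nonneg_left (pow_le_of_le_one ε0 ε1 (by omega)) (by positivity)
  have h3 : (1 / 4 : ℝ) ^ n ≤ a ^ 2 := by
    refine (pow_le_pow_of_le_one (by norm_num) (by norm_num) hk).trans
      (le_trans (le_of_eq ?_) (pow_le_pow_left₀ (by positivity) ha 2))
    rw [← pow_mul, mul_comm, pow_mul]
    norm_num
  have h4 : 3 / 4 * f ≤ √(3 / 4 * f) :=
    Real.le_sqrt_of_sq_le (by nlinarith)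
  calc C * (lam ^ (k1 * n) / (1 - lam))
      ≤ C * ((Real.exp (-8) / 4) ^ n * (3 / 4 * η * (1 - lam) / C) / (1 - lam)) := by gcongr
    _ = η * (1 / 4) ^ n * (3 / 4 * Real.exp (-8) ^ n) := by
      rw [div_pow, one_div_pow]
      field_simp
    _ ≤ η * a ^ 2 * √(3 / 4 * f) := by
      refine mul_le_mul (by gcongr) (le_trans (by gcongr) h4) (by positivity) (by positivity)

/-- no rational step once the degree is large -/
theorem main {d : ℕ} (S : Sys d) {c : ℕ} {C lam υ : ℝ} (c1 : 1 ≤ c) (C1 : 1 ≤ C) (l0 : 0 < lam)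
    (l1 : lam < 1) (υ0 : 0 < υ) (υ1 : υ ≤ 1) :
    ∃ u1 : ℕ, ∀ n0 : ℕ, (∀ m y, n0 ≤ m → S.lev m y → u1 ≤ S.lr y m) → HasWin S c C lam υ n0 →
      ∃ U1 : ℕ, ∀ m x, n0 ≤ m → S.lev m x → U1 ≤ S.lr x m → S.rel x 1 ≠ 1 := by
  have m0 : 0 < 1 - lam := by linarith
  have C0 : 0 < C := by linarith
  obtain ⟨u1, hu1⟩ := exists_pow_lt_of_lt_one (show 0 < (1 - lam) / (8 * C) by positivity) l1
  have h3 : C * (lam ^ u1 / (1 - lam)) ≤ 1 / 8 := by
    rw [lt_div_iff₀ (by positivity)] at hu1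
    rw [← mul_div_assoc, div_le_iff₀ m0]
    linarith
  refine ⟨u1, fun n0 hu hW => ?_⟩
  obtain ⟨k0, hk0⟩ := exists_pow_lt_of_lt_one
    (show 0 < Real.exp (-8) / 4 * (3 / 4 * (υ / 100) * (1 - lam) / C) by positivity) l1
  obtain ⟨κ, hκ⟩ := exists_nat_ge (64 / υ)
  rw [div_le_iff₀ υ0] at hκ
  obtain ⟨k1, e1⟩ : ∃ k1, k1 = k0 + c := ⟨_, rfl⟩
  obtain ⟨K, eK⟩ : ∃ K, K = c * (κ * k1 + 1) + k1 + 1 := ⟨_, rfl⟩
  have K1 : (1 : ℝ) ≤ K := Nat.one_le_cast.2 (by omega)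
  obtain ⟨η, η0, eη⟩ : ∃ η : ℝ, 0 < η ∧ 3 * K * η = υ / 100 :=
    ⟨υ / 100 / (3 * K), by positivity, by field_simp⟩
  obtain ⟨U0, hU0⟩ := hW η η0
  refine ⟨max U0 (2 * (2 * K + d + d * n0 + 1)), fun m x hm hx hU => ?_⟩
  obtain ⟨k, a, b, A, Bad, Fx, W, w1, w2, w3⟩ := hU0 _ ((le_max_left _ _).trans hU)
  obtain ⟨T, rfl⟩ := Nat.exists_eq_add_of_le hm
  have hU2 := (le_max_right _ _).trans hU
  obtain ⟨U, eU⟩ : ∃ U, U = S.lr x (n0 + T) := ⟨_, rfl⟩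
  rw [← eU] at hU2 w1 w3
  have a0 := W.a0
  have ab := W.ab
  have b0 : 0 < b := a0.trans_le ab
  have k1' : (1 : ℝ) ≤ k := Nat.one_le_cast.2 W.k1
  have bη : b ≤ η := by nlinarith
  have η1 : η ≤ 1 / 300 := by nlinarith
  have U0' : (0 : ℝ) ≤ U := Nat.cast_nonneg U
  obtain ⟨n, en⟩ : ∃ n, n = k + ⌈b * U⌉₊ := ⟨_, rfl⟩
  have n1 : b * U ≤ n := (Nat.le_ceil _).trans (Nat.cast_le.2 (by omega))
  have n2 : (n : ℝ) ≤ k + b * U + 1 := by
    have := (Nat.ceil_lt_add_one (mul_nonneg b0.le U0')).le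
    rw [en]
    push_cast
    linarith
  have kn : k ≤ n := by omega
  have n0' : 1 ≤ n := W.k1.trans kn
  obtain ⟨s, es⟩ : ∃ s, s = c * (κ * (k1 * n) + k) := ⟨_, rfl⟩
  have sK : s + k1 * n + 1 ≤ K * n := by
    have h1 : s ≤ c * (κ * k1 + 1) * n := by
      rw [es, mul_assoc, add_mul, one_mul, mul_assoc]
      exact Nat.mul_le_mul_left c (Nat.add_le_add_left kn _)
    rw [eK, add_mul, add_mul, one_mul]
    omega
  have sK' : (s : ℝ) + (k1 * n : ℕ) + 1 ≤ K * n := by exact_mod_cast sK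
  have nb : n * b ≤ 3 * η := by nlinarith [mul_le_mul_of_nonneg_right n2 b0.le]
  have hb : ((s : ℝ) + (k1 * n : ℕ) + 1) * b ≤ υ / 100 := by
    refine (mul_le_mul_of_nonneg_right sK' b0.le).trans ?_
    rw [mul_assoc]
    linarith [mul_le_mul_of_nonneg_left nb (zero_le_one.trans K1)]
  have u0' : (0 : ℝ) ≤ (k1 * n : ℕ) := Nat.cast_nonneg _
  have s0 : (0 : ℝ) ≤ s := Nat.cast_nonneg _
  have β0 : 0 ≤ 1 - 4 * b := by linarith
  have hf := ma_exp b0.le (by linarith) U n n1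
  have hE := ma_err C1 l0 l1 (show 0 < υ / 100 by positivity) (by linarith) n0' kn
    ((pow_le_pow_of_le_one l0.le l1.le (show k0 ≤ k1 by omega)).trans hk0.le) W.alo hf
    (pow_le_one₀ β0 (by linarith))
  have κ1 : 1 ≤ κ := Nat.pos_of_ne_zero fun e => by
    rw [e] at hκ
    norm_num at hκ
  have us : k1 * n ≤ s := by
    rw [es]
    exact ((Nat.le_mul_of_pos_left _ κ1).trans (Nat.le_add_right _ _)).trans
      (Nat.le_mul_of_pos_left _ c1)
  obtain ⟨r1, r2⟩ := W.slide C0.le l0 l1 hx hu eU.ge (s := s)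
    (by linarith [mul_nonneg u0' b0.le]) (by
      refine le_trans (mul_le_mul_of_nonneg_left ((pow_le_pow_of_le_one l0.le l1.le us).trans
        (le_div_self (pow_nonneg l0.le _) m0 (by linarith))) C0.le) (hE.trans ?_)
      refine mul_le_mul_of_nonneg_right ?_ (Real.sqrt_nonneg _)
      have h1 : a ^ 2 ≤ b := by nlinarith
      exact (mul_le_of_le_one_left (sq_nonneg a) (by linarith)).trans h1) h3
  refine W.last c1 C0.le l0 l1 υ0 υ1 hx (u0 := k1 * n) (κ := κ)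
    (mul_pos (by norm_num) ((pow_pos (Real.exp_pos _) n).trans_le hf)) r1 r2 le_rfl hκ
    (Nat.mul_pos (by omega) n0') (Nat.mul_le_mul (by omega) kn) es.ge
    ((mul_le_mul_of_nonneg_left ab (by positivity)).trans hb) hE ?_
  have h1 := Sys.uv_le x (Nat.le_add_left T n0)
  have h2 := Sys.lr_le (S.f^[T] x) (n0 + T - T)
  rw [Nat.add_sub_cancel, ← eU] at h1
  rw [Nat.add_sub_cancel] at h2
  have h4 : 4 * (K * n) ≤ U + 4 * K := by
    have e2 : (n : ℝ) ≤ 2 * η * U + 1 := by linarith [mul_le_mul_of_nonneg_right bη U0']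
    have e3 := mul_le_mul_of_nonneg_left e2 (zero_le_one.trans K1)
    have e4 : K * η * U ≤ 1 / 300 * U := mul_le_mul_of_nonneg_right (by linarith) U0'
    have e5 : (4 : ℝ) * (K * n) ≤ U + 4 * K := by linarith
    exact_mod_cast e5
  omega

end Pool.Agent.Lib.MP_a2c890_nt.R
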