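import Pool.Agent.Lib.MP_a2c890_nt.TFin
import Pool.Agent.Lib.MP_a2c890_nt.IntG

set_option autoImplicit false
set_option linter.unusedSectionVars false

namespace Pool.Agent.Lib.MP_a2c890_nt.R

open Finset T

/-- a group acting on a set with an equivariant self-map whose fibres have at most `d` points -/
structure Sys (d : ℕ) where
  G : Type
  Ω : Type
  [grp : Group G]
  [act : MulAction G Ω]
  f : Ω → Ω
  b : Ω
  eqv : ∀ (g : G) x, f (g • x) = g • f x
  bfix : ∀ g : G, g • b = b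
  fin : ∀ x : Ω, (MulAction.orbit G x).Finite
  fibre : ∀ y (Y : Finset Ω), (∀ z ∈ Y, f z = y) → Y.card ≤ d

attribute [instance] Sys.grp Sys.act

namespace Sys

variable {d : ℕ} (S : Sys d)

/-- orbit -/
noncomputable def orb (x : S.Ω) : Finset S.Ω := (S.fin x).toFinset

open Classical in
/-- part of an orbit above a point -/
noncomputable def fib (x : S.Ω) (k : ℕ) (y : S.Ω) : Finset S.Ω :=
  (S.orb x).filter fun z => S.f^[k] z = y

/-- relative degree -/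
noncomputable def rel (x : S.Ω) (k : ℕ) : ℕ := (S.fib x k (S.f^[k] x)).card

/-- logarithm of the relative degree -/
noncomputable def lr (x : S.Ω) (k : ℕ) : ℕ := Nat.log 2 (S.rel x k)

/-- average over an orbit -/
noncomputable def av (x : S.Ω) (h : S.Ω → ℝ) : ℝ := (∑ z ∈ S.orb x, h z) / (S.orb x).card

/-- level of a point over the base point -/
def lev (m : ℕ) (x : S.Ω) : Prop := S.f^[m] x = S.b

variable {S}

theorem mem_orb {x y : S.Ω} : y ∈ S.orb x ↔ ∃ σ : S.G, σ • x = y := by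
  rw [orb, Set.Finite.mem_toFinset]; rfl

theorem self_orb (x : S.Ω) : x ∈ S.orb x := mem_orb.mpr ⟨1, one_smul _ _⟩

theorem orb_pos (x : S.Ω) : 0 < (S.orb x).card := card_pos.mpr ⟨x, self_orb x⟩

theorem gal_orb {x y : S.Ω} (σ : S.G) (h : y ∈ S.orb x) : σ • y ∈ S.orb x := by
  obtain ⟨τ, rfl⟩ := mem_orb.mp h
  exact mem_orb.mpr ⟨σ * τ, mul_smul _ _ _⟩

theorem orb_eq {x y : S.Ω} (h : y ∈ S.orb x) : S.orb y = S.orb x := by
  obtain ⟨τ, rfl⟩ := mem_orb.mp h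
  ext z
  simp only [mem_orb]
  exact ⟨fun ⟨σ, h⟩ => ⟨σ * τ, by rw [mul_smul, h]⟩,
    fun ⟨σ, h⟩ => ⟨σ * τ⁻¹, by rw [mul_smul, inv_smul_smul, h]⟩⟩

theorem gal_f (σ : S.G) (k : ℕ) (z : S.Ω) : S.f^[k] (σ • z) = σ • S.f^[k] z := by
  induction k with
  | zero => rfl
  | succ k ih => rw [Function.iterate_succ_apply', Function.iterate_succ_apply', ih, S.eqv]

theorem f_orb (k : ℕ) {x z : S.Ω} (h : z ∈ S.orb x) : S.f^[k] z ∈ S.orb (S.f^[k] x) := by
  obtain ⟨τ, rfl⟩ := mem_orb.mp h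
  exact mem_orb.mpr ⟨τ, (gal_f τ k x).symm⟩

theorem lev_orb {m : ℕ} {x z : S.Ω} (h : S.lev m x) (hz : z ∈ S.orb x) : S.lev m z := by
  obtain ⟨τ, rfl⟩ := mem_orb.mp hz
  rw [lev, gal_f, h, S.bfix]

theorem lev_iter {m k : ℕ} {x : S.Ω} (h : S.lev m x) (hk : k ≤ m) : S.lev (m - k) (S.f^[k] x) := by
  rw [lev, ← Function.iterate_add_apply, Nat.sub_add_cancel hk, h]

theorem orb_b : S.orb S.b = {S.b} := by
  ext z
  rw [mem_orb, mem_singleton]
  exact ⟨fun ⟨σ, h⟩ => h.symm.trans (S.bfix σ), fun h => ⟨1, by rw [one_smul, h]⟩⟩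

theorem mem_fib {x y z : S.Ω} {k : ℕ} : z ∈ S.fib x k y ↔ z ∈ S.orb x ∧ S.f^[k] z = y := by
  classical
  rw [fib, mem_filter]

open Classical in
theorem image_orb (σ : S.G) (x : S.Ω) : (S.orb x).image (σ • ·) = S.orb x := by
  ext z
  rw [mem_image]
  exact ⟨fun ⟨w, h1, h2⟩ => h2 ▸ gal_orb σ h1, fun h => ⟨σ⁻¹ • z, gal_orb _ h, by simp⟩⟩

open Classical in
theorem image_fib (σ : S.G) (x : S.Ω) (k : ℕ) (y : S.Ω) :
    (S.fib x k y).image (σ • ·) = S.fib x k (σ • y) := by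
  ext z
  simp only [mem_image, mem_fib]
  refine ⟨fun ⟨w, ⟨h1, h3⟩, h2⟩ => h2 ▸ ⟨gal_orb σ h1, by rw [gal_f, h3]⟩,
    fun h => ⟨σ⁻¹ • z, ⟨gal_orb _ h.1, by rw [gal_f, h.2]; simp⟩, by simp⟩⟩

theorem card_fib {x y : S.Ω} {k : ℕ} (h : y ∈ S.orb (S.f^[k] x)) :
    (S.fib x k y).card = S.rel x k := by
  classical
  obtain ⟨σ, rfl⟩ := mem_orb.mp h
  rw [← image_fib, card_image_of_injective _ (MulAction.injective σ), rel]

theorem sum_orb (x : S.Ω) (k : ℕ) (h : S.Ω → ℝ) :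
    ∑ z ∈ S.orb x, h z = ∑ y ∈ S.orb (S.f^[k] x), ∑ z ∈ S.fib x k y, h z := by
  classical
  rw [← sum_fiberwise_of_maps_to fun z hz => f_orb k hz]
  exact sum_congr rfl fun y _ => sum_congr (by ext; simp only [mem_filter, mem_fib]) fun _ _ => rfl

theorem card_orb (x : S.Ω) (k : ℕ) :
    (S.orb x).card = S.rel x k * (S.orb (S.f^[k] x)).card := by
  have := sum_orb x k fun _ => 1
  rw [sum_congr rfl (s₁ := S.orb (S.f^[k] x)) (g := fun _ => (S.rel x k : ℝ)) fun y hy => by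
    rw [sum_const, card_fib hy, nsmul_eq_mul, mul_one], sum_const, sum_const, nsmul_eq_mul,
    nsmul_eq_mul, mul_one, mul_comm] at this
  exact_mod_cast this

theorem rel_lev {m : ℕ} {x : S.Ω} (h : S.lev m x) : S.rel x m = (S.orb x).card := by
  rw [card_orb x m, h, orb_b, card_singleton, mul_one]

theorem rel_pos (x : S.Ω) (k : ℕ) : 0 < S.rel x k :=
  card_pos.mpr ⟨x, mem_fib.mpr ⟨self_orb x, rfl⟩⟩

theorem rel_add (x : S.Ω) (k l : ℕ) : S.rel x (l + k) = S.rel x k * S.rel (S.f^[k] x) l := by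
  have h1 := card_orb x (l + k)
  rw [card_orb x k, card_orb (S.f^[k] x) l, ← mul_assoc, Function.iterate_add_apply] at h1
  exact (Nat.eq_of_mul_eq_mul_right (orb_pos _) h1).symm

theorem rel_conj {x z : S.Ω} (h : z ∈ S.orb x) (k : ℕ) : S.rel z k = S.rel x k := by
  rw [← card_fib (f_orb k h), rel, fib, fib, orb_eq h]

theorem card_pre_le (k : ℕ) (y : S.Ω) :
    ∀ Y : Finset S.Ω, (∀ z ∈ Y, S.f^[k] z = y) → Y.card ≤ d ^ k := by
  classical
  induction k with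
  | zero => exact fun Y h => card_le_one.mpr fun a ha b hb => (h a ha).trans (h b hb).symm
  | succ k ih =>
    intro Y h
    refine (card_le_mul_card_image (f := S.f) Y d fun w _ =>
      S.fibre w _ fun z hz => (mem_filter.mp hz).2).trans ?_
    rw [pow_succ']
    refine Nat.mul_le_mul_left d (ih _ fun w hw => ?_)
    obtain ⟨z, hz, rfl⟩ := mem_image.mp hw
    exact h z hz

theorem pre_fin (n : ℕ) (y : S.Ω) : {z | S.f^[n] z = y}.Finite := by
  by_contra h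
  obtain ⟨t, h1, h2⟩ := Set.Infinite.exists_subset_card_eq h (d ^ n + 1)
  have := card_pre_le n y t fun z hz => h1 hz
  omega

theorem rel_le (x : S.Ω) (k : ℕ) : S.rel x k ≤ d ^ k :=
  card_pre_le k _ _ fun _ hz => (mem_fib.mp hz).2

theorem rel_zero (x : S.Ω) : S.rel x 0 = 1 := le_antisymm (rel_le x 0) (rel_pos x 0)

/-- a rational step: a conjugate with the same image is the same point -/
theorem eq_of_rel_one {x z : S.Ω} (h : S.rel x 1 = 1) (hz : z ∈ S.orb x) (e : S.f z = S.f x) :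
    z = x :=
  card_le_one.mp h.le z (mem_fib.mpr ⟨hz, e⟩) x (mem_fib.mpr ⟨self_orb x, rfl⟩)

theorem av_comp (x : S.Ω) (k : ℕ) (h : S.Ω → ℝ) :
    S.av x (fun z => h (S.f^[k] z)) = S.av (S.f^[k] x) h := by
  have h1 : (0 : ℝ) < S.rel x k := by exact_mod_cast rel_pos x k
  rw [av, av, sum_orb x k, sum_congr rfl (g := fun y => S.rel x k * h y) fun y hy => by
    rw [sum_congr rfl (g := fun _ => h y) fun z hz => by rw [(mem_fib.mp hz).2], sum_const,
      card_fib hy, nsmul_eq_mul], ← mul_sum, card_orb x k, Nat.cast_mul,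
    mul_div_mul_left _ _ h1.ne']

theorem av_mono {x : S.Ω} {h h' : S.Ω → ℝ} (hh : ∀ z ∈ S.orb x, h z ≤ h' z) :
    S.av x h ≤ S.av x h' := div_le_div_of_nonneg_right (sum_le_sum hh) (Nat.cast_nonneg _)

theorem av_congr {x : S.Ω} {h h' : S.Ω → ℝ} (hh : ∀ z ∈ S.orb x, h z = h' z) :
    S.av x h = S.av x h' := by rw [av, av, sum_congr rfl hh]

theorem av_add (x : S.Ω) (h h' : S.Ω → ℝ) :
    S.av x (fun z => h z + h' z) = S.av x h + S.av x h' := by
  rw [av, sum_add_distrib, add_div, av, av]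

theorem av_sub (x : S.Ω) (h h' : S.Ω → ℝ) :
    S.av x (fun z => h z - h' z) = S.av x h - S.av x h' := by
  rw [av, sum_sub_distrib, sub_div, av, av]

theorem av_mul (x : S.Ω) (c : ℝ) (h : S.Ω → ℝ) : S.av x (fun z => c * h z) = c * S.av x h := by
  rw [av, ← mul_sum, mul_div_assoc, av]

theorem av_sum {ι : Type*} (x : S.Ω) (s : Finset ι) (h : ι → S.Ω → ℝ) :
    S.av x (fun z => ∑ i ∈ s, h i z) = ∑ i ∈ s, S.av x (h i) := by
  rw [av, sum_comm, sum_div]; rfl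

theorem av_one (x : S.Ω) : S.av x (fun _ => 1) = 1 := by
  have h1 : (0 : ℝ) < (S.orb x).card := by exact_mod_cast orb_pos x
  rw [av, sum_const, nsmul_eq_mul, mul_one, div_self h1.ne']

theorem av_nonneg {x : S.Ω} {h : S.Ω → ℝ} (hh : ∀ z, 0 ≤ h z) : 0 ≤ S.av x h :=
  div_nonneg (sum_nonneg fun z _ => hh z) (Nat.cast_nonneg _)

theorem av_le_one {x : S.Ω} {h : S.Ω → ℝ} (hh : ∀ z, h z ≤ 1) : S.av x h ≤ 1 :=
  (av_mono fun z _ => hh z).trans_eq (av_one x)

theorem lr_le (x : S.Ω) (l : ℕ) : S.lr x l ≤ d * l := by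
  have h1 := (Nat.pow_log_le_self 2 (rel_pos x l).ne').trans ((rel_le x l).trans
    (Nat.pow_le_pow_left (Nat.lt_two_pow_self (n := d)).le l))
  rw [← pow_mul] at h1
  exact (Nat.pow_le_pow_iff_right one_lt_two).mp h1

theorem lr_zero (x : S.Ω) : S.lr x 0 = 0 := Nat.le_zero.mp (lr_le x 0)

theorem rel_mono (x : S.Ω) {k l : ℕ} (h : k ≤ l) : S.rel x k ≤ S.rel x l := by
  obtain ⟨m, rfl⟩ := Nat.exists_eq_add_of_le' h
  rw [rel_add]
  exact Nat.le_mul_of_pos_right _ (rel_pos _ _)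

theorem rel_anc (x : S.Ω) (k l : ℕ) : S.rel (S.f^[k] x) l ≤ S.rel x (l + k) := by
  rw [rel_add]
  exact Nat.le_mul_of_pos_left _ (rel_pos _ _)

theorem lr_mono (x : S.Ω) {k l : ℕ} (h : k ≤ l) : S.lr x k ≤ S.lr x l :=
  Nat.log_mono_right (rel_mono x h)

/-- monotone in the interval of levels -/
theorem lr_sub (x : S.Ω) {i i' a a' : ℕ} (h : i ≤ i') (h' : a' ≤ a) (ha : i' ≤ a') :
    S.lr (S.f^[i'] x) (a' - i') ≤ S.lr (S.f^[i] x) (a - i) := by
  obtain ⟨m, rfl⟩ := Nat.exists_eq_add_of_le' h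
  rw [Function.iterate_add_apply]
  exact Nat.log_mono_right ((rel_anc _ m _).trans (rel_mono _ (by omega)))

theorem uu_lt (w : S.Ω) {i i' : ℕ} (h : i < i') (hi : S.rel (S.f^[i] w) 1 ≠ 1) :
    S.lr w i < S.lr w i' := by
  obtain ⟨m, rfl⟩ := Nat.exists_eq_add_of_le' h.le
  refine log_lt_of_two (rel_pos _ _) ?_
  rw [rel_add]
  refine Nat.mul_le_mul_left _ (le_trans ?_ (rel_mono _ (show 1 ≤ m by omega)))
  have := rel_pos (S.f^[i] w) 1
  omega

theorem vv_lt (w : S.Ω) {i i' a : ℕ} (h : i < i') (ha : i' ≤ a) (hi : S.rel (S.f^[i] w) 1 ≠ 1) :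
    S.lr (S.f^[i'] w) (a - i') < S.lr (S.f^[i] w) (a - i) := by
  obtain ⟨m, rfl⟩ := Nat.exists_eq_add_of_le' h.le
  refine log_lt_of_two (rel_pos _ _) ?_
  rw [show a - i = a - (m + i) + m by omega, rel_add, Function.iterate_add_apply, mul_comm]
  refine Nat.mul_le_mul_right _ (le_trans ?_ (rel_mono _ (show 1 ≤ m by omega)))
  have := rel_pos (S.f^[i] w) 1
  omega

theorem uv_le (w : S.Ω) {i a : ℕ} (h : i ≤ a) :
    S.lr w a ≤ S.lr w i + S.lr (S.f^[i] w) (a - i) + 1 := by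
  unfold lr
  conv_lhs => rw [← Nat.sub_add_cancel h, rel_add]
  exact log_mul_le

/-- if no late step is rational and fibres have at most three points, orbits do not split -/
theorem cover_of (hd : d ≤ 3) {m0 : ℕ} (h : ∀ m, m0 ≤ m → ∀ x, S.lev (m + 1) x → S.rel x 1 ≠ 1) :
    ∃ C : ℕ, ∀ n : ℕ, ∃ Y : Finset S.Ω, Y.card ≤ C ∧ ∀ x, S.lev n x → ∃ s ∈ Y, x ∈ S.orb s := by
  classical
  have triv : ∀ n ≤ m0, ∃ Y : Finset S.Ω, Y.card ≤ 3 ^ m0 ∧
      ∀ x, S.lev n x → ∃ s ∈ Y, x ∈ S.orb s := fun n hn =>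
    ⟨(pre_fin n S.b).toFinset, (card_pre_le n S.b _ fun z hz =>
      (pre_fin n S.b).mem_toFinset.mp hz).trans ((Nat.pow_le_pow_left hd n).trans
        (Nat.pow_le_pow_right (by norm_num) hn)),
      fun x hx => ⟨x, (pre_fin n S.b).mem_toFinset.mpr hx, self_orb x⟩⟩
  refine ⟨3 ^ m0, fun n => ?_⟩
  rcases le_total n m0 with hn | hn
  · exact triv n hn
  induction n, hn using Nat.le_induction with
  | base => exact triv m0 le_rfl
  | succ n hn ih =>
    obtain ⟨Y, h1, h2⟩ := ih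
    have ex : ∀ s : S.Ω, ∃ t, (∃ x, S.lev (n + 1) x ∧ S.f x ∈ S.orb s) →
        S.lev (n + 1) t ∧ S.f t ∈ S.orb s := fun s => by
      by_cases hs : ∃ x, S.lev (n + 1) x ∧ S.f x ∈ S.orb s
      · exact ⟨hs.choose, fun _ => hs.choose_spec⟩
      · exact ⟨s, fun h => absurd h hs⟩
    choose f hf using ex
    refine ⟨Y.image f, card_image_le.trans h1, fun x hx => ?_⟩
    obtain ⟨s, a1, a2⟩ := h2 (S.f x) hx
    obtain ⟨b1, b2⟩ := hf s ⟨x, hx, a2⟩
    refine ⟨f s, mem_image_of_mem _ a1, ?_⟩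
    by_contra hc
    have c1 : (S.fib (f s) 1 (S.f x)).card = S.rel (f s) 1 :=
      card_fib (by rw [Function.iterate_one, orb_eq b2]; exact a2)
    have c2 : Disjoint (S.fib x 1 (S.f x)) (S.fib (f s) 1 (S.f x)) :=
      disjoint_left.mpr fun z z1 z2 => hc (by
        rw [← orb_eq (mem_fib.mp z2).1, orb_eq (mem_fib.mp z1).1]; exact self_orb x)
    have c3 := S.fibre (S.f x) (S.fib x 1 (S.f x) ∪ S.fib (f s) 1 (S.f x)) fun z hz =>
      (mem_union.mp hz).elim (fun h => (mem_fib.mp h).2) fun h => (mem_fib.mp h).2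
    rw [card_union_of_disjoint c2, c1] at c3
    have c4 : (S.fib x 1 (S.f x)).card ≠ 1 := h n hn x hx
    have c5 := h n hn (f s) b1
    have c6 : 0 < (S.fib x 1 (S.f x)).card := rel_pos x 1
    have c7 := rel_pos (f s) 1
    omega

end Sys

end Pool.Agent.Lib.MP_a2c890_nt.R
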