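import Pool.Agent.Lib.MP_a2c890_nt.R.Defs

set_option autoImplicit false
set_option linter.unusedSectionVars false

namespace Pool.Agent.Lib.MP_a2c890_nt.R

open Finset T

variable {d : ℕ} {S : Sys d}

/-- the growth levels in an interval -/
noncomputable def slG (x : S.Ω) (l l' : ℕ) : Finset ℕ :=
  (Ico l l').filter fun i => S.rel (S.f^[i] x) 1 ≠ 1

theorem mem_slG {x : S.Ω} {l l' i : ℕ} :
    i ∈ slG x l l' ↔ l ≤ i ∧ i < l' ∧ S.rel (S.f^[i] x) 1 ≠ 1 := by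
  rw [slG, mem_filter, mem_Ico, and_assoc]

theorem gr_eq (x : S.Ω) (l l' : ℕ) : S.gr x l l' = (slG x l l').card := rfl

theorem sl_it (z : S.Ω) {i l : ℕ} (h : i ≤ l) : S.f^[l - i] (S.f^[i] z) = S.f^[l] z := by
  rw [← Function.iterate_add_apply, Nat.sub_add_cancel h]

theorem sl_lt (x : S.Ω) {l i i' : ℕ} (h : l ≤ i) (h' : i < i') (hi : S.rel (S.f^[i] x) 1 ≠ 1) :
    S.lr (S.f^[l] x) (i - l) < S.lr (S.f^[l] x) (i' - l) :=
  Sys.uu_lt _ (by omega) (by rwa [sl_it x h])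

theorem sl_inj (x : S.Ω) {l : ℕ} {G : Finset ℕ}
    (h : ∀ i ∈ G, l ≤ i ∧ S.rel (S.f^[i] x) 1 ≠ 1) :
    Set.InjOn (fun i => S.lr (S.f^[l] x) (i - l)) G := fun i hi j hj e => by
  rcases lt_trichotomy i j with k | k | k
  · exact absurd e (sl_lt x (h i hi).1 k (h i hi).2).ne
  · exact k
  · exact absurd e (sl_lt x (h j hj).1 k (h j hj).2).ne'

theorem gr_mono (x : S.Ω) {l₁ l₂ l₃ l₄ : ℕ} (h : l₁ ≤ l₂) (h' : l₃ ≤ l₄) :
    S.gr x l₂ l₃ ≤ S.gr x l₁ l₄ :=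
  card_le_card (s := slG x l₂ l₃) (t := slG x l₁ l₄) fun i hi => by
    rw [mem_slG] at hi ⊢
    exact ⟨h.trans hi.1, hi.2.1.trans_le h', hi.2.2⟩

/-- number of growth levels is at most the logarithm of the relative degree -/
theorem gr_le (x : S.Ω) {l l' : ℕ} (h : l ≤ l') : S.gr x l l' ≤ S.lr (S.f^[l] x) (l' - l) :=
  card_le_of_lt (slG x l l') _ (sl_inj x fun _ hi => ⟨(mem_slG.1 hi).1, (mem_slG.1 hi).2.2⟩)
    fun _ hi => have _ := h; sl_lt x (mem_slG.1 hi).1 (mem_slG.1 hi).2.1 (mem_slG.1 hi).2.2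

/-- first level where the relative degree is large -/
theorem nxt (x : S.Ω) {l T s : ℕ} (hl : l ≤ T) (h : s ≤ S.lr (S.f^[l] x) (T - l)) :
    ∃ l', l ≤ l' ∧ l' ≤ T ∧ s ≤ S.lr (S.f^[l] x) (l' - l) ∧ S.lr (S.f^[l] x) (l' - l) ≤ s + d ∧
      S.gr x l l' ≤ s := by
  have ex : ∃ j, s ≤ S.lr (S.f^[l] x) j := ⟨_, h⟩
  have h1 := Nat.find_min' ex h
  refine ⟨l + Nat.find ex, Nat.le_add_right _ _, by omega, ?_, ?_, ?_⟩
  · rw [Nat.add_sub_cancel_left]; exact Nat.find_spec ex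
  · rw [Nat.add_sub_cancel_left]
    rcases h2 : Nat.find ex with _ | j
    · rw [Sys.lr_zero]; omega
    · have h3 := Nat.find_min ex (show j < Nat.find ex by omega)
      have h4 := Sys.uv_le (S.f^[l] x) (Nat.le_succ j)
      have h5 := Sys.lr_le (S.f^[j] (S.f^[l] x)) (j.succ - j)
      rw [show j.succ - j = 1 by omega] at h4 h5
      rw [Nat.succ_eq_add_one] at h4
      omega
  · exact card_le_of_lt (slG x l _) _
      (sl_inj x fun _ hi => ⟨(mem_slG.1 hi).1, (mem_slG.1 hi).2.2⟩) fun i hi => by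
        have := mem_slG.1 hi
        exact not_le.1 (Nat.find_min ex (by omega))

/-- history of a fixed point -/
theorem Win.hist {c n0 k : ℕ} {C lam υ a b : ℝ} {A Bad Fx : S.Ω → Prop}
    (W : Win S c C lam υ n0 k a b A Bad Fx) {x z : S.Ω} (hz : z ∈ S.orb x) {l l' : ℕ} (h : l ≤ l')
    (h1 : Fx (S.f^[l'] z))
    (h2 : ∀ i, l ≤ i → i < l' → S.rel (S.f^[i] x) 1 ≠ 1 → ¬ Bad (S.f^[i] z)) :
    Fx (S.f^[l] z) := by
  induction l', h using Nat.le_induction with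
  | base => exact h1
  | succ l' h ih =>
    rw [Function.iterate_succ_apply'] at h1
    refine ih ?_ fun i a1 a2 => h2 i a1 (by omega)
    by_cases e : S.rel (S.f^[l'] x) 1 = 1
    · exact W.F1 _ h1 ((Sys.rel_conj (Sys.f_orb l' hz) 1).trans e)
    · exact W.F2 _ h1 (h2 l' h (by omega) e)

section
variable {c n0 k : ℕ} {C lam υ a b : ℝ} {A Bad Fx : S.Ω → Prop}

theorem Win.up (W : Win S c C lam υ n0 k a b A Bad Fx) {z : S.Ω} {l l' : ℕ} (h : l ≤ l')
    (h1 : Fx (S.f^[l] z)) : Fx (S.f^[l'] z) := by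
  induction l', h using Nat.le_induction with
  | base => exact h1
  | succ l' _ ih => rw [Function.iterate_succ_apply']; exact W.F4 _ ih

theorem Win.a0 (W : Win S c C lam υ n0 k a b A Bad Fx) : 0 < a :=
  lt_of_lt_of_le (by positivity) W.alo

theorem ph_eq (Fx : S.Ω → Prop) (x : S.Ω) (l : ℕ) :
    S.ph Fx x l = S.av x fun z => ind (Fx (S.f^[l] z)) :=
  (Sys.av_comp x l fun z => ind (Fx z)).symm

theorem ph_nonneg (Fx : S.Ω → Prop) (x : S.Ω) (l : ℕ) : 0 ≤ S.ph Fx x l :=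
  Sys.av_nonneg fun _ => ind_nonneg _

theorem ph_le_one (Fx : S.Ω → Prop) (x : S.Ω) (l : ℕ) : S.ph Fx x l ≤ 1 :=
  Sys.av_le_one fun _ => ind_le_one _

theorem Win.ph_mono (W : Win S c C lam υ n0 k a b A Bad Fx) (x : S.Ω) {l l' : ℕ} (h : l ≤ l') :
    S.ph Fx x l ≤ S.ph Fx x l' := by
  rw [ph_eq, ph_eq]
  exact Sys.av_mono fun _ _ => ind_mono (W.up h)

theorem Sys.Up.lift {u0 : ℕ} {E : S.Ω → Prop} {μ : ℝ} (h : S.Up C lam u0 E μ) {m i l : ℕ}
    {x : S.Ω} (hx : S.lev m x) (h1 : i ≤ l) (h2 : l ≤ m) (h3 : u0 ≤ S.lr (S.f^[i] x) (l - i))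
    {w : S.Ω → ℝ} (hw : ∀ y, 0 ≤ w y ∧ w y ≤ 1) :
    S.av x (fun z => ind (E (S.f^[i] z)) * w (S.f^[l] z)) ≤ μ * S.av (S.f^[l] x) w +
      C * lam ^ S.lr (S.f^[i] x) (l - i) * √(S.av (S.f^[l] x) w) := by
  have := h (m - i) (l - i) _ w (Sys.lev_iter hx (h1.trans h2)) (by omega) h3 hw
  rw [← Sys.av_comp x i, sl_it x h1] at this
  simpa only [sl_it _ h1] using this

theorem Sys.Lo.lift {u0 : ℕ} {E : S.Ω → Prop} {μ : ℝ} (h : S.Lo C lam u0 E μ) {m i l : ℕ}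
    {x : S.Ω} (hx : S.lev m x) (h1 : i ≤ l) (h2 : l ≤ m) (h3 : u0 ≤ S.lr (S.f^[i] x) (l - i))
    {w : S.Ω → ℝ} (hw : ∀ y, 0 ≤ w y ∧ w y ≤ 1) :
    μ * S.av (S.f^[l] x) w - C * lam ^ S.lr (S.f^[i] x) (l - i) * √(S.av (S.f^[l] x) w) ≤
      S.av x (fun z => ind (E (S.f^[i] z)) * w (S.f^[l] z)) := by
  have := h (m - i) (l - i) _ w (Sys.lev_iter hx (h1.trans h2)) (by omega) h3 hw
  rw [← Sys.av_comp x i (fun z => ind (E z) * w (S.f^[l - i] z)), sl_it x h1] at this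
  simpa only [sl_it _ h1] using this

theorem Win.top (W : Win S c C lam υ n0 k a b A Bad Fx) {T : ℕ} {x z : S.Ω}
    (hx : S.lev (n0 + T) x) (hz : z ∈ S.orb x) : Fx (S.f^[T] z) :=
  W.F0 _ (by simpa using Sys.lev_iter (Sys.lev_orb hx hz) (Nat.le_add_left T n0))

/-- early levels -/
theorem Win.early (W : Win S c C lam υ n0 k a b A Bad Fx) (C0 : 0 ≤ C) (l0 : 0 < lam)
    (l1 : lam < 1) {T u1 l : ℕ} {x : S.Ω} (hx : S.lev (n0 + T) x)
    (hu1 : ∀ m y, n0 ≤ m → S.lev m y → u1 ≤ S.lr y m) (hl : l ≤ T) :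
    1 - S.gr x l T * b - C * (lam ^ u1 / (1 - lam)) ≤ S.ph Fx x l := by
  have h1 : S.av x (fun _ => 1) ≤ S.av x fun z =>
      ind (Fx (S.f^[l] z)) + ∑ i ∈ slG x l T, ind (Bad (S.f^[i] z)) := Sys.av_mono fun z hz => by
    have h0 : 0 ≤ ∑ i ∈ slG x l T, ind (Bad (S.f^[i] z)) := sum_nonneg fun _ _ => ind_nonneg _
    by_cases e : ∃ i ∈ slG x l T, Bad (S.f^[i] z)
    · obtain ⟨i, e1, e2⟩ := e
      have := single_le_sum (f := fun i => ind (Bad (S.f^[i] z))) (fun _ _ => ind_nonneg _) e1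
      rw [ind_pos e2] at this
      linarith [ind_nonneg (Fx (S.f^[l] z))]
    · rw [ind_pos (W.hist hz hl (W.top hx hz) fun i a1 a2 a3 a4 =>
        e ⟨i, mem_slG.2 ⟨a1, a2, a3⟩, a4⟩)]
      linarith
  rw [Sys.av_one, Sys.av_add, Sys.av_sum, ← ph_eq] at h1
  have h2 : ∑ i ∈ slG x l T, S.av x (fun z => ind (Bad (S.f^[i] z))) ≤
      ∑ i ∈ slG x l T, (b + C * lam ^ S.lr (S.f^[i] x) (n0 + T - i)) := sum_le_sum fun i hi => by
    have := W.B1.lift hx (show i ≤ n0 + T by have := mem_slG.1 hi; omega) le_rfl (Nat.zero_le _)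
      (w := fun _ => 1) fun _ => ⟨zero_le_one, le_rfl⟩
    simpa [Sys.av_one] using this
  have h3 := geom_le (slG x l T) (fun i => S.lr (S.f^[i] x) (n0 + T - i)) (fun i hi j hj e => by
    have a1 := mem_slG.1 hi
    have a2 := mem_slG.1 hj
    rcases lt_trichotomy i j with h | h | h
    · exact absurd e (Sys.vv_lt x h (by omega) a1.2.2).ne'
    · exact h
    · exact absurd e (Sys.vv_lt x h (by omega) a2.2.2).ne) (u := u1) (fun i hi => by
      have := mem_slG.1 hi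
      exact hu1 _ _ (by omega) (Sys.lev_iter hx (by omega))) l0.le l1
  rw [sum_add_distrib, sum_const, nsmul_eq_mul, ← mul_sum, ← gr_eq] at h2
  linarith [mul_le_mul_of_nonneg_left h3 C0]

end

/-- sliding recursion -/
theorem Win.slide {c n0 k : ℕ} {C lam υ a b : ℝ} {A Bad Fx : S.Ω → Prop}
    (W : Win S c C lam υ n0 k a b A Bad Fx) (C0 : 0 ≤ C) (l0 : 0 < lam) (l1 : lam < 1)
    {T u1 s U : ℕ} {x : S.Ω} (hx : S.lev (n0 + T) x)
    (hu1 : ∀ m y, n0 ≤ m → S.lev m y → u1 ≤ S.lr y m) (hU : S.lr x (n0 + T) ≤ U)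
    (h1 : (s + 1 : ℝ) * b ≤ 1 / 16) (h2 : C * lam ^ s ≤ b * √(3 / 4 * (1 - 4 * b) ^ U))
    (h3 : C * (lam ^ u1 / (1 - lam)) ≤ 1 / 8) :
    (∀ l, l ≤ T → 3 / 4 * (1 - 4 * b) ^ U ≤ S.ph Fx x l) ∧
    ∀ l l', l ≤ l' → l' ≤ T → S.gr x l l' ≤ s → S.ph Fx x l' ≤ 2 * S.ph Fx x l := by
  have b0 : 0 < b := W.a0.trans_le W.ab
  have s0 : (0 : ℝ) ≤ s := Nat.cast_nonneg s
  have b1 : b ≤ 1 / 16 := by nlinarith
  have β0 : 0 ≤ 1 - 4 * b := by linarith
  have β1 : 1 - 4 * b ≤ 1 := by linarith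
  have βs : ∀ g, g ≤ s → 3 / 4 ≤ (1 - 4 * b) ^ g := fun g hg => by
    have h4 := one_add_mul_le_pow (a := -(4 * b)) (by linarith) g
    have h5 : (g : ℝ) ≤ s := Nat.cast_le.2 hg
    rw [← sub_eq_add_neg] at h4
    nlinarith
  have pT : S.ph Fx x T = 1 := by
    rw [ph_eq, ← Sys.av_one x]
    exact Sys.av_congr fun z hz => ind_pos (W.top hx hz)
  have gU : ∀ l, l ≤ T → (1 - 4 * b) ^ U ≤ (1 - 4 * b) ^ S.gr x l T := fun l hl =>
    pow_le_pow_of_le_one β0 β1 ((gr_le x hl).trans ((Sys.lr_sub x (Nat.zero_le l)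
      (Nat.le_add_left T n0) hl).trans hU))
  have key : ∀ l, l ≤ T → ∀ l2, l ≤ l2 → l2 ≤ T →
      3 / 4 * (1 - 4 * b) ^ S.gr x l l2 * S.ph Fx x l2 ≤ S.ph Fx x l := by
    intro l hl
    induction hl using Nat.decreasingInduction with
    | self =>
      intro l2 a1 a2
      obtain rfl := le_antisymm a1 a2
      have := pow_le_one₀ (n := S.gr x T T) β0 β1
      rw [pT]
      linarith
    | of_succ l hl ih =>
      intro l2 a1 a2
      have p1 := pow_le_one₀ (n := S.gr x l l2) β0 β1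
      have p0 := pow_nonneg β0 (S.gr x l l2)
      have q0 := ph_nonneg Fx x l2
      have q1 := ph_le_one Fx x l2
      rcases a1.eq_or_lt with rfl | a3
      · nlinarith
      by_cases e : s ≤ S.lr (S.f^[l] x) (T - l)
      swap
      · have h4 := W.early C0 l0 l1 hx hu1 hl.le
        have h5 : (S.gr x l T : ℝ) ≤ s := Nat.cast_le.2 ((gr_le x hl.le).trans (not_le.1 e).le)
        have h6 := mul_le_mul_of_nonneg_right h5 b0.le
        nlinarith [mul_le_one₀ p1 q0 q1]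
      have h4 := ih l2 a3 a2
      by_cases g : S.rel (S.f^[l] x) 1 = 1
      · have h5 : S.ph Fx x (l + 1) ≤ S.ph Fx x l := by
          rw [ph_eq, ph_eq]
          exact Sys.av_mono fun z hz => ind_mono fun h => W.hist hz (Nat.le_succ l) h
            fun i c1 c2 c3 => absurd (show i = l by omega) fun c4 => c3 (c4 ▸ g)
        have h6 := pow_le_pow_of_le_one β0 β1 (gr_mono x (Nat.le_succ l) (le_refl l2))
        exact le_trans (mul_le_mul_of_nonneg_right (by linarith) q0) (h4.trans h5)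
      obtain ⟨l', c1, c2, c3, -, c4⟩ := nxt x hl.le e
      obtain ⟨l', d1, d2, d3, d4⟩ : ∃ l', l + 1 ≤ l' ∧ l' ≤ T ∧ s ≤ S.lr (S.f^[l] x) (l' - l) ∧
          S.gr x (l + 1) l' ≤ s := by
        rcases c1.eq_or_lt with rfl | c5
        · exact ⟨l + 1, le_rfl, hl, c3.trans (Sys.lr_mono _ (by omega)), by simp [Sys.gr]⟩
        · exact ⟨l', c5, c2, c3, (gr_mono x (Nat.le_succ l) le_rfl).trans c4⟩
      have h5 : S.ph Fx x (l + 1) ≤ S.ph Fx x l +
          S.av x fun z => ind (Bad (S.f^[l] z)) * ind (Fx (S.f^[l'] z)) := by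
        rw [ph_eq, ph_eq, ← Sys.av_add]
        refine Sys.av_mono fun z _ => ?_
        have e1 := mul_nonneg (ind_nonneg (Bad (S.f^[l] z))) (ind_nonneg (Fx (S.f^[l'] z)))
        have e2 := ind_nonneg (Fx (S.f^[l] z))
        by_cases e3 : Fx (S.f^[l + 1] z)
        · rw [ind_pos e3]
          by_cases e4 : Bad (S.f^[l] z)
          · rw [ind_pos e4, ind_pos (W.up d1 e3)]; linarith
          · rw [Function.iterate_succ_apply'] at e3
            rw [ind_pos (W.F2 _ e3 e4)]; linarith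
        · rw [ind_neg e3]; linarith
      have h6 := W.B1.lift hx (show l ≤ l' by omega) (show l' ≤ n0 + T by omega) (Nat.zero_le _)
        (w := fun y => ind (Fx y)) fun _ => ⟨ind_nonneg _, ind_le_one _⟩
      change _ ≤ b * S.ph Fx x l' + _ * √(S.ph Fx x l') at h6
      have r0 := ph_nonneg Fx x l'
      have h7 : 3 / 4 * (1 - 4 * b) ^ U ≤ S.ph Fx x l' := by
        have := ih T hl le_rfl
        rw [pT] at this
        linarith [gU _ hl, W.ph_mono x d1]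
      have h8 : C * lam ^ S.lr (S.f^[l] x) (l' - l) * √(S.ph Fx x l') ≤ b * S.ph Fx x l' := by
        conv_rhs => rw [← Real.mul_self_sqrt r0, ← mul_assoc]
        refine mul_le_mul_of_nonneg_right ?_ (Real.sqrt_nonneg _)
        exact ((mul_le_mul_of_nonneg_left (pow_le_pow_of_le_one l0.le l1.le d3) C0).trans h2).trans
          (mul_le_mul_of_nonneg_left (Real.sqrt_le_sqrt h7) b0.le)
      have h9 : S.ph Fx x l' ≤ 2 * S.ph Fx x (l + 1) := by
        nlinarith [ih l' d1 d2, mul_le_mul_of_nonneg_right (βs _ d4) r0]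
      have h10 : S.gr x l l2 = S.gr x (l + 1) l2 + 1 := by
        rw [gr_eq, gr_eq, ← card_insert_of_notMem (a := l) (by rw [mem_slG]; omega)]
        refine congrArg card (Finset.ext fun i => ?_)
        rw [mem_insert, mem_slG, mem_slG]
        refine ⟨fun h => ?_, ?_⟩
        · rcases h.1.eq_or_lt with e1 | e1
          exacts [.inl e1.symm, .inr ⟨e1, h.2⟩]
        · rintro (rfl | h)
          exacts [⟨le_rfl, a3, g⟩, ⟨by omega, h.2⟩]
      rw [h10, pow_succ]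
      nlinarith [mul_le_mul_of_nonneg_left h4 β0, mul_le_mul_of_nonneg_left h9 b0.le]
  refine ⟨fun l hl => ?_, fun l l' a1 a2 a3 => ?_⟩
  · have := key l hl T hl le_rfl
    rw [pT] at this
    linarith [gU l hl]
  · nlinarith [key l (a1.trans a2) l' a1 a2, ph_nonneg Fx x l',
      mul_le_mul_of_nonneg_right (βs _ a3) (ph_nonneg Fx x l')]

end Pool.Agent.Lib.MP_a2c890_nt.R
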