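import Pool.Agent.Lib.MP_a2c890_nt.R.Pts

set_option autoImplicit false
set_option linter.unusedSectionVars false

namespace Pool.Agent.Lib.MP_a2c890_nt.R

open Finset T MvPolynomial

variable {K : Type} [Field K] [NumberField K] {d : ℕ} {F G : MvPolynomial (Fin 2) K}
  {β : Fin 2 → K}

/-- certificates for both variables -/
theorem Glb.cert2 (D : Glb K d F G β) : ∃ m, ∀ m', m ≤ m' → ∀ i : Fin 2,
    ∃ P Q : MvPolynomial (Fin 2) K, P.IsHomogeneous m' ∧ Q.IsHomogeneous m' ∧
      P * F + Q * G = X i ^ (m' + d) := by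
  obtain ⟨m1, h1⟩ := cert D.hF D.hG fun z => by
    by_contra hc
    rw [not_or, not_not, not_not] at hc
    simpa using congrFun (D.nz _ hc.1 hc.2) 1
  obtain ⟨m2, h2⟩ := cert (D.hF.rename_isHomogeneous (f := Equiv.swap 0 1))
    (D.hG.rename_isHomogeneous (f := Equiv.swap 0 1)) fun z => by
    by_contra hc
    rw [not_or, not_not, not_not, aeval_rename, aeval_rename] at hc
    simpa using congrFun (D.nz _ hc.1 hc.2) 0
  refine ⟨max m1 m2, fun m' hm i => ?_⟩
  fin_cases i
  · obtain ⟨P, Q, hP, hQ, e⟩ := h2 m' (le_of_max_le_right hm)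
    refine ⟨_, _, hP.rename_isHomogeneous (f := Equiv.swap 0 1),
      hQ.rename_isHomogeneous (f := Equiv.swap 0 1), ?_⟩
    simpa [rename_rename, ← Equiv.coe_trans] using congrArg (rename (Equiv.swap (0 : Fin 2) 1)) e
  · exact h1 m' (le_of_max_le_left hm)

/-- product of coordinates of iterates -/
noncomputable def spanP (F G : MvPolynomial (Fin 2) K) (s : List (ℕ × Fin 2)) :
    MvPolynomial (Fin 2) K := (s.map fun a => (ev F G)^[a.1] X a.2).prod

/-- the span of the short products -/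
noncomputable def spanS (F G : MvPolynomial (Fin 2) K) (l ν n : ℕ) :
    Submodule K (MvPolynomial (Fin 2) K) := Submodule.span K
  (spanP F G '' {s | (s.length ≤ l ∧ ∀ a ∈ s, a.1 < ν) ∧ (spanP F G s).IsHomogeneous n})

theorem span_mul (l l' ν n n' : ℕ) :
    spanS F G l ν n * spanS F G l' ν n' ≤ spanS F G (l + l') ν (n + n') := by
  rw [spanS, spanS, Submodule.span_mul_span]
  refine Submodule.span_mono ?_
  rintro _ ⟨_, ⟨s, ⟨⟨a1, a2⟩, a3⟩, rfl⟩, _, ⟨t, ⟨⟨b1, b2⟩, b3⟩, rfl⟩, rfl⟩
  have e : spanP F G (s ++ t) = spanP F G s * spanP F G t := by simp [spanP]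
  exact ⟨s ++ t, ⟨⟨by rw [List.length_append]; omega, fun a ha =>
    (List.mem_append.1 ha).elim (a2 a) (b2 a)⟩, e ▸ a3.mul b3⟩, e⟩

theorem span_mono {l l' : ℕ} (h : l ≤ l') (ν n : ℕ) : spanS F G l ν n ≤ spanS F G l' ν n :=
  Submodule.span_mono (Set.image_mono fun _ hs => ⟨⟨hs.1.1.trans h, hs.1.2⟩, hs.2⟩)

theorem span_zero (ν : ℕ) : homogeneousSubmodule (Fin 2) K 0 ≤ spanS F G 0 ν 0 := by
  rw [homogeneousSubmodule_zero, Submodule.one_le]
  exact Submodule.subset_span ⟨[], ⟨by simp, isHomogeneous_one _ _⟩, rfl⟩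

theorem span_low (ν n : ℕ) : homogeneousSubmodule (Fin 2) K n ≤ spanS F G n (ν + 1) n := by
  induction n with
  | zero => exact span_zero _
  | succ n ih =>
    rw [← homogeneousSubmodule_one_pow, pow_succ, homogeneousSubmodule_one_pow]
    refine (mul_le_mul' ih ?_).trans (span_mul n 1 _ n 1)
    rw [homogeneousSubmodule_one_eq_span_X]
    refine Submodule.span_mono ?_
    rintro _ ⟨i, rfl⟩
    have e : spanP F G [(0, i)] = X i := by simp [spanP]
    exact ⟨[(0, i)], ⟨by simp, e ▸ isHomogeneous_X K i⟩, e⟩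

theorem span_ev {A : Type} [CommRing A] [Algebra K A] (v : Fin 2 → A) (s : List (ℕ × Fin 2)) :
    aeval v (spanP F G s) = (s.map fun a => (ev F G)^[a.1] v a.2).prod := by
  rw [spanP, map_list_prod, List.map_map]
  exact congrArg _ (List.map_congr_left fun a _ => aeval_iter _ _ _)

theorem span_map (D : Glb K d F G β) (l ν n : ℕ) :
    (spanS F G l ν n).map (aeval (ev F G (X : Fin 2 → MvPolynomial (Fin 2) K))).toLinearMap ≤
      spanS F G l (ν + 1) (d * n) := by
  rw [spanS, Submodule.map_span]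
  refine Submodule.span_mono ?_
  rintro _ ⟨_, ⟨s, ⟨⟨a1, a2⟩, a3⟩, rfl⟩, rfl⟩
  have e : spanP F G (s.map fun a => (a.1 + 1, a.2)) = aeval (ev F G X) (spanP F G s) := by
    rw [span_ev, spanP, List.map_map]
    rfl
  refine ⟨s.map fun a => (a.1 + 1, a.2), ⟨⟨by simpa using a1, fun a ha => ?_⟩, ?_⟩, e⟩
  · obtain ⟨b, hb, rfl⟩ := List.mem_map.1 ha
    exact Nat.succ_lt_succ (a2 b hb)
  · rw [e]
    exact a3.aeval _ fun i => by simpa using iter_hom D.hF D.hG 1 i

theorem span_step (D : Glb K d F G β) : ∃ e0, ∀ n e, e0 ≤ e →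
    homogeneousSubmodule (Fin 2) K (e + d * n) ≤ homogeneousSubmodule (Fin 2) K e *
      (homogeneousSubmodule (Fin 2) K n).map
        (aeval (ev F G (X : Fin 2 → MvPolynomial (Fin 2) K))).toLinearMap := by
  obtain ⟨m, hm⟩ := D.cert2
  have one : ∀ e, 2 * m + d ≤ e → homogeneousSubmodule (Fin 2) K (e + d) ≤
      homogeneousSubmodule (Fin 2) K e * (homogeneousSubmodule (Fin 2) K 1).map
        (aeval (ev F G (X : Fin 2 → MvPolynomial (Fin 2) K))).toLinearMap := by
    intro e he p hp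
    rw [← p.support_sum_monomial_coeff]
    refine Submodule.sum_mem _ fun κ hκ => ?_
    have h1 : κ 0 + κ 1 = e + d := by
      by_contra h
      exact mem_support_iff.mp hκ (IsHomogeneous.coeff_eq_zero hp
        (by rwa [Finsupp.degree_eq_sum, Fin.sum_univ_two]))
    obtain ⟨i, hi⟩ : ∃ i, m + d ≤ κ i := by
      by_contra h
      rw [not_exists] at h
      have := h 0
      have := h 1
      omega
    obtain ⟨μ, rfl⟩ := exists_add_of_le (Finsupp.single_le_iff.2 hi)
    obtain ⟨P, Q, hP, hQ, h2⟩ := hm m le_rfl i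
    have h3 : ∀ c : K, (monomial μ c).IsHomogeneous (e - m) := fun c =>
      isHomogeneous_monomial c (by
        have : (Finsupp.single i (m + d) + μ).degree = e + d := by
          rwa [Finsupp.degree_eq_sum, Fin.sum_univ_two]
        rw [map_add, Finsupp.degree_single] at this
        omega)
    have h4 : e - m + m = e := by omega
    rw [monomial_single_add, ← h2, add_mul, mul_right_comm, mul_right_comm Q, mul_comm P,
      mul_comm Q]
    exact add_mem (Submodule.mul_mem_mul (h4 ▸ (h3 _).mul hP)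
      ⟨X 0, isHomogeneous_X K 0, by simp [ev]⟩) (Submodule.mul_mem_mul (h4 ▸ (h3 _).mul hQ)
      ⟨X 1, isHomogeneous_X K 1, by simp [ev]⟩)
  refine ⟨2 * m + d, fun n e he => ?_⟩
  induction n with
  | zero => rw [homogeneousSubmodule_zero, Submodule.map_one, mul_one, mul_zero, add_zero]
  | succ n ih =>
    rw [mul_add_one, ← add_assoc, ← homogeneousSubmodule_one_pow _ (n + 1), pow_succ,
      homogeneousSubmodule_one_pow, Submodule.map_mul, ← mul_assoc]
    exact (one _ (by omega)).trans (mul_le_mul' ih le_rfl)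

theorem span_all (D : Glb K d F G β) : ∃ e1, ∀ ν n, n < d ^ ν →
    homogeneousSubmodule (Fin 2) K n ≤ spanS F G (e1 * ν) ν n := by
  obtain ⟨e0, h0⟩ := span_step D
  have d2 := D.d2
  refine ⟨e0 + d, fun ν => ?_⟩
  induction ν with
  | zero =>
    intro n hn
    obtain rfl : n = 0 := by simpa using hn
    exact span_zero 0
  | succ ν ih =>
    intro n hn
    rcases le_or_gt n e0 with h | h
    · exact (span_low ν n).trans (span_mono (by nlinarith) _ _)
    · have e := Nat.mod_add_div (n - e0) d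
      have r := Nat.mod_lt (n - e0) (show 0 < d by omega)
      have q : (n - e0) / d < d ^ ν := Nat.div_lt_of_lt_mul (by rw [← pow_succ']; omega)
      have e' : n = e0 + (n - e0) % d + d * ((n - e0) / d) := by omega
      rw [e']
      refine (h0 _ _ (Nat.le_add_right _ _)).trans ((mul_le_mul' (span_low ν _)
        ((Submodule.map_mono (ih _ q)).trans (span_map D _ _ _))).trans
        ((span_mul _ _ _ _ _).trans (span_mono ?_ _ _)))
      rw [mul_add_one]
      omega

/-- the coefficients of a form -/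
noncomputable def spanC (K : Type) [Field K] (n : ℕ) :
    MvPolynomial (Fin 2) K →ₗ[K] Fin (n + 1) → K :=
  LinearMap.pi fun j => Polynomial.lcoeff K j ∘ₗ (aeval ![Polynomial.X, 1]).toLinearMap

theorem span_val {n : ℕ} {p : MvPolynomial (Fin 2) K} (hp : p.IsHomogeneous n) {A : Type}
    [CommRing A] [Algebra K A] (v : Fin 2 → A) : aeval v p =
      ∑ j : Fin (n + 1), v 0 ^ j.1 * v 1 ^ j.rev.1 * algebraMap K A (spanC K n p j) := by
  conv_lhs => rw [← Polynomial.homogenize_eq_of_isHomogeneous hp rfl, Polynomial.homogenize,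
    map_sum, Finset.Nat.sum_antidiagonal_eq_sum_range_succ_mk, ← Fin.sum_univ_eq_sum_range
      (fun k => aeval v (monomial (fun₀ | 0 => k | 1 => n - k) _))]
  refine sum_congr rfl fun j _ => ?_
  rw [aeval_monomial, Finsupp.prod_fintype _ _ fun _ => pow_zero _, Fin.prod_univ_two, mul_comm]
  simp [spanC]

/-- a basis of the forms of degree `D` made of short products of coordinates of iterates -/
theorem Glb.span (D : Glb K d F G β) : ∃ e1 : ℕ, ∀ ν n : ℕ, n < d ^ ν →
    ∃ (s : Fin (n + 1) → List (ℕ × Fin 2)) (δ : K), δ ≠ 0 ∧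
      (∀ j, (s j).length ≤ e1 * ν ∧ ∀ a ∈ s j, a.1 < ν) ∧
      ∀ (A : Type) [CommRing A] [Algebra K A] (v : Fin (n + 1) → Fin 2 → A),
        (Matrix.of fun i j => ((s j).map fun a => (ev F G)^[a.1] (v i) a.2).prod).det =
          algebraMap K A δ * ∏ i, ∏ j ∈ Ioi i, dt (v i) (v j) := by
  obtain ⟨e1, h⟩ := span_all D
  refine ⟨e1, fun ν n hn => ?_⟩
  obtain ⟨κ, a, -, h1, h2⟩ := exists_linearIndependent' K fun s : {s : List (ℕ × Fin 2) //
    (s.length ≤ e1 * ν ∧ ∀ a ∈ s, a.1 < ν) ∧ (spanP F G s).IsHomogeneous n} =>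
      spanC K n (spanP F G s)
  have top : ⊤ ≤ Submodule.span K (Set.range ((fun s : {s : List (ℕ × Fin 2) //
      (s.length ≤ e1 * ν ∧ ∀ a ∈ s, a.1 < ν) ∧ (spanP F G s).IsHomogeneous n} =>
        spanC K n (spanP F G s)) ∘ a)) := by
    rw [h1, ← (Pi.basisFun K (Fin (n + 1))).span_eq, Submodule.span_le]
    rintro _ ⟨j, rfl⟩
    have m := Submodule.mem_map_of_mem (f := spanC K n)
      (h ν n hn ((Polynomial.X ^ j.1 : Polynomial K).isHomogeneous_homogenize (n := n)))
    rw [spanS, Submodule.map_span] at m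
    have e : spanC K n ((Polynomial.X ^ j.1 : Polynomial K).homogenize n) =
        Pi.basisFun K (Fin (n + 1)) j := by
      ext k
      rw [spanC, LinearMap.pi_apply, LinearMap.comp_apply, AlgHom.toLinearMap_apply,
        Polynomial.aeval_homogenize_X_one _ (by simpa using Nat.le_of_lt_succ j.2)]
      simp [Pi.single_apply, Fin.ext_iff]
    rw [e] at m
    refine Submodule.span_mono ?_ m
    rintro _ ⟨_, ⟨s, hs, rfl⟩, rfl⟩
    exact ⟨⟨s, hs⟩, rfl⟩
  let e := (Module.Basis.mk h2 top).indexEquiv (Pi.basisFun K (Fin (n + 1)))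
  let M : Matrix (Fin (n + 1)) (Fin (n + 1)) K :=
    Matrix.of fun j k => spanC K n (spanP F G (a (e.symm j))) k
  have u : IsUnit M := Matrix.linearIndependent_rows_iff_isUnit.1 (h2.comp _ e.symm.injective)
  refine ⟨fun j => a (e.symm j), M.det * ∏ i : Fin (n + 1), ∏ _j ∈ Ioi i, -1, mul_ne_zero
    ((Matrix.isUnit_iff_isUnit_det M).1 u).ne_zero (by simp [prod_ne_zero_iff]),
    fun j => (a (e.symm j)).2.1, fun A _ _ v => ?_⟩
  have e1 : (Matrix.of fun i j => (((a (e.symm j)).1).map fun a => (ev F G)^[a.1] (v i) a.2).prod) =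
      Matrix.projVandermonde (v · 0) (v · 1) * ((algebraMap K A).mapMatrix M).transpose := by
    ext i j
    rw [Matrix.of_apply, ← span_ev, span_val (a (e.symm j)).2.2]
    rfl
  rw [e1, Matrix.det_mul, Matrix.det_transpose, ← RingHom.map_det, Matrix.det_projVandermonde,
    map_mul, map_prod, mul_assoc, ← prod_mul_distrib, mul_comm]
  refine congrArg _ (prod_congr rfl fun i _ => ?_)
  rw [map_prod, ← prod_mul_distrib]
  exact prod_congr rfl fun j _ => by simp [dt, mul_comm]

end Pool.Agent.Lib.MP_a2c890_nt.R
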