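import Pool.Agent.Lib.MP_a2c890_nt.R.SymA

set_option autoImplicit false
set_option linter.unusedSectionVars false

namespace Pool.Agent.Lib.MP_a2c890_nt.R

open Finset T

theorem symB_th (d : ℕ) : 2 / 3 ≤ th d ∧ th d ≤ 3 / 4 := by
  unfold th
  split_ifs <;> norm_num

namespace Sym

variable {d : ℕ} (Y : Sym d) {Fix : Y.V → Prop}

include Y in
theorem symB_d : (2 : ℝ) ≤ d := by rcases Y.hd with h | h <;> rw [h] <;> norm_num

theorem symB_dep (w : Y.V) (i : Fin d) : Y.dep (Y.kid w i) ≤ Y.dep w + 1 := by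
  by_cases h : Y.kid w i = Y.root
  · rw [h, Y.dep0]; omega
  · exact (Y.kidp w i h).2.le

theorem T_le {h h' : Y.V → ℝ} {w : Y.V} (hh : ∀ i, h (Y.kid w i) ≤ h' (Y.kid w i)) :
    Y.T h w ≤ Y.T h' w :=
  div_le_div_of_nonneg_right (sum_le_sum fun i _ => hh i) (Nat.cast_nonneg _)

theorem it_dep (n : ℕ) {h h' : Y.V → ℝ} {w : Y.V}
    (hh : ∀ v, Y.dep v ≤ Y.dep w + n → h v ≤ h' v) : Y.T^[n] h w ≤ Y.T^[n] h' w := by
  induction n generalizing w with
  | zero => exact hh w le_rfl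
  | succ n ih =>
    rw [Function.iterate_succ_apply', Function.iterate_succ_apply']
    exact Y.T_le fun i => ih fun v hv => hh v (by have := Y.symB_dep w i; omega)

theorem it_le (n : ℕ) {h h' : Y.V → ℝ} {w : Y.V} (hh : ∀ v, h v ≤ h' v) :
    Y.T^[n] h w ≤ Y.T^[n] h' w := Y.it_dep n fun v _ => hh v

theorem it_const (n : ℕ) (c : ℝ) (w : Y.V) : Y.T^[n] (fun _ => c) w = c := by
  have : Y.T (fun _ => c) = fun _ => c := funext fun w => by
    have := Y.symB_d
    rw [T, sum_const, card_univ, Fintype.card_fin, nsmul_eq_mul]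
    field_simp
  rw [Function.iterate_fixed this]

theorem it_mul (n : ℕ) (c : ℝ) (h : Y.V → ℝ) (w : Y.V) :
    Y.T^[n] (fun v => c * h v) w = c * Y.T^[n] h w := by
  induction n generalizing w with
  | zero => rfl
  | succ n ih =>
    rw [Function.iterate_succ_apply', Function.iterate_succ_apply', T, T,
      sum_congr rfl fun i _ => ih _, ← mul_sum, mul_div_assoc]

theorem it_sub (n : ℕ) (h h' : Y.V → ℝ) (w : Y.V) :
    Y.T^[n] (fun v => h v - h' v) w = Y.T^[n] h w - Y.T^[n] h' w := by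
  induction n generalizing w with
  | zero => rfl
  | succ n ih =>
    simp only [Function.iterate_succ_apply', T]
    rw [sum_congr rfl fun i _ => ih _, sum_sub_distrib, sub_div]

theorem it_sum (n : ℕ) (s : Finset Y.V) (h : Y.V → Y.V → ℝ) (w : Y.V) :
    Y.T^[n] (fun v => ∑ u ∈ s, h u v) w = ∑ u ∈ s, Y.T^[n] (h u) w := by
  induction n generalizing w with
  | zero => rfl
  | succ n ih =>
    simp only [Function.iterate_succ_apply', T]
    rw [sum_congr rfl fun i _ => ih _, sum_comm, sum_div]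

theorem symB_low (n k : ℕ) (h : n ≤ k) : Y.T^[n] (fun v => ind (k < Y.dep v)) Y.root ≤ 0 :=
  (Y.it_dep n fun v hv => (ind_neg (by rw [Y.dep0] at hv; omega)).le).trans_eq (Y.it_const n 0 _)

open Classical in
theorem symB_surv (j : ℕ) (w : Y.V) :
    Y.T^[j] (fun v => ind (j ≤ Y.dep v)) w ≤ (if Y.Sp w then 4 / 3 else 1) * th d ^ j := by
  induction j generalizing w with
  | zero =>
    refine (ind_le_one _).trans ?_
    split_ifs <;> norm_num
  | succ j ih =>
    have hd := Y.symB_d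
    have h0 : 0 ≤ th d ^ j := pow_nonneg (by linarith [(symB_th d).1]) j
    have h1 : ∀ v, Y.T^[j] (fun v => ind (j + 1 ≤ Y.dep v)) v ≤
        (if Y.Sp v then 4 / 3 else 1) * th d ^ j := fun v =>
      (Y.it_le j fun v => ind_mono fun h => by omega).trans (ih v)
    rw [Function.iterate_succ_apply', T, div_le_iff₀ (by linarith), pow_succ]
    by_cases hs : Y.Sp w
    · obtain ⟨rfl, h2⟩ := Y.sp w hs
      refine (sum_le_sum fun i _ => h1 _).trans_eq ?_
      rw [Fin.sum_univ_two, if_neg (h2 0).2, if_neg (h2 1).2, if_pos hs, th, if_pos rfl]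
      push_cast
      ring
    · obtain ⟨i, hi⟩ := Y.nsp w hs
      rw [← add_sum_erase _ _ (mem_univ i), hi, if_neg hs]
      refine (add_le_add (Y.symB_low j j le_rfl) (sum_le_card_nsmul _ _
        ((if d = 2 then 4 / 3 else 1) * th d ^ j) fun l _ => (h1 _).trans ?_)).trans ?_
      · refine mul_le_mul_of_nonneg_right ?_ h0
        by_cases h3 : Y.Sp (Y.kid w l)
        · rw [if_pos h3, if_pos (Y.sp _ h3).1]
        · rw [if_neg h3]
          split_ifs <;> norm_num
      · rw [card_erase_of_mem (mem_univ i), card_univ, Fintype.card_fin, nsmul_eq_mul]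
        generalize th d ^ j = t at h0
        rcases Y.hd with rfl | rfl <;> norm_num [th] <;> linarith

theorem tail (n k : ℕ) : Y.T^[n] (fun v => ind (k < Y.dep v)) Y.root ≤ th d ^ k := by
  have h0 : 0 ≤ th d ^ k := pow_nonneg (by linarith [(symB_th d).1]) k
  rcases le_or_gt n k with h | h
  · exact (Y.symB_low n k h).trans h0
  obtain ⟨m, rfl⟩ := Nat.exists_eq_add_of_le' (show k + 1 ≤ n from h)
  rw [Function.iterate_add_apply]
  refine (Y.it_le m fun v => (Y.symB_surv (k + 1) v).trans ?_).trans_eq (Y.it_const m _ _)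
  have := symB_th d
  rw [pow_succ]
  split_ifs <;> nlinarith

theorem symB_root (w : Y.V) : (d : ℝ)⁻¹ * ind (¬ Y.Sp w) ≤ Y.T (fun v => ind (v = Y.root)) w := by
  rw [T, div_eq_inv_mul]
  refine mul_le_mul_of_nonneg_left ?_ (by positivity)
  by_cases hs : Y.Sp w
  · rw [ind_neg (not_not.2 hs)]
    exact sum_nonneg fun i _ => ind_nonneg _
  · obtain ⟨i, hi⟩ := Y.nsp w hs
    rw [ind_pos hs, ← ind_pos hi]
    exact single_le_sum (f := fun i => ind (Y.kid w i = Y.root)) (fun _ _ => ind_nonneg _)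
      (mem_univ i)

theorem ret (n : ℕ) : 1 / 4 ≤ Y.T^[n] (fun v => ind (v = Y.root)) Y.root := by
  rcases n with _ | n
  · exact le_trans (by norm_num) (ind_pos rfl).ge
  rw [Function.iterate_succ_apply]
  refine le_trans ?_ (Y.it_le n Y.symB_root)
  rw [it_mul]
  rcases Y.hd with rfl | rfl
  · have h1 : 1 / 2 ≤ Y.T^[n] (fun v => ind (¬ Y.Sp v)) Y.root := by
      rcases n with _ | n
      · exact le_trans (by norm_num) (ind_pos Y.sp0).ge
      rw [Function.iterate_succ_apply]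
      refine (Y.it_const n _ _).ge.trans (Y.it_le n fun w => ?_)
      obtain ⟨i, hi⟩ : ∃ i, ¬ Y.Sp (Y.kid w i) := by
        by_cases hs : Y.Sp w
        · exact ⟨0, ((Y.sp w hs).2 0).2⟩
        · exact (Y.nsp w hs).imp fun i hi => by rw [hi]; exact Y.sp0
      refine div_le_div_of_nonneg_right ?_ (by norm_num)
      rw [← ind_pos hi]
      exact single_le_sum (f := fun i => ind (¬ Y.Sp (Y.kid w i))) (fun _ _ => ind_nonneg _)
        (mem_univ i)
    push_cast
    linarith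
  · rw [funext fun v => ind_pos fun h : Y.Sp v => absurd (Y.sp v h).1 (by norm_num), it_const]
    norm_num

theorem symB_pt {v : Y.V} (hv : v ≠ Y.root) (n : ℕ) (w : Y.V) :
    Y.T^[n + 1] (fun u => ind (u = v)) w = (d : ℝ)⁻¹ * Y.T^[n] (fun u => ind (u = Y.par v)) w := by
  rw [Function.iterate_succ_apply, ← it_mul]
  refine congrArg (Y.T^[n] · w) (funext fun w => ?_)
  rw [T, div_eq_inv_mul]
  refine congrArg _ ?_
  by_cases h : w = Y.par v
  · obtain ⟨i, hi⟩ := Y.ex v hv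
    rw [ind_pos h, h, sum_eq_single i (fun j _ hj => ind_neg fun e =>
      hj (Y.inj _ (e.trans hi.symm))) (fun h => absurd (mem_univ i) h), ind_pos hi]
  · rw [ind_neg h]
    exact sum_eq_zero fun i _ => ind_neg fun e =>
      h ((Y.kidp w i (e ▸ hv)).1.symm.trans (congrArg _ e))

theorem symB_up (P : Y.V → Prop) (hP : ∀ v, v ≠ Y.root → P v → P (Y.par v)) {w : Y.V}
    (hw : P w → w = Y.root) (n : ℕ) {u : Y.V} (hu : P u) :
    Y.T^[n] (fun v => ind (v = u)) w ≤ ((d : ℝ) ^ Y.dep u)⁻¹ := by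
  induction n generalizing u with
  | zero =>
    by_cases h : w = u
    · rw [← h, hw (h ▸ hu), Y.dep0, pow_zero, inv_one]
      exact ind_le_one _
    · exact (ind_neg h).trans_le (by positivity)
  | succ n ih =>
    by_cases h : u = Y.root
    · rw [h, Y.dep0, pow_zero, inv_one]
      exact (Y.it_le _ fun _ => ind_le_one _).trans_eq (Y.it_const _ 1 _)
    · rw [Y.symB_pt h, Y.dep_par h, pow_succ', mul_inv]
      exact mul_le_mul_of_nonneg_left (ih (hP u h hu)) (by positivity)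

theorem symB_lo (n : ℕ) {u : Y.V} (hu : Y.dep u ≤ n) :
    1 / 4 * ((d : ℝ) ^ Y.dep u)⁻¹ ≤ Y.T^[n] (fun v => ind (v = u)) Y.root := by
  induction n generalizing u with
  | zero =>
    have h : u = Y.root := by_contra fun h => by have := Y.dep_par h; omega
    rw [h, Y.dep0, pow_zero, inv_one, mul_one]
    exact Y.ret 0
  | succ n ih =>
    by_cases h : u = Y.root
    · rw [h, Y.dep0, pow_zero, inv_one, mul_one]
      exact Y.ret _
    · have e := Y.dep_par h
      rw [Y.symB_pt h, e, pow_succ', mul_inv, mul_left_comm]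
      exact mul_le_mul_of_nonneg_left (ih (by omega)) (by positivity)

open Classical in
/-- boundary cells of bounded depth -/
noncomputable def bd (Fix : Y.V → Prop) (k : ℕ) : Finset Y.V :=
  (Y.lvl k).filter fun v => ¬ Fix v ∧ Fix (Y.par v)

theorem symB_ind (k : ℕ) : (fun v => ind ((¬ Fix v ∧ Fix (Y.par v)) ∧ Y.dep v ≤ k)) =
    fun v => ∑ u ∈ Y.bd Fix k, ind (v = u) := by
  classical
  funext v
  have : v ∈ Y.bd Fix k ↔ (¬ Fix v ∧ Fix (Y.par v)) ∧ Y.dep v ≤ k := by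
    rw [bd, mem_filter, mem_lvl, and_comm]
  rw [← ind_congr this]
  by_cases h : v ∈ Y.bd Fix k
  · rw [ind_pos h, sum_eq_single v (fun u _ hu => ind_neg hu.symm) (fun h' => absurd h h'),
      ind_pos rfl]
  · rw [ind_neg h, sum_eq_zero fun u hu => ind_neg fun e : v = u => h (e ▸ hu)]

theorem symB_bd (n k : ℕ) :
    Y.T^[n] (fun v => ind ((¬ Fix v ∧ Fix (Y.par v)) ∧ Y.dep v ≤ k)) Y.root ≤ Y.wt Fix k := by
  rw [symB_ind, it_sum]
  exact sum_le_sum fun u _ =>
    Y.symB_up (fun v => True) (fun _ _ _ => trivial) (fun _ => rfl) n trivial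

theorem symB_bd' {n k : ℕ} (h : k ≤ n) : 1 / 4 * Y.wt Fix k ≤
    Y.T^[n] (fun v => ind ((¬ Fix v ∧ Fix (Y.par v)) ∧ Y.dep v ≤ k)) Y.root := by
  classical
  rw [symB_ind, it_sum, wt, mul_sum]
  exact sum_le_sum fun u hu => Y.symB_lo n ((Y.mem_lvl.1 (mem_filter.1 hu).1).trans h)

theorem symB_mass (n j k : ℕ) (Rl : Y.V → Y.V → Prop) {c : ℝ} (hc : 0 ≤ c)
    (h : ∀ v, 1 - c * ind (¬ Fix v ∧ Fix (Y.par v)) ≤ Y.T^[j] (fun v0 => ind (Rl v0 v)) v) :
    1 - th d ^ k - c * Y.wt Fix (k + 1) ≤ Y.mass n j k Rl := by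
  have h1 := Y.tail (n - (j + 1)) k
  have h2 := mul_le_mul_of_nonneg_left (Y.symB_bd (Fix := Fix) (n - (j + 1) + 1) (k + 1)) hc
  rw [Function.iterate_succ_apply, ← it_mul] at h2
  refine (sub_le_sub (sub_le_sub (Y.it_const (n - (j + 1)) 1 Y.root).ge h1) h2).trans ?_
  rw [← it_sub, ← it_sub]
  refine Y.it_le _ fun w => ?_
  by_cases hw : Y.dep w ≤ k
  · rw [ind_pos hw, ind_neg (not_lt.2 hw), one_mul, sub_zero]
    have e := Y.it_sub 1 (fun _ => 1)
      (fun v => c * ind ((¬ Fix v ∧ Fix (Y.par v)) ∧ Y.dep v ≤ k + 1)) w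
    rw [it_const, it_mul] at e
    refine e.ge.trans ?_
    rw [Function.iterate_one]
    refine Y.T_le fun i => le_trans ?_ (h _)
    rw [ind_congr (and_iff_left (by have := Y.symB_dep w i; omega))]
  · rw [ind_neg hw, ind_pos (not_le.1 hw), zero_mul, sub_self, zero_sub, neg_nonpos]
    exact mul_nonneg hc (div_nonneg (sum_nonneg fun _ _ => ind_nonneg _) (Nat.cast_nonneg _))

theorem mB (h0 : Fix Y.root) {n : ℕ} (hn : 1 ≤ n) (k : ℕ) :
    1 - th d ^ k - Y.wt Fix (k + 1) ≤ Y.mass n 0 k fun v _ => ¬ (¬ Fix v ∧ Fix (Y.par v)) := by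
  have _ := And.intro h0 hn
  rw [← one_mul (Y.wt Fix (k + 1))]
  refine Y.symB_mass n 0 k _ one_pos.le fun v => ?_
  by_cases h : ¬ Fix v ∧ Fix (Y.par v)
  · rw [ind_pos h, one_mul, sub_self]
    exact ind_nonneg _
  · rw [ind_neg h, mul_zero, sub_zero]
    exact (ind_pos h).ge

theorem mA (h0 : Fix Y.root) {n k : ℕ} (hn : k + 1 ≤ n) :
    1 / 4 * Y.wt Fix (k + 1) ≤
      Y.mass n 0 k fun v _ => (¬ Fix v ∧ Fix (Y.par v)) ∧ Y.dep v ≤ k + 1 := by
  refine (Y.symB_bd' (n := n - (0 + 1) + 1) (by omega)).trans ?_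
  rw [Function.iterate_succ_apply]
  refine Y.it_le _ fun w => ?_
  by_cases hw : Y.dep w ≤ k
  · rw [ind_pos hw, one_mul]
    exact le_rfl
  · rw [ind_neg hw, zero_mul]
    refine (Y.T_le (h' := fun _ => 0) fun i => (ind_neg fun h => ?_).le).trans_eq
      (Y.it_const 1 0 w)
    have := (Y.kidp w i fun e => h.1.1 (e ▸ h0)).2
    omega

theorem mAB (h0 : Fix Y.root) (h1 : ∀ v, v ≠ Y.root → Fix v → Fix (Y.par v)) {n j : ℕ}
    (hj : 0 < j) (hn : j + 1 ≤ n) (k : ℕ) :
    1 - th d ^ k - Y.wt Fix (k + 1) ^ 2 ≤ Y.mass n j k fun v v' =>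
      ¬ ((¬ Fix v ∧ Fix (Y.par v)) ∧ Y.dep v ≤ k + 1) ∨ ¬ (¬ Fix v' ∧ Fix (Y.par v')) := by
  classical
  have _ := hn
  rw [sq]
  refine Y.symB_mass n j k _ (sum_nonneg fun _ _ => by positivity) fun v => ?_
  by_cases h : ¬ Fix v ∧ Fix (Y.par v)
  · have h2 : Y.T^[j] (fun v => ind ((¬ Fix v ∧ Fix (Y.par v)) ∧ Y.dep v ≤ k + 1)) v ≤
        Y.wt Fix (k + 1) := by
      obtain ⟨j, rfl⟩ := Nat.exists_eq_add_of_le' hj
      rw [symB_ind, it_sum]
      refine sum_le_sum fun u hu => ?_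
      have h3 := (mem_filter.1 hu).2
      have h4 : u ≠ Y.root := fun e => h3.1 (e ▸ h0)
      rw [Y.symB_pt h4, Y.dep_par h4, pow_succ', mul_inv]
      exact mul_le_mul_of_nonneg_left (Y.symB_up Fix h1 (fun e => absurd e h.1) j h3.2)
        (by positivity)
    rw [ind_pos h, mul_one]
    refine (sub_le_sub (Y.it_const j 1 v).ge h2).trans ?_
    rw [← it_sub]
    refine Y.it_le j fun u => ?_
    by_cases h5 : (¬ Fix u ∧ Fix (Y.par u)) ∧ Y.dep u ≤ k + 1
    · rw [ind_pos h5, sub_self]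
      exact ind_nonneg _
    · rw [ind_neg h5, sub_zero, ind_pos (Or.inl h5)]
  · rw [ind_neg h, mul_zero, sub_zero]
    exact (Y.it_const j 1 v).ge.trans (Y.it_le j fun u => (ind_pos (Or.inr h)).ge)

theorem wt_le {ks : ℕ} (h : ∀ v, ¬ Fix v → ks + 1 ≤ Y.dep v) (k : ℕ) :
    Y.wt Fix k ≤ 4 * th d ^ ks := by
  have h1 := (Y.symB_bd' (Fix := Fix) (le_refl k)).trans
    ((Y.it_le k fun v => ind_mono fun hv => h v hv.1.1).trans (Y.tail k ks))
  linarith

end Sym

end Pool.Agent.Lib.MP_a2c890_nt.R
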